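import Pool.Agent.Lib.MP_f406e2_lc.Basic

/-! Open lunes tile the open hemisphere `y > 0` (up to the boundary great circles). -/

open Complex ComplexConjugate

namespace Pool.Agent.Lib.MP_f406e2_lc

/-- the open lune between the angles `0` and `π / k` -/
def Lune (k : ℕ) : Set P := {q | 0 < q.1.im ∧ (rot k (-1) q).1.im < 0}

lemma mem_Lune (k : ℕ) (q : P) : q ∈ Lune k ↔ 0 < q.1.im ∧ (rot k (-1) q).1.im < 0 := Iff.rfl

theorem Lune_open (k : ℕ) : IsOpen (Lune k) := by
  have h1 : Continuous (fun q : P => q.1.im) := Complex.continuous_im.comp continuous_fst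
  have h2 : Continuous (fun q : P => (rot k (-1) q).1.im) := by
    have : Continuous (fun q : P => om k ^ (-1 : ℤ) * q.1) := continuous_const.mul continuous_fst
    exact Complex.continuous_im.comp this
  exact (isOpen_lt continuous_const h1).inter (isOpen_lt h2 continuous_const)

lemma rot_im (k : ℕ) (i : ℤ) (y : P) :
    (rot k i y).1.im = ‖y.1‖ * Real.sin (Complex.arg y.1 + i * (Real.pi / k)) := by
  have h : (rot k i y).1
      = (‖y.1‖ : ℂ) * Complex.exp (((Complex.arg y.1 + i * (Real.pi / k) : ℝ) : ℂ) * Complex.I) := by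
    conv_lhs => rw [rot_fst, om_zpow, ← Complex.norm_mul_exp_arg_mul_I y.1]
    rw [mul_left_comm, ← Complex.exp_add]
    congr 2
    push_cast
    ring
  rw [h, Complex.im_ofReal_mul, Complex.exp_ofReal_mul_I_im]

lemma flp_mem_Lune (k : ℕ) (q : P) : flp k q ∈ Lune k ↔ q ∈ Lune k := by
  rw [mem_Lune, mem_Lune]
  have h1 : (flp k q).1.im = -(rot k (-1) q).1.im := by
    have : (flp k q).1 = conj ((rot k (-1) q).1) := by
      simp only [flp_fst, rot_fst, map_mul, conj_om_zpow]
      simp
    rw [this, Complex.conj_im]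
  have h2 : (rot k (-1) (flp k q)).1.im = -q.1.im := by
    have : (rot k (-1) (flp k q)).1 = conj q.1 := by
      simp only [flp_fst, rot_fst]
      rw [← mul_assoc, zpow_neg_one, inv_mul_cancel₀ (om_ne_zero k), one_mul]
    rw [this, Complex.conj_im]
  rw [h1, h2]
  constructor
  · rintro ⟨h, h'⟩; exact ⟨by linarith, by linarith⟩
  · rintro ⟨h, h'⟩; exact ⟨by linarith, by linarith⟩

lemma psi_mem_Lune (k j : ℕ) (q : P) : psi k j q ∈ Lune k ↔ q ∈ Lune k := by
  unfold psi
  split_ifs
  · exact flp_mem_Lune k q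
  · rfl

theorem lune_FA (k : ℕ) (hk : 3 ≤ k) (y : P) (hy : ∀ i : ℤ, (rot k i y).1.im ≠ 0) :
    FA k (Lune k) y = if 0 < y.1.im then 1 else 0 := by
  have hk0 : (0 : ℝ) < k := by exact_mod_cast (by omega : 0 < k)
  have hpi := Real.pi_pos
  set t := Complex.arg y.1 with ht
  have ht1 : -Real.pi < t := Complex.neg_pi_lt_arg _
  have ht2 : t ≤ Real.pi := Complex.arg_le_pi _
  have hs : ∀ i : ℤ, Real.sin (t + i * (Real.pi / k)) ≠ 0 := by
    intro i h
    apply hy i
    rw [rot_im, ← ht, h, mul_zero]
  have hr : 0 < ‖y.1‖ := by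
    rcases (norm_nonneg y.1).lt_or_eq with h | h
    · exact h
    · exact absurd (by rw [rot_im, ← h, zero_mul]) (hy 0)
  have hmem : ∀ j : ℕ, rot k (-(j : ℤ)) y ∈ Lune k ↔
      0 < Real.sin (t - j * (Real.pi / k)) ∧ Real.sin (t - (j + 1) * (Real.pi / k)) < 0 := by
    intro j
    rw [mem_Lune, rot_rot, rot_im, rot_im, ← ht, mul_pos_iff_of_pos_left hr]
    have e1 : t + ((-(j : ℤ) : ℤ) : ℝ) * (Real.pi / k) = t - j * (Real.pi / k) := by
      push_cast; ring
    have e2 : t + ((-1 + -(j : ℤ) : ℤ) : ℝ) * (Real.pi / k) = t - (j + 1) * (Real.pi / k) := by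
      push_cast; ring
    rw [e1, e2]
    constructor
    · rintro ⟨h1, h2⟩
      refine ⟨h1, ?_⟩
      by_contra hcon
      push Not at hcon
      have := mul_nonneg hr.le hcon
      linarith
    · rintro ⟨h1, h2⟩
      exact ⟨h1, mul_neg_of_pos_of_neg hr h2⟩
  have him : y.1.im = ‖y.1‖ * Real.sin t := by
    have := rot_im k 0 y
    simpa [← ht] using this
  have hts : Real.sin t ≠ 0 := by
    have := hs 0
    simpa using this
  -- basic facts on π / k
  set δ := Real.pi / k with hδ
  have hδ0 : 0 < δ := div_pos hpi hk0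
  have hkδ : (k : ℝ) * δ = Real.pi := by
    rw [hδ]; field_simp
  unfold FA
  by_cases hpos : 0 < y.1.im
  · rw [if_pos hpos]
    have hsin : 0 < Real.sin t := by
      rw [him] at hpos
      exact (mul_pos_iff_of_pos_left hr).1 hpos
    have ht0 : 0 < t := by
      by_contra hcon
      push Not at hcon
      have := Real.sin_nonpos_of_nonpos_of_neg_pi_le hcon ht1.le
      linarith
    have htpi : t < Real.pi := by
      rcases ht2.lt_or_eq with h | h
      · exact h
      · rw [h, Real.sin_pi] at hsin; exact absurd hsin (lt_irrefl _)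
    set j0 := ⌊t / δ⌋₊ with hj0
    have hdiv : 0 ≤ t / δ := (div_pos ht0 hδ0).le
    have ha : (j0 : ℝ) ≤ t / δ := Nat.floor_le hdiv
    have hb : t / δ < (j0 : ℝ) + 1 := Nat.lt_floor_add_one _
    have ha' : (j0 : ℝ) * δ ≤ t := (le_div_iff₀ hδ0).1 ha
    have hb' : t < ((j0 : ℝ) + 1) * δ := (div_lt_iff₀ hδ0).1 hb
    have ha'' : (j0 : ℝ) * δ < t := by
      rcases ha'.lt_or_eq with h | h
      · exact h
      · exfalso
        have := hs (-(j0 : ℤ))
        apply this
        have : t + ((-(j0 : ℤ) : ℤ) : ℝ) * δ = 0 := by push_cast; rw [← h]; ring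
        rw [this, Real.sin_zero]
    have hj0k : j0 < k := by
      have : (j0 : ℝ) < k := by
        by_contra hcon
        push Not at hcon
        have := mul_le_mul_of_nonneg_right hcon hδ0.le
        linarith
      exact_mod_cast this
    rw [Finset.sum_eq_single j0]
    · rw [if_pos]
      rw [hmem]
      constructor
      · apply Real.sin_pos_of_pos_of_lt_pi
        · linarith
        · have : 0 ≤ (j0 : ℝ) * δ := by positivity
          linarith
      · apply Real.sin_neg_of_neg_of_neg_pi_lt
        · linarith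
        · have h1 : (j0 : ℝ) + 1 ≤ k := by exact_mod_cast hj0k
          have := mul_le_mul_of_nonneg_right h1 hδ0.le
          linarith
    · intro j hj hne
      rw [if_neg]
      rw [hmem]
      rintro ⟨h1, h2⟩
      have hjk : j < k := Finset.mem_range.1 hj
      rcases lt_or_gt_of_ne hne with h | h
      · have h3 : (j : ℝ) + 1 ≤ j0 := by exact_mod_cast h
        have h4 := mul_le_mul_of_nonneg_right h3 hδ0.le
        have h5 : 0 ≤ ((j : ℝ) + 1) * δ := by positivity
        have : 0 < Real.sin (t - (j + 1) * δ) :=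
          Real.sin_pos_of_pos_of_lt_pi (by linarith) (by linarith)
        linarith
      · have h3 : (j0 : ℝ) + 1 ≤ j := by exact_mod_cast h
        have h4 := mul_le_mul_of_nonneg_right h3 hδ0.le
        have h5 : (j : ℝ) ≤ k := by exact_mod_cast hjk.le
        have h6 := mul_le_mul_of_nonneg_right h5 hδ0.le
        have : Real.sin (t - j * δ) < 0 :=
          Real.sin_neg_of_neg_of_neg_pi_lt (by linarith) (by linarith)
        linarith
    · intro h
      exact absurd (Finset.mem_range.2 hj0k) h
  · rw [if_neg hpos]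
    have hsin : Real.sin t < 0 := by
      rcases lt_or_gt_of_ne hts with h | h
      · exact h
      · exact absurd (by rw [him]; exact mul_pos hr h) hpos
    have ht0 : t < 0 := by
      by_contra hcon
      push Not at hcon
      have := Real.sin_nonneg_of_nonneg_of_le_pi hcon ht2
      linarith
    apply Finset.sum_eq_zero
    intro j hj
    rw [if_neg]
    rw [hmem]
    rintro ⟨h1, h2⟩
    have hjk : j < k := Finset.mem_range.1 hj
    have h0 : 0 ≤ (j : ℝ) * δ := by positivity
    have h3 : t - j * δ < -Real.pi := by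
      by_contra hcon
      push Not at hcon
      have := Real.sin_nonpos_of_nonpos_of_neg_pi_le (by linarith : t - j * δ ≤ 0) hcon
      linarith
    have h5 : (j : ℝ) + 1 ≤ k := by exact_mod_cast hjk
    have h6 := mul_le_mul_of_nonneg_right h5 hδ0.le
    have h7 : 0 < Real.sin (t - (j + 1) * δ + 2 * Real.pi) :=
      Real.sin_pos_of_pos_of_lt_pi (by linarith) (by linarith)
    rw [Real.sin_add_two_pi] at h7
    linarith

theorem lune_FB (k : ℕ) (hk : 3 ≤ k) (y : P) (hy : ∀ i : ℤ, (rot k i y).1.im ≠ 0) :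
    FB k (Lune k) y = if 0 < y.1.im then 1 else 0 := by
  rw [← lune_FA k hk y hy]
  unfold FB FA
  apply Finset.sum_congr rfl
  intro j _
  have h := psi_mem_Lune k j (rot k (-(j : ℤ)) y)
  by_cases h' : rot k (-(j : ℤ)) y ∈ Lune k
  · rw [if_pos h', if_pos (h.2 h')]
  · rw [if_neg h', if_neg (fun h'' => h' (h.1 h''))]

end Pool.Agent.Lib.MP_f406e2_lc
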