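import Pool.Agent.Lib.MP_f406e2_lc.Exist
import Pool.Agent.Lib.MP_f406e2_lc.Lune

/-! Gluing the three parts of the solution. -/

open Complex ComplexConjugate

namespace Pool.Agent.Lib.MP_f406e2_lc

lemma measurableSet_Sph : MeasurableSet Sph := by
  have : IsClosed Sph := by
    unfold Sph
    apply isClosed_eq
    · exact (Complex.continuous_normSq.comp continuous_fst).add (continuous_snd.pow 2)
    · exact continuous_const
  exact this.measurableSet

theorem assemble (k a b : ℕ) (hk : 3 ≤ k) (ha : 0 < a) (H : Height k a b) (GC Q : Set P)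
    (hQG : Q ⊆ GC) (hGS : GC ⊆ Sph) (hGm : MeasurableSet GC) (hQc : Q.Countable)
    (gact : ∀ x ∈ GC, ∀ (i : ℤ) (e : Bool), act k i e x ∈ GC) (grr : ∀ x ∈ GC, rr a b x ∈ GC)
    (qact : ∀ x ∈ Q, ∀ (i : ℤ) (e : Bool), act k i e x ∈ Q) (qrr : ∀ x ∈ Q, rr a b x ∈ Q)
    (hlune : ∀ x ∈ Sph, x ∉ GC → ∀ i : ℤ, (rot k i x).1.im ≠ 0) (AX : Set P)
    (hAX : MeasurableSet AX)
    (hAXe : ∀ x ∈ GC, x ∉ Q → FA k AX x + FB k AX (rr a b x) = 1) :
    ∃ A : Set P, MeasurableSet A ∧ A ⊆ Sph ∧ ∀ x ∈ Sph, FA k A x + FB k A (rr a b x) = 1 := by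
  have hk0 : 0 < k := by omega
  have hab := hab_ne b ha
  obtain ⟨AI, hAI⟩ := exists_solution H hk ha
  have hQm : MeasurableSet Q := hQc.measurableSet
  have inv : ∀ (B : Set P), (∀ x ∈ B, ∀ (i : ℤ) (e : Bool), act k i e x ∈ B) →
      ∀ (x : P) (i : ℤ) (e : Bool), act k i e x ∈ B ↔ x ∈ B := by
    intro B hB x i e
    refine ⟨fun h => ?_, fun h => hB x h i e⟩
    have := hB _ h (if e then i else -i) e
    rwa [act_inv] at this
  have rinv : ∀ (B : Set P), (∀ x ∈ B, rr a b x ∈ B) → ∀ x, rr a b x ∈ B ↔ x ∈ B := by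
    intro B hB x
    refine ⟨fun h => ?_, fun h => hB x h⟩
    have := hB _ h
    rwa [rr_rr a b hab] at this
  have gG := inv GC gact
  have gQ := inv Q qact
  have gS := inv Sph (fun x hx i e => act_mem_Sph hx)
  have rG := rinv GC grr
  have rQ := rinv Q qrr
  refine ⟨(Sph ∩ (Lune k \ GC)) ∪ (AX ∩ (GC \ Q)) ∪ (AI ∩ Q), ?_, ?_, ?_⟩
  · refine ((measurableSet_Sph.inter ((Lune_open k).measurableSet.diff hGm)).union
      (hAX.inter (hGm.diff hQm))).union ?_
    exact (hQc.mono Set.inter_subset_right).measurableSet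
  · rintro x ((h | h) | h)
    · exact h.1
    · exact hGS h.2.1
    · exact hGS (hQG h.2)
  · set A : Set P := (Sph ∩ (Lune k \ GC)) ∪ (AX ∩ (GC \ Q)) ∪ (AI ∩ Q) with hA
    intro x hx
    by_cases hxG : x ∈ GC
    · by_cases hxQ : x ∈ Q
      · -- special points
        have key : ∀ y, y ∈ Q → ∀ i e, act k i e y ∈ A ↔ act k i e y ∈ AI := by
          intro y hy i e
          have h1 := (gQ y i e).2 hy
          have h2 := hQG h1
          constructor
          · rintro ((h | h) | h)
            · exact absurd h2 h.2.2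
            · exact absurd h1 h.2.2
            · exact h.1
          · intro h; exact Or.inr ⟨h, h1⟩
        rw [FA_congr (key x hxQ), FB_congr (key _ (qrr x hxQ))]
        exact hAI x hx
      · have key : ∀ y, y ∈ GC → y ∉ Q → ∀ i e, act k i e y ∈ A ↔ act k i e y ∈ AX := by
          intro y hy hy' i e
          have h1 := (gG y i e).2 hy
          have h2 : act k i e y ∉ Q := fun h => hy' ((gQ y i e).1 h)
          constructor
          · rintro ((h | h) | h)
            · exact absurd h1 h.2.2
            · exact h.1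
            · exact absurd h.2 h2
          · intro h; exact Or.inl (Or.inr ⟨h, h1, h2⟩)
        rw [FA_congr (key x hxG hxQ),
          FB_congr (key _ (grr x hxG) (fun h => hxQ ((rQ x).1 h)))]
        exact hAXe x hxG hxQ
    · have key : ∀ y, y ∈ Sph → y ∉ GC → ∀ i e, act k i e y ∈ A ↔ act k i e y ∈ Lune k := by
        intro y hy hy' i e
        have h1 : act k i e y ∉ GC := fun h => hy' ((gG y i e).1 h)
        have h2 : act k i e y ∈ Sph := (gS y i e).2 hy
        constructor
        · rintro ((h | h) | h)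
          · exact h.2.1
          · exact absurd h.2.1 h1
          · exact absurd (hQG h.2) h1
        · intro h; exact Or.inl (Or.inl ⟨h2, h, h1⟩)
      have hxr : rr a b x ∉ GC := fun h => hxG ((rG x).1 h)
      have hxs : rr a b x ∈ Sph := rr_mem_Sph hab hx
      rw [FA_congr (key x hx hxG), FB_congr (key _ hxs hxr),
        lune_FA k hk x (hlune x hx hxG), lune_FB k hk _ (hlune _ hxs hxr)]
      have him : (rr a b x).1.im = -x.1.im := by
        rw [rr_fst, Complex.sub_im, Complex.ofReal_im, zero_sub]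
      have hne : x.1.im ≠ 0 := by
        have := hlune x hx hxG 0
        rwa [rot_zero] at this
      rw [him]
      rcases lt_or_gt_of_ne hne with h | h
      · rw [if_neg (by linarith), if_pos (by linarith)]
      · rw [if_pos h, if_neg (by linarith)]

end Pool.Agent.Lib.MP_f406e2_lc
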