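import Pool.Agent.Lib.MP_f406e2_lc.State

/-! Interface between the geometry of the great circles and the Borel construction. -/

open Complex ComplexConjugate

namespace Pool.Agent.Lib.MP_f406e2_lc

/-- The generic points on the great circles. `X d`: generic points on circles of level `d`;
`I d`: the inner ones; `W`: the inner points of level `0` of type `1`. -/
structure Circles (k a b : ℕ) where
  X : ℕ → Set P
  I : ℕ → Set P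
  W : Set P
  X_meas : ∀ d, MeasurableSet (X d)
  I_meas : ∀ d, MeasurableSet (I d)
  W_meas : MeasurableSet W
  I_sub : ∀ d, I d ⊆ X d
  X_disj : ∀ d d' x, x ∈ X d → x ∈ X d' → d = d'
  X_act : ∀ d x, x ∈ X d → ∀ (i : ℤ) (e : Bool), act k i e x ∈ X d
  I_Y : ∀ d x, x ∈ I d → Yf x ∈ I d
  I_Z : ∀ x, x ∈ I 0 → rot k k x ∈ I 0
  free : ∀ d x, x ∈ X d → Free k x
  z_ne : ∀ d x, x ∈ X d → x.2 ≠ 0
  r_out : ∀ d x, x ∈ X d → x ∉ I d → rr a b x ∈ I (d + 1)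
  r_in : ∀ d x, x ∈ I (d + 1) → rr a b x ∈ X d ∧ rr a b x ∉ I d
  r_zero : ∀ x, x ∈ I 0 → rr a b x ∈ I 0
  ex_I : ∀ d x, x ∈ X d → ∃ (i : ℤ) (e : Bool), act k i e x ∈ I d
  uniq : ∀ d x, x ∈ I (d + 1) → ∀ (i : ℤ) (e : Bool), act k i e x ∈ I (d + 1) →
    (e = false ∧ (2 * k : ℤ) ∣ i) ∨ (e = true ∧ (2 * k : ℤ) ∣ i - (k - 1))
  uniq_zero : ∀ x, x ∈ I 0 → ∀ (i : ℤ) (e : Bool), act k i e x ∈ I 0 →
    (e = false ∧ (k : ℤ) ∣ i) ∨ (e = true ∧ (k : ℤ) ∣ i + 1)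
  W_sub : W ⊆ I 0
  W_Y : ∀ x, x ∈ W → Yf x ∈ W
  W_r : ∀ x, x ∈ I 0 → (rr a b x ∈ W ↔ x ∉ W)

end Pool.Agent.Lib.MP_f406e2_lc
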