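import Pool.Agent.Lib.MP_f406e2_lc.BDefs

/-! The great circles in the orbit of the circle with pole `ey`, their levels, and the countable
exceptional set. -/

set_option autoImplicit false

open Complex ComplexConjugate

namespace Pool.Agent.Lib.MP_f406e2_lc

namespace BX1Aux

/-- poles of the great circles of level `d` -/
def CC {k a b : ℕ} (H : Height k a b) : ℕ → Set P
  | 0 => {u | ∃ i : ℤ, u = rot k i ey}
  | (d + 1) => {u | ∃ u' ∈ CC H d, ¬ H.lev u' ∧ ∃ (i : ℤ) (e : Bool), u = act k i e (rr a b u')}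

variable {k a b : ℕ} (H : Height k a b)

lemma mem_CC_zero {u : P} : u ∈ CC H 0 ↔ ∃ i : ℤ, u = rot k i ey := Iff.rfl

lemma mem_CC_succ {d : ℕ} {u : P} : u ∈ CC H (d + 1) ↔
    ∃ u' ∈ CC H d, ¬ H.lev u' ∧ ∃ (i : ℤ) (e : Bool), u = act k i e (rr a b u') := Iff.rfl

lemma rot_mod (hk : 0 < k) (i : ℤ) (q : P) : rot k i q = rot k (i % (2 * k)) q := by
  apply rot_congr hk
  exact ⟨i / (2 * k), by have := Int.emod_add_mul_ediv i (2 * k); linarith⟩

lemma cc_countable (d : ℕ) : (CC H d).Countable := by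
  induction d with
  | zero =>
    have : CC H 0 = Set.range (fun i : ℤ => rot k i ey) := by
      ext u; rw [mem_CC_zero]; constructor
      · rintro ⟨i, rfl⟩; exact ⟨i, rfl⟩
      · rintro ⟨i, rfl⟩; exact ⟨i, rfl⟩
    rw [this]; exact Set.countable_range _
  | succ d ih =>
    have : CC H (d + 1) ⊆ ⋃ p : ℤ × Bool, (fun u => act k p.1 p.2 (rr a b u)) '' CC H d := by
      rintro u ⟨u', hu', -, i, e, rfl⟩
      exact Set.mem_iUnion.2 ⟨(i, e), u', hu', rfl⟩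
    exact (Set.countable_iUnion fun p => ih.image _).mono this

section
variable (hab : (a : ℝ) ^ 2 + (b : ℝ) ^ 2 ≠ 0)
include hab

lemma cc_sph (d : ℕ) : ∀ u ∈ CC H d, u ∈ Sph := by
  induction d with
  | zero => rintro u ⟨i, rfl⟩; exact rot_mem_Sph ey_mem_Sph
  | succ d ih =>
    rintro u ⟨u', hu', -, i, e, rfl⟩
    exact act_mem_Sph (rr_mem_Sph hab (ih _ hu'))

end

lemma cc_act (hk : 0 < k) {d : ℕ} {u : P} (hu : u ∈ CC H d) (i : ℤ) (e : Bool) :
    act k i e u ∈ CC H d := by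
  cases d with
  | zero =>
    obtain ⟨j, rfl⟩ := hu
    cases e
    · exact ⟨i + j, by rw [act_false, rot_rot]⟩
    · refine ⟨i + (-j + (1 - k)), ?_⟩
      rw [act_true, flp_rot, flp_eq_rot_Yf hk, Yf_ey, rot_rot, rot_rot, add_assoc]
  | succ d =>
    obtain ⟨u', hu', hl, j, f, rfl⟩ := hu
    rw [act_act]
    exact ⟨u', hu', hl, _, _, rfl⟩

lemma cc_neg (hk : 0 < k) {d : ℕ} : ∀ {u : P}, u ∈ CC H d → -u ∈ CC H d := by
  induction d with
  | zero =>
    rintro u ⟨j, rfl⟩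
    refine ⟨j + k, ?_⟩
    rw [rot_add, rot_k_ey hk, rot_neg']
  | succ d ih =>
    rintro u ⟨u', hu', hl, j, f, rfl⟩
    refine ⟨-u', ih hu', by rw [H.lev_neg]; exact hl, j, f, ?_⟩
    rw [rr_neg, act_neg']

lemma N_act (i : ℤ) (e : Bool) (q : P) : H.N (act k i e q) = H.N q := by
  unfold act; rw [H.N_rot]; cases e
  · simp
  · simp [H.N_flp]

lemma N_Yf (hk : 0 < k) (q : P) : H.N (Yf q) = H.N q := by
  rw [Yf_eq hk, H.N_rot, H.N_flp]

lemma cc_N (hab : (a : ℝ) ^ 2 + (b : ℝ) ^ 2 ≠ 0) (d : ℕ) : ∀ u ∈ CC H d, H.N u = H.c ^ d := by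
  induction d with
  | zero => rintro u ⟨i, rfl⟩; rw [H.N_rot, H.N_ey, pow_zero]
  | succ d ih =>
    rintro u ⟨u', hu', hl, i, e, rfl⟩
    rw [N_act, H.up u' (cc_sph H hab d u' hu') hl, ih u' hu', pow_succ']

lemma c_pow_inj {d d' : ℕ} (h : H.c ^ d = H.c ^ d') : d = d' :=
  (pow_right_strictMono₀ H.one_lt_c).injective h

lemma c_pow_ne_one (d : ℕ) : H.c ^ (d + 1) ≠ 1 := by
  intro h
  have : H.c ^ (d + 1) = H.c ^ 0 := by rw [h, pow_zero]
  exact absurd (c_pow_inj H this) (by omega)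

lemma cc_disj (hab : (a : ℝ) ^ 2 + (b : ℝ) ^ 2 ≠ 0) {d d' : ℕ} {u : P} (h : u ∈ CC H d)
    (h' : u ∈ CC H d') : d = d' := by
  apply c_pow_inj H
  rw [← cc_N H hab d u h, ← cc_N H hab d' u h']

/-- (i) -/
lemma lev_zero (hk : 0 < k) {u : P} (hu : u ∈ CC H 0) (hl : H.lev u) : u = ey ∨ u = -ey := by
  obtain ⟨i, rfl⟩ := hu
  rw [H.lev_ey] at hl
  obtain ⟨n, rfl⟩ := hl
  have h1 : rot k (k * n) ey = ((-1) ^ n * Complex.I, 0) := by
    unfold rot ey; rw [om_zpow_mul_k hk]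
  rw [h1]
  rcases Int.even_or_odd n with h | h
  · left; rw [h.neg_one_zpow]; unfold ey; simp
  · right; rw [h.neg_one_zpow]; unfold ey; simp

/-- (ii) -/
lemma two_level (hk : 0 < k) {u : P} (hu : u ∈ Sph) (hN : H.N u ≠ 1) (hl : H.lev u) {i : ℤ}
    {e : Bool} (hl' : H.lev (act k i e u)) :
    (e = false ∧ (2 * k : ℤ) ∣ i) ∨ (e = true ∧ (2 * k : ℤ) ∣ i - (k - 1)) := by
  cases e
  · left; refine ⟨rfl, ?_⟩
    by_contra h
    exact hN (H.two_lev u hu i hl hl' h)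
  · right; refine ⟨rfl, ?_⟩
    by_contra h
    have e1 : act k i true u = rot k (i - (k - 1)) (Yf u) := by
      rw [act_true, flp_eq_rot_Yf hk, rot_rot]; ring_nf
    rw [e1] at hl'
    have := H.two_lev (Yf u) (Yf_mem_Sph hu) _ ((H.lev_Y u).2 hl) hl' h
    rw [N_Yf H hk] at this
    exact hN this

/-- (iii) -/
lemma rr_out (hab : (a : ℝ) ^ 2 + (b : ℝ) ^ 2 ≠ 0) {d : ℕ} {u : P} (hu : u ∈ CC H d)
    (hl : ¬ H.lev u) : rr a b u ∈ CC H (d + 1) ∧ H.lev (rr a b u) :=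
  ⟨⟨u, hu, hl, 0, false, by simp⟩, H.lev_of_up u (cc_sph H hab d u hu) hl⟩

lemma act_Yf (hk : 0 < k) (q : P) : act k (k - 1) true q = Yf q := by
  rw [act_true, Yf_eq hk]

lemma cc_Yf (hk : 0 < k) {d : ℕ} {u : P} (hu : u ∈ CC H d) : Yf u ∈ CC H d := by
  rw [← act_Yf hk]; exact cc_act H hk hu _ _

/-- (iv) -/
lemma rr_in (hk : 0 < k) (hab : (a : ℝ) ^ 2 + (b : ℝ) ^ 2 ≠ 0) {d : ℕ} {u : P}
    (hu : u ∈ CC H (d + 1))
    (hl : H.lev u) : rr a b u ∈ CC H d ∧ ¬ H.lev (rr a b u) := by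
  obtain ⟨u', hu', hl', i, e, rfl⟩ := hu
  obtain ⟨h1, h2⟩ := rr_out H hab hu' hl'
  have hN : H.N (rr a b u') ≠ 1 := by
    rw [cc_N H hab _ _ h1]; exact c_pow_ne_one H d
  rcases two_level H hk (cc_sph H hab _ _ h1) hN h2 hl with ⟨rfl, h3⟩ | ⟨rfl, h3⟩
  · have e1 : act k i false (rr a b u') = rr a b u' := by
      rw [act_false, rot_of_dvd hk h3]
    rw [e1, rr_rr a b hab]
    exact ⟨hu', hl'⟩
  · have e1 : act k i true (rr a b u') = rr a b (Yf u') := by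
      rw [act_congr hk h3, act_Yf hk, Yf_rr]
    rw [e1, rr_rr a b hab]
    exact ⟨cc_Yf H hk hu', by rw [H.lev_Y]; exact hl'⟩

/-- (v) -/
lemma ex_level (hab : (a : ℝ) ^ 2 + (b : ℝ) ^ 2 ≠ 0) {d : ℕ} {u : P}
    (hu : u ∈ CC H d) : ∃ (i : ℤ) (e : Bool), H.lev (act k i e u) := by
  cases d with
  | zero =>
    obtain ⟨j, rfl⟩ := hu
    refine ⟨-j, false, ?_⟩
    rw [act_false, rot_neg_rot]
    have := (H.lev_ey 0).2 (dvd_zero _)
    rwa [rot_zero] at this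
  | succ d =>
    obtain ⟨u', hu', hl', j, f, rfl⟩ := hu
    refine ⟨if f then j else -j, f, ?_⟩
    rw [act_inv]
    exact (rr_out H hab hu' hl').2

lemma lev_ey' : H.lev ey := by
  have := (H.lev_ey 0).2 (dvd_zero _)
  rwa [rot_zero] at this

lemma ey_mem : ey ∈ CC H 0 := ⟨0, by rw [rot_zero]⟩

lemma cc_rr (hk : 0 < k) (hab : (a : ℝ) ^ 2 + (b : ℝ) ^ 2 ≠ 0) {d : ℕ} {u : P}
    (hu : u ∈ CC H d) : ∃ d', rr a b u ∈ CC H d' := by
  by_cases hl : H.lev u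
  · cases d with
    | zero =>
      rcases lev_zero H hk hu hl with rfl | rfl
      · exact ⟨0, by rw [rr_ey]; exact cc_neg H hk (ey_mem H)⟩
      · exact ⟨0, by rw [rr_neg, rr_ey, neg_neg]; exact ey_mem H⟩
    | succ d => exact ⟨d, (rr_in H hk hab hu hl).1⟩
  · exact ⟨d + 1, (rr_out H hab hu hl).1⟩

/-! ### linear algebra -/

/-- two planes which are not parallel meet the sphere in a finite set -/
lemma finite_inter (u v : P)
    (h : ¬ (u.1.im * v.2 - u.2 * v.1.im = 0 ∧ u.2 * v.1.re - u.1.re * v.2 = 0 ∧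
      u.1.re * v.1.im - u.1.im * v.1.re = 0)) :
    {x : P | x ∈ Sph ∧ ip x u = 0 ∧ ip x v = 0}.Finite := by
  obtain ⟨w1, hw1⟩ : ∃ w, w = u.1.im * v.2 - u.2 * v.1.im := ⟨_, rfl⟩
  obtain ⟨w2, hw2⟩ : ∃ w, w = u.2 * v.1.re - u.1.re * v.2 := ⟨_, rfl⟩
  obtain ⟨w3, hw3⟩ : ∃ w, w = u.1.re * v.1.im - u.1.im * v.1.re := ⟨_, rfl⟩
  rw [← hw1, ← hw2, ← hw3] at h
  have hn : 0 < w1 ^ 2 + w2 ^ 2 + w3 ^ 2 := by
    rcases not_and_or.1 h with h | h
    · positivity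
    · rcases not_and_or.1 h with h | h <;> positivity
  obtain ⟨n, hn'⟩ : ∃ n, n = w1 ^ 2 + w2 ^ 2 + w3 ^ 2 := ⟨_, rfl⟩
  rw [← hn'] at hn
  have hfin : ({(⟨⟨Real.sqrt n / n * w1, Real.sqrt n / n * w2⟩, Real.sqrt n / n * w3⟩ : P),
    (⟨⟨-Real.sqrt n / n * w1, -Real.sqrt n / n * w2⟩, -Real.sqrt n / n * w3⟩ : P)} : Set P).Finite := by
    simp
  refine hfin.subset ?_
  rintro ⟨⟨x1, x2⟩, x3⟩ ⟨hS, h1, h2⟩
  rw [mem_Sph_iff] at hS
  unfold ip at hS h1 h2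
  simp only at hS h1 h2
  have e12 : x1 * w2 = x2 * w1 := by
    rw [hw1, hw2]
    linear_combination u.2 * h2 - v.2 * h1
  have e13 : x1 * w3 = x3 * w1 := by
    rw [hw1, hw3]
    linear_combination -u.1.im * h2 + v.1.im * h1
  have e23 : x2 * w3 = x3 * w2 := by
    rw [hw2, hw3]
    linear_combination u.1.re * h2 - v.1.re * h1
  obtain ⟨t, ht⟩ : ∃ t, t = x1 * w1 + x2 * w2 + x3 * w3 := ⟨_, rfl⟩
  have f1 : x1 * n = t * w1 := by
    rw [hn', ht]; linear_combination w2 * e12 + w3 * e13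
  have f2 : x2 * n = t * w2 := by
    rw [hn', ht]; linear_combination -w1 * e12 + w3 * e23
  have f3 : x3 * n = t * w3 := by
    rw [hn', ht]; linear_combination -w1 * e13 - w2 * e23
  have ht2 : t ^ 2 = n := by
    have : t ^ 2 * n = n * n := by
      have : (x1 * n) ^ 2 + (x2 * n) ^ 2 + (x3 * n) ^ 2 = t ^ 2 * n := by
        rw [f1, f2, f3, hn']
        ring
      rw [← this]
      linear_combination n ^ 2 * hS
    exact mul_right_cancel₀ hn.ne' this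
  have ht3 : t = Real.sqrt n ∨ t = -Real.sqrt n := by
    rw [← ht2, Real.sqrt_sq_eq_abs]
    rcases abs_choice t with h | h <;> rw [h]
    · left; rfl
    · right; ring
  have key : (⟨⟨x1, x2⟩, x3⟩ : P) = ⟨⟨t / n * w1, t / n * w2⟩, t / n * w3⟩ := by
    have g1 : x1 = t / n * w1 := by field_simp; linarith
    have g2 : x2 = t / n * w2 := by field_simp; linarith
    have g3 : x3 = t / n * w3 := by field_simp; linarith
    rw [← g1, ← g2, ← g3]
  rw [key]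
  rcases ht3 with h | h
  · left; rw [h]
  · right; rw [h]; rfl

lemma not_par {u v : P} (hu : u ∈ Sph) (hv : v ∈ Sph) (h1 : v ≠ u) (h2 : v ≠ -u) :
    ¬ (u.1.im * v.2 - u.2 * v.1.im = 0 ∧ u.2 * v.1.re - u.1.re * v.2 = 0 ∧
      u.1.re * v.1.im - u.1.im * v.1.re = 0) := by
  rintro ⟨c1, c2, c3⟩
  obtain ⟨⟨u1, u2⟩, u3⟩ := u
  obtain ⟨⟨v1, v2⟩, v3⟩ := v
  rw [mem_Sph_iff] at hu hv
  unfold ip at hu hv
  simp only at hu hv c1 c2 c3
  obtain ⟨t, ht⟩ : ∃ t, t = u1 * v1 + u2 * v2 + u3 * v3 := ⟨_, rfl⟩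
  have ht2 : t ^ 2 = 1 := by
    have : t ^ 2 + (u2 * v3 - u3 * v2) ^ 2 + (u3 * v1 - u1 * v3) ^ 2 + (u1 * v2 - u2 * v1) ^ 2
        = (u1 * u1 + u2 * u2 + u3 * u3) * (v1 * v1 + v2 * v2 + v3 * v3) := by
      rw [ht]; ring
    rw [hu, hv, c1, c2, c3] at this
    linarith
  have ht3 : t = 1 ∨ t = -1 := by
    have : (t - 1) * (t + 1) = 0 := by linarith [ht2, show (t - 1) * (t + 1) = t ^ 2 - 1 by ring]
    rcases mul_eq_zero.1 this with h | h
    · left; linarith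
    · right; linarith
  rcases ht3 with h | h
  · apply h1
    have hz : (v1 - u1) ^ 2 + (v2 - u2) ^ 2 + (v3 - u3) ^ 2 = 0 := by
      have : (v1 - u1) ^ 2 + (v2 - u2) ^ 2 + (v3 - u3) ^ 2 =
        (u1 * u1 + u2 * u2 + u3 * u3) + (v1 * v1 + v2 * v2 + v3 * v3) - 2 * t := by rw [ht]; ring
      rw [this, hu, hv, h]; norm_num
    have z1 : v1 - u1 = 0 := by nlinarith [sq_nonneg (v1 - u1), sq_nonneg (v2 - u2), sq_nonneg (v3 - u3)]
    have z2 : v2 - u2 = 0 := by nlinarith [sq_nonneg (v1 - u1), sq_nonneg (v2 - u2), sq_nonneg (v3 - u3)]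
    have z3 : v3 - u3 = 0 := by nlinarith [sq_nonneg (v1 - u1), sq_nonneg (v2 - u2), sq_nonneg (v3 - u3)]
    rw [show v1 = u1 by linarith, show v2 = u2 by linarith, show v3 = u3 by linarith]
  · apply h2
    have hz : (v1 + u1) ^ 2 + (v2 + u2) ^ 2 + (v3 + u3) ^ 2 = 0 := by
      have : (v1 + u1) ^ 2 + (v2 + u2) ^ 2 + (v3 + u3) ^ 2 =
        (u1 * u1 + u2 * u2 + u3 * u3) + (v1 * v1 + v2 * v2 + v3 * v3) + 2 * t := by rw [ht]; ring
      rw [this, hu, hv, h]; norm_num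
    have z1 : v1 + u1 = 0 := by nlinarith [sq_nonneg (v1 + u1), sq_nonneg (v2 + u2), sq_nonneg (v3 + u3)]
    have z2 : v2 + u2 = 0 := by nlinarith [sq_nonneg (v1 + u1), sq_nonneg (v2 + u2), sq_nonneg (v3 + u3)]
    have z3 : v3 + u3 = 0 := by nlinarith [sq_nonneg (v1 + u1), sq_nonneg (v2 + u2), sq_nonneg (v3 + u3)]
    rw [show v1 = -u1 by linarith, show v2 = -u2 by linarith, show v3 = -u3 by linarith]
    rfl

/-! ### the sets -/

/-- the union of the circles, on the sphere -/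
def GCs : Set P := {x | x ∈ Sph ∧ ∃ d, ∃ u ∈ CC H d, ip x u = 0}

/-- the points which are exceptional for simple reasons -/
def F1s : Set P := {x | x ∈ GCs H ∧ ((∃ d d' u u', u ∈ CC H d ∧ u' ∈ CC H d' ∧ u' ≠ u ∧ u' ≠ -u ∧
  ip x u = 0 ∧ ip x u' = 0) ∨ x.2 = 0 ∨
  (ip x ey = 0 ∧ (a * x.1.re + b * x.2 = 0 ∨ b * x.1.re - a * x.2 = 0)))}

/-- generators of the group -/
noncomputable def gact (k a b : ℕ) : Option (ℤ × Bool) → P → P
  | none => rr a b
  | some p => act k p.1 p.2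

/-- words -/
noncomputable def wact (k a b : ℕ) : List (Option (ℤ × Bool)) → P → P
  | [] => id
  | g :: w => fun x => wact k a b w (gact k a b g x)

/-- inverse of generators -/
def ginv : Option (ℤ × Bool) → Option (ℤ × Bool)
  | none => none
  | some p => some (if p.2 then p.1 else -p.1, p.2)

lemma gact_ginv (hab : (a : ℝ) ^ 2 + (b : ℝ) ^ 2 ≠ 0) (g : Option (ℤ × Bool)) (x : P) :
    gact k a b (ginv g) (gact k a b g x) = x := by
  cases g with
  | none => exact rr_rr a b hab x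
  | some p => exact act_inv k p.1 p.2 x

lemma gact_inj (hab : (a : ℝ) ^ 2 + (b : ℝ) ^ 2 ≠ 0) (g : Option (ℤ × Bool)) :
    Function.Injective (gact k a b g) :=
  Function.LeftInverse.injective (gact_ginv hab g)

lemma wact_inj (hab : (a : ℝ) ^ 2 + (b : ℝ) ^ 2 ≠ 0) (w : List (Option (ℤ × Bool))) :
    Function.Injective (wact k a b w) := by
  induction w with
  | nil => exact fun _ _ h => h
  | cons g w ih => exact fun x y h => gact_inj hab g (ih h)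

/-- the exceptional set -/
def Qs : Set P := {x | ∃ w, wact k a b w x ∈ F1s H}

lemma F1_sub_Q {x : P} (h : x ∈ F1s H) : x ∈ Qs H := ⟨[], h⟩

lemma Q_gact (hab : (a : ℝ) ^ 2 + (b : ℝ) ^ 2 ≠ 0) {x : P} (h : x ∈ Qs H)
    (g : Option (ℤ × Bool)) : gact k a b g x ∈ Qs H := by
  obtain ⟨w, hw⟩ := h
  refine ⟨ginv g :: w, ?_⟩
  change wact k a b w (gact k a b (ginv g) (gact k a b g x)) ∈ F1s H
  rwa [gact_ginv hab]

lemma GC_act (hk : 0 < k) {x : P} (h : x ∈ GCs H) (i : ℤ) (e : Bool) : act k i e x ∈ GCs H := by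
  obtain ⟨h1, d, u, hu, h2⟩ := h
  exact ⟨act_mem_Sph h1, d, act k i e u, cc_act H hk hu i e, by rw [ip_act, h2]⟩

lemma GC_rr (hk : 0 < k) (hab : (a : ℝ) ^ 2 + (b : ℝ) ^ 2 ≠ 0) {x : P} (h : x ∈ GCs H) :
    rr a b x ∈ GCs H := by
  obtain ⟨h1, d, u, hu, h2⟩ := h
  obtain ⟨d', hd'⟩ := cc_rr H hk hab hu
  exact ⟨rr_mem_Sph hab h1, d', rr a b u, hd', by rw [ip_rr a b hab, h2]⟩

lemma GC_gact (hk : 0 < k) (hab : (a : ℝ) ^ 2 + (b : ℝ) ^ 2 ≠ 0) {x : P} (h : x ∈ GCs H)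
    (g : Option (ℤ × Bool)) : gact k a b g x ∈ GCs H := by
  cases g with
  | none => exact GC_rr H hk hab h
  | some p => exact GC_act H hk h p.1 p.2

lemma GC_gact' (hk : 0 < k) (hab : (a : ℝ) ^ 2 + (b : ℝ) ^ 2 ≠ 0) {x : P}
    (g : Option (ℤ × Bool)) (h : gact k a b g x ∈ GCs H) : x ∈ GCs H := by
  have := GC_gact H hk hab h (ginv g)
  rwa [gact_ginv hab] at this

lemma Q_sub_GC (hk : 0 < k) (hab : (a : ℝ) ^ 2 + (b : ℝ) ^ 2 ≠ 0) : Qs H ⊆ GCs H := by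
  rintro x ⟨w, hw⟩
  have : wact k a b w x ∈ GCs H := hw.1
  clear hw
  induction w generalizing x with
  | nil => exact this
  | cons g w ih => exact GC_gact' H hk hab g (ih this)

lemma meas_Sph : MeasurableSet Sph := by
  have : IsClosed Sph := by
    unfold Sph
    exact isClosed_eq (by fun_prop) continuous_const
  exact this.measurableSet

lemma cont_ip (u : P) : Continuous (fun x : P => ip x u) := by
  unfold ip
  fun_prop

lemma meas_perp (u : P) : MeasurableSet {x : P | ip x u = 0} :=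
  (isClosed_eq (cont_ip u) continuous_const).measurableSet

lemma meas_GC : MeasurableSet (GCs H) := by
  have : GCs H = Sph ∩ ⋃ d, ⋃ u ∈ CC H d, {x : P | ip x u = 0} := by
    ext x
    simp only [GCs, Set.mem_ofPred_eq, Set.mem_inter_iff, Set.mem_iUnion, exists_prop]
  rw [this]
  exact meas_Sph.inter (MeasurableSet.iUnion fun d =>
    MeasurableSet.biUnion (cc_countable H d) fun u _ => meas_perp u)

lemma fst_ne (hk : 3 ≤ k) (hab : (a : ℝ) ^ 2 + (b : ℝ) ^ 2 ≠ 0) {d : ℕ} {u : P}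
    (hu : u ∈ CC H d) : u.1 ≠ 0 := by
  intro h0
  have hk0 : 0 < k := by omega
  have hN : H.N u = 1 := by
    have hnf : ¬ Free k u := by
      intro hf
      have := (hf 1 false (by
        rw [act_false]; unfold rot; rw [h0, mul_zero, ← h0])).2
      have := Int.le_of_dvd one_pos this
      omega
    exact (H.nonfree u (cc_sph H hab d u hu) hnf).1
  cases d with
  | zero =>
    obtain ⟨i, rfl⟩ := hu
    rw [rot_fst] at h0
    rcases mul_eq_zero.1 h0 with h | h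
    · exact zpow_ne_zero i (om_ne_zero k) h
    · exact Complex.I_ne_zero h
  | succ d =>
    rw [cc_N H hab _ _ hu] at hN
    exact c_pow_ne_one H d hN

lemma F1_countable (hk : 3 ≤ k) (hab : (a : ℝ) ^ 2 + (b : ℝ) ^ 2 ≠ 0) : (F1s H).Countable := by
  have hk0 : 0 < k := by omega
  obtain ⟨U, hU⟩ : ∃ U, U = ⋃ d, CC H d := ⟨_, rfl⟩
  have hUc : U.Countable := by rw [hU]; exact Set.countable_iUnion (cc_countable H)
  have hUm : ∀ u, u ∈ U ↔ ∃ d, u ∈ CC H d := by intro u; rw [hU]; simp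
  -- the four parts
  have c1 : (⋃ u ∈ U, ⋃ u' ∈ U, {x : P | u' ≠ u ∧ u' ≠ -u ∧ x ∈ Sph ∧ ip x u = 0 ∧ ip x u' = 0}).Countable := by
    refine hUc.biUnion fun u hu => hUc.biUnion fun u' hu' => ?_
    by_cases h1 : u' = u
    · have : {x : P | u' ≠ u ∧ u' ≠ -u ∧ x ∈ Sph ∧ ip x u = 0 ∧ ip x u' = 0} = ∅ := by
        ext x; simp [h1]
      rw [this]; exact Set.countable_empty
    · by_cases h2 : u' = -u
      · have : {x : P | u' ≠ u ∧ u' ≠ -u ∧ x ∈ Sph ∧ ip x u = 0 ∧ ip x u' = 0} = ∅ := by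
          ext x; simp [h2]
        rw [this]; exact Set.countable_empty
      · obtain ⟨d, hd⟩ := (hUm u).1 hu
        obtain ⟨d', hd'⟩ := (hUm u').1 hu'
        refine (finite_inter u u' (not_par (cc_sph H hab d u hd) (cc_sph H hab d' u' hd') h1 h2)).countable.mono ?_
        rintro x ⟨-, -, h⟩; exact h
  have c2 : (⋃ u ∈ U, {x : P | x ∈ Sph ∧ ip x u = 0 ∧ ip x ((0 : ℂ), (1 : ℝ)) = 0}).Countable := by
    refine hUc.biUnion fun u hu => (finite_inter u _ ?_).countable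
    obtain ⟨d, hd⟩ := (hUm u).1 hu
    have := fst_ne H hk hab hd
    rintro ⟨h1, h2, -⟩
    apply this
    simp at h1 h2
    apply Complex.ext
    · simpa using h2
    · simpa using h1
  have c3 : {x : P | x ∈ Sph ∧ ip x ey = 0 ∧ ip x ((⟨a, 0⟩ : ℂ), (b : ℝ)) = 0}.Countable := by
    refine (finite_inter _ _ ?_).countable
    rintro ⟨h1, -, h3⟩
    simp [ey] at h1 h3
    apply hab; rw [h1, h3]; simp
  have c4 : {x : P | x ∈ Sph ∧ ip x ey = 0 ∧ ip x ((⟨b, 0⟩ : ℂ), (-a : ℝ)) = 0}.Countable := by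
    refine (finite_inter _ _ ?_).countable
    rintro ⟨h1, -, h3⟩
    simp [ey] at h1 h3
    apply hab; rw [h1, h3]; simp
  refine (((c1.union c2).union c3).union c4).mono ?_
  rintro x ⟨⟨hS, d0, u0, hu0, hx0⟩, h⟩
  rcases h with ⟨d, d', u, u', hu, hu', n1, n2, e1, e2⟩ | h | ⟨h1, h | h⟩
  · refine Or.inl (Or.inl (Or.inl ?_))
    simp only [Set.mem_iUnion]
    exact ⟨u, (hUm u).2 ⟨d, hu⟩, u', (hUm u').2 ⟨d', hu'⟩, n1, n2, hS, e1, e2⟩
  · refine Or.inl (Or.inl (Or.inr ?_))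
    simp only [Set.mem_iUnion]
    exact ⟨u0, (hUm u0).2 ⟨d0, hu0⟩, hS, hx0, by simp [ip, h]⟩
  · refine Or.inl (Or.inr ⟨hS, h1, ?_⟩)
    unfold ip; simp only; linarith
  · refine Or.inr ⟨hS, h1, ?_⟩
    unfold ip; simp only; linarith

lemma Q_countable (hk : 3 ≤ k) (hab : (a : ℝ) ^ 2 + (b : ℝ) ^ 2 ≠ 0) : (Qs H).Countable := by
  have : Qs H = ⋃ w, (wact k a b w) ⁻¹' (F1s H) := by
    ext x; simp [Qs]
  rw [this]
  refine Set.countable_iUnion fun w => ?_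
  exact (F1_countable H hk hab).preimage_of_injOn ((wact_inj hab w).injOn)

/-! ### generic points -/

/-- generic points of the circles -/
def Gen : Set P := {x | x ∈ GCs H ∧ x ∉ Qs H}

lemma Gen_sph {x : P} (h : x ∈ Gen H) : x ∈ Sph := h.1.1

lemma Gen_uniq {x : P} (h : x ∈ Gen H) {d d' : ℕ} {u u' : P} (hu : u ∈ CC H d)
    (hu' : u' ∈ CC H d') (h1 : ip x u = 0) (h2 : ip x u' = 0) : u' = u ∨ u' = -u := by
  by_contra hc
  rw [not_or] at hc
  exact h.2 (F1_sub_Q H ⟨h.1, Or.inl ⟨d, d', u, u', hu, hu', hc.1, hc.2, h1, h2⟩⟩)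

lemma Gen_z {x : P} (h : x ∈ Gen H) : x.2 ≠ 0 := fun h0 =>
  h.2 (F1_sub_Q H ⟨h.1, Or.inr (Or.inl h0)⟩)

lemma Gen_gact (hk : 0 < k) (hab : (a : ℝ) ^ 2 + (b : ℝ) ^ 2 ≠ 0) {x : P} (h : x ∈ Gen H)
    (g : Option (ℤ × Bool)) : gact k a b g x ∈ Gen H := by
  refine ⟨GC_gact H hk hab h.1 g, fun hq => h.2 ?_⟩
  have := Q_gact H hab hq (ginv g)
  rwa [gact_ginv hab] at this

lemma Gen_act (hk : 0 < k) (hab : (a : ℝ) ^ 2 + (b : ℝ) ^ 2 ≠ 0) {x : P} (h : x ∈ Gen H)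
    (i : ℤ) (e : Bool) : act k i e x ∈ Gen H := Gen_gact H hk hab h (some (i, e))

lemma Gen_rr (hk : 0 < k) (hab : (a : ℝ) ^ 2 + (b : ℝ) ^ 2 ≠ 0) {x : P} (h : x ∈ Gen H) :
    rr a b x ∈ Gen H := Gen_gact H hk hab h none

lemma Gen_Yf (hk : 0 < k) (hab : (a : ℝ) ^ 2 + (b : ℝ) ^ 2 ≠ 0) {x : P} (h : x ∈ Gen H) :
    Yf x ∈ Gen H := by
  rw [← act_Yf hk]; exact Gen_act H hk hab h _ _

lemma meas_Gen (hk : 3 ≤ k) (hab : (a : ℝ) ^ 2 + (b : ℝ) ^ 2 ≠ 0) : MeasurableSet (Gen H) := by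
  have : Gen H = GCs H \ Qs H := rfl
  rw [this]
  exact (meas_GC H).diff (Q_countable H hk hab).measurableSet

/-- level `d` -/
def Xs (d : ℕ) : Set P := {x | x ∈ Gen H ∧ ∃ u ∈ CC H d, ip x u = 0}

/-- inner points -/
def Is (d : ℕ) : Set P := {x | x ∈ Gen H ∧ ∃ u ∈ CC H d, H.lev u ∧ ip x u = 0}

lemma mem_I0 (hk : 0 < k) {x : P} : x ∈ Is H 0 ↔ x ∈ Gen H ∧ ip x ey = 0 := by
  constructor
  · rintro ⟨h1, u, hu, hl, h2⟩
    refine ⟨h1, ?_⟩
    rcases lev_zero H hk hu hl with rfl | rfl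
    · exact h2
    · rw [ip_neg_right] at h2; linarith
  · rintro ⟨h1, h2⟩
    exact ⟨h1, ey, ey_mem H, lev_ey' H, h2⟩

/-- the points of type 1 -/
def Ws (a b : ℕ) {k : ℕ} (H : Height k a b) : Set P :=
  {x | x ∈ Is H 0 ∧ 0 < (a * x.1.re + b * x.2) * (b * x.1.re - a * x.2)}

lemma meas_X (hk : 3 ≤ k) (hab : (a : ℝ) ^ 2 + (b : ℝ) ^ 2 ≠ 0) (d : ℕ) :
    MeasurableSet (Xs H d) := by
  have : Xs H d = Gen H ∩ ⋃ u ∈ CC H d, {x : P | ip x u = 0} := by
    ext x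
    simp only [Xs, Set.mem_ofPred_eq, Set.mem_inter_iff, Set.mem_iUnion, exists_prop]
  rw [this]
  exact (meas_Gen H hk hab).inter
    (MeasurableSet.biUnion (cc_countable H d) fun u _ => meas_perp u)

lemma meas_I (hk : 3 ≤ k) (hab : (a : ℝ) ^ 2 + (b : ℝ) ^ 2 ≠ 0) (d : ℕ) :
    MeasurableSet (Is H d) := by
  have : Is H d = Gen H ∩ ⋃ u ∈ {u | u ∈ CC H d ∧ H.lev u}, {x : P | ip x u = 0} := by
    ext x
    simp only [Is, Set.mem_ofPred_eq, Set.mem_inter_iff, Set.mem_iUnion, exists_prop, and_assoc]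
  rw [this]
  exact (meas_Gen H hk hab).inter
    (MeasurableSet.biUnion ((cc_countable H d).mono fun u h => h.1) fun u _ => meas_perp u)

lemma meas_W (hk : 3 ≤ k) (hab : (a : ℝ) ^ 2 + (b : ℝ) ^ 2 ≠ 0) :
    MeasurableSet (Ws a b H) := by
  have : Ws a b H = Is H 0 ∩ {x : P | 0 < (a * x.1.re + b * x.2) * (b * x.1.re - a * x.2)} := rfl
  rw [this]
  exact (meas_I H hk hab 0).inter
    (isOpen_lt continuous_const (by fun_prop)).measurableSet

lemma X_free (hk : 3 ≤ k) {x : P} (h : x ∈ Gen H) : Free k x := by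
  have hk0 : 0 < k := by omega
  intro i e hx
  cases e
  · refine ⟨rfl, ?_⟩
    rw [act_false] at hx
    have h1 := congrArg Prod.fst hx
    rw [rot_fst] at h1
    by_cases hz : x.1 = 0
    · exfalso
      have i1 : ip x ey = 0 := by simp [ip, ey, hz]
      have i2 : ip x (rot k 1 ey) = 0 := by simp [ip, ey, hz]
      rcases Gen_uniq H h (ey_mem H) ((mem_CC_zero H).2 ⟨1, rfl⟩) i1 i2 with h3 | h3
      · have h4 := congrArg Prod.fst h3
        rw [rot_fst] at h4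
        have h5 : om k ^ (1 : ℤ) = 1 := by
          have : om k ^ (1 : ℤ) * Complex.I = 1 * Complex.I := by
            rw [one_mul]; exact h4
          exact mul_right_cancel₀ Complex.I_ne_zero this
        have := Int.le_of_dvd one_pos ((om_zpow_eq_one_iff hk0 1).1 h5)
        omega
      · have h4 := congrArg Prod.fst h3
        rw [rot_fst] at h4
        have h5 : om k ^ (1 : ℤ) = -1 := by
          have : om k ^ (1 : ℤ) * Complex.I = (-1) * Complex.I := by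
            rw [neg_one_mul]; exact h4
          exact mul_right_cancel₀ Complex.I_ne_zero this
        have h6 : om k ^ (2 : ℤ) = 1 := by
          rw [show (2 : ℤ) = 1 * 2 by norm_num, zpow_mul, h5]; norm_num
        have := Int.le_of_dvd two_pos ((om_zpow_eq_one_iff hk0 2).1 h6)
        omega
    · apply (om_zpow_eq_one_iff hk0 i).1
      have : om k ^ i * x.1 = 1 * x.1 := by rw [h1, one_mul]
      exact mul_right_cancel₀ hz this
  · exfalso
    have h1 := congrArg Prod.snd hx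
    rw [act_true, rot_snd, flp_snd] at h1
    exact Gen_z H h (by linarith)

/-- the structure -/
noncomputable def circles (hk : 3 ≤ k) (hab : (a : ℝ) ^ 2 + (b : ℝ) ^ 2 ≠ 0) : Circles k a b where
  X := Xs H
  I := Is H
  W := Ws a b H
  X_meas := meas_X H hk hab
  I_meas := meas_I H hk hab
  W_meas := meas_W H hk hab
  I_sub := by rintro d x ⟨h, u, hu, -, h2⟩; exact ⟨h, u, hu, h2⟩
  X_disj := by
    rintro d d' x ⟨h, u, hu, h1⟩ ⟨-, u', hu', h2⟩
    have hk0 : 0 < k := by omega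
    rcases Gen_uniq H h hu hu' h1 h2 with rfl | rfl
    · exact cc_disj H hab hu hu'
    · exact cc_disj H hab (cc_neg H hk0 hu) hu'
  X_act := by
    rintro d x ⟨h, u, hu, h1⟩ i e
    have hk0 : 0 < k := by omega
    exact ⟨Gen_act H hk0 hab h i e, act k i e u, cc_act H hk0 hu i e, by rw [ip_act, h1]⟩
  I_Y := by
    rintro d x ⟨h, u, hu, hl, h1⟩
    have hk0 : 0 < k := by omega
    exact ⟨Gen_Yf H hk0 hab h, Yf u, cc_Yf H hk0 hu, (H.lev_Y u).2 hl, by rw [ip_Yf, h1]⟩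
  I_Z := by
    intro x hx
    have hk0 : 0 < k := by omega
    rw [mem_I0 H hk0] at hx ⊢
    refine ⟨by rw [← act_false]; exact Gen_act H hk0 hab hx.1 _ _, ?_⟩
    have := ip_rot k k x ey
    rw [rot_k_ey hk0, ip_neg_right, hx.2] at this
    linarith
  free := by rintro d x ⟨h, -⟩; exact X_free H hk h
  z_ne := by rintro d x ⟨h, -⟩; exact Gen_z H h
  r_out := by
    rintro d x ⟨h, u, hu, h1⟩ h2
    have hk0 : 0 < k := by omega
    have hl : ¬ H.lev u := fun hl => h2 ⟨h, u, hu, hl, h1⟩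
    obtain ⟨h3, h4⟩ := rr_out H hab hu hl
    exact ⟨Gen_rr H hk0 hab h, rr a b u, h3, h4, by rw [ip_rr a b hab, h1]⟩
  r_in := by
    rintro d x ⟨h, u, hu, hl, h1⟩
    have hk0 : 0 < k := by omega
    obtain ⟨h3, h4⟩ := rr_in H hk0 hab hu hl
    have h5 : ip (rr a b x) (rr a b u) = 0 := by rw [ip_rr a b hab, h1]
    refine ⟨⟨Gen_rr H hk0 hab h, rr a b u, h3, h5⟩, ?_⟩
    rintro ⟨h6, u', hu', hl', h7⟩
    rcases Gen_uniq H h6 h3 hu' h5 h7 with rfl | rfl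
    · exact h4 hl'
    · rw [H.lev_neg] at hl'; exact h4 hl'
  r_zero := by
    intro x hx
    have hk0 : 0 < k := by omega
    rw [mem_I0 H hk0] at hx ⊢
    refine ⟨Gen_rr H hk0 hab hx.1, ?_⟩
    have := ip_rr a b hab x ey
    rw [rr_ey, ip_neg_right, hx.2] at this
    linarith
  ex_I := by
    rintro d x ⟨h, u, hu, h1⟩
    have hk0 : 0 < k := by omega
    obtain ⟨i, e, hl⟩ := ex_level H hab hu
    exact ⟨i, e, Gen_act H hk0 hab h i e, act k i e u, cc_act H hk0 hu i e, hl, by rw [ip_act, h1]⟩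
  uniq := by
    rintro d x ⟨h, u, hu, hl, h1⟩ i e ⟨h', u', hu', hl', h1'⟩
    have hk0 : 0 < k := by omega
    have h2 : ip (act k i e x) (act k i e u) = 0 := by rw [ip_act, h1]
    have hl2 : H.lev (act k i e u) := by
      rcases Gen_uniq H h' (cc_act H hk0 hu i e) hu' h2 h1' with rfl | rfl
      · exact hl'
      · rwa [H.lev_neg] at hl'
    refine two_level H hk0 (cc_sph H hab _ _ hu) ?_ hl hl2
    rw [cc_N H hab _ _ hu]; exact c_pow_ne_one H d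
  uniq_zero := by
    intro x hx i e hx'
    have hk0 : 0 < k := by omega
    rw [mem_I0 H hk0] at hx hx'
    have h2 : ip (act k i e x) (act k i e ey) = 0 := by rw [ip_act, hx.2]
    have hl2 : H.lev (act k i e ey) := by
      rcases Gen_uniq H hx'.1 (ey_mem H) (cc_act H hk0 (ey_mem H) i e) hx'.2 h2 with h3 | h3
      · rw [h3]; exact lev_ey' H
      · rw [h3, H.lev_neg]; exact lev_ey' H
    cases e
    · left; exact ⟨rfl, (H.lev_ey i).1 hl2⟩
    · right; refine ⟨rfl, ?_⟩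
      have e1 : act k i true ey = rot k (i + (1 - k)) ey := by
        rw [act_true, flp_eq_rot_Yf hk0, Yf_ey, rot_rot]
      rw [e1, H.lev_ey] at hl2
      have e2 : i + 1 = (i + (1 - k)) + k := by ring
      rw [e2]; exact dvd_add hl2 dvd_rfl
  W_sub := fun x h => h.1
  W_Y := by
    rintro x ⟨h1, h2⟩
    have hk0 : 0 < k := by omega
    have h3 := (mem_I0 H hk0).1 h1
    refine ⟨(mem_I0 H hk0).2 ⟨Gen_Yf H hk0 hab h3.1, ?_⟩, ?_⟩
    · have := ip_Yf x ey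
      rwa [Yf_ey, h3.2] at this
    · simp only [Yf_fst, Yf_snd, Complex.neg_re, Complex.conj_re]
      nlinarith
  W_r := by
    intro x hx
    have hk0 : 0 < k := by omega
    have hx1 := (mem_I0 H hk0).1 hx
    have hrx : rr a b x ∈ Is H 0 := by
      refine (mem_I0 H hk0).2 ⟨Gen_rr H hk0 hab hx1.1, ?_⟩
      have := ip_rr a b hab x ey
      rw [rr_ey, ip_neg_right, hx1.2] at this
      linarith
    have n1 : a * x.1.re + b * x.2 ≠ 0 := fun h0 =>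
      hx1.1.2 (F1_sub_Q H ⟨hx1.1.1, Or.inr (Or.inr ⟨hx1.2, Or.inl h0⟩)⟩)
    have n2 : b * x.1.re - a * x.2 ≠ 0 := fun h0 =>
      hx1.1.2 (F1_sub_Q H ⟨hx1.1.1, Or.inr (Or.inr ⟨hx1.2, Or.inr h0⟩)⟩)
    have v1 : a * (rr a b x).1.re + b * (rr a b x).2 = a * x.1.re + b * x.2 := vdot_rr a b hab x
    have v2 : b * (rr a b x).1.re - a * (rr a b x).2 = -(b * x.1.re - a * x.2) := by
      rw [rr_fst, rr_snd, Complex.sub_re, Complex.ofReal_re]
      ring
    have v3 : (a * (rr a b x).1.re + b * (rr a b x).2) * (b * (rr a b x).1.re - a * (rr a b x).2)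
        = -((a * x.1.re + b * x.2) * (b * x.1.re - a * x.2)) := by rw [v1, v2]; ring
    have n3 : (a * x.1.re + b * x.2) * (b * x.1.re - a * x.2) ≠ 0 := mul_ne_zero n1 n2
    constructor
    · rintro ⟨-, h1⟩ ⟨-, h2⟩
      rw [v3] at h1
      linarith
    · intro h
      refine ⟨hrx, ?_⟩
      rw [v3]
      have : ¬ 0 < (a * x.1.re + b * x.2) * (b * x.1.re - a * x.2) := fun h' => h ⟨hx, h'⟩
      rcases lt_or_gt_of_ne n3 with h' | h'
      · linarith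
      · exact absurd h' this

end BX1Aux

open BX1Aux in
theorem exists_circles (k a b : ℕ) (hk : 3 ≤ k) (ha : 0 < a) (hb : 0 < b) (H : Height k a b) :
    ∃ (GC Q : Set P) (C : Circles k a b), Q ⊆ GC ∧ GC ⊆ Sph ∧ MeasurableSet GC ∧ Q.Countable ∧
      (∀ x ∈ GC, ∀ (i : ℤ) (e : Bool), act k i e x ∈ GC) ∧ (∀ x ∈ GC, rr a b x ∈ GC) ∧
      (∀ x ∈ Q, ∀ (i : ℤ) (e : Bool), act k i e x ∈ Q) ∧ (∀ x ∈ Q, rr a b x ∈ Q) ∧
      (∀ x ∈ Sph, x ∉ GC → ∀ i : ℤ, (rot k i x).1.im ≠ 0) ∧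
      (∀ x ∈ GC, x ∉ Q → ∃ d, x ∈ C.X d) := by
  have hk0 : 0 < k := by omega
  have hab : (a : ℝ) ^ 2 + (b : ℝ) ^ 2 ≠ 0 := by positivity
  refine ⟨GCs H, Qs H, circles H hk hab, Q_sub_GC H hk0 hab, fun x h => h.1, meas_GC H,
    Q_countable H hk hab, fun x h i e => GC_act H hk0 h i e, fun x h => GC_rr H hk0 hab h,
    fun x h i e => Q_gact H hab h (some (i, e)), fun x h => Q_gact H hab h none, ?_, ?_⟩
  swap
  · intro x hx hx'
    obtain ⟨d, u, hu, h2⟩ := hx.2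
    exact ⟨d, ⟨hx, hx'⟩, u, hu, h2⟩
  intro x hx hx' i h0
  apply hx'
  refine ⟨hx, 0, rot k (-i) ey, ⟨-i, rfl⟩, ?_⟩
  have h1 : ip (rot k i x) (rot k i (rot k (-i) ey)) = ip x (rot k (-i) ey) := ip_rot k i _ _
  rw [rot_rot_neg] at h1
  rw [← h1]
  unfold ip ey
  rw [h0]; simp

end Pool.Agent.Lib.MP_f406e2_lc
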