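import Pool.Agent.Lib.MP_f406e2_lc.BDefs

/-! The Borel construction on the generic points of the great circles. -/

open Complex ComplexConjugate

namespace Pool.Agent.Lib.MP_f406e2_lc

/-- the seeds: points of positive height which are of type one, or (for positive level) whose
half turn about the `z` axis is -/
def MM (k d : ℕ) (V : Set P) : Set P :=
  {q | 0 < q.2 ∧ (q ∈ V ∨ (d ≠ 0 ∧ rot k k q ∈ V))}

/-- the seeds and their flips -/
def AA (k d : ℕ) (V : Set P) : Set P := {q | q ∈ MM k d V ∨ flp k q ∈ MM k d V}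

/-- the union of the first `k` rotated copies -/
def UU (k d : ℕ) (V : Set P) : Set P := {q | ∃ i : ℕ, i < k ∧ rot k (-(i : ℤ)) q ∈ AA k d V}

/-- the inner points of type one of each level -/
def VV (k a b : ℕ) (X I : ℕ → Set P) (W : Set P) : ℕ → Set P
  | 0 => W
  | (d + 1) => {x | rr a b x ∈ X d ∧ rr a b x ∉ I d ∧ rr a b x ∉ UU k d (VV k a b X I W d)}

/-! ### measurability -/

lemma continuous_rot (k : ℕ) (i : ℤ) : Continuous (rot k i) := by
  unfold rot; fun_prop

lemma continuous_flp (k : ℕ) : Continuous (flp k) := by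
  unfold flp; fun_prop

lemma continuous_rr (a b : ℕ) : Continuous (rr a b) := by
  unfold rr vdot; fun_prop

lemma measurable_MM {k d : ℕ} {V : Set P} (hV : MeasurableSet V) : MeasurableSet (MM k d V) := by
  have h1 : MeasurableSet {q : P | 0 < q.2} := measurableSet_lt measurable_const measurable_snd
  have h2 : MeasurableSet ((rot k k) ⁻¹' V) := (continuous_rot k k).measurable hV
  by_cases hd : d = 0
  · have : MM k d V = {q : P | 0 < q.2} ∩ V := by
      ext q; simp [MM, hd]
    rw [this]; exact h1.inter hV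
  · have : MM k d V = {q : P | 0 < q.2} ∩ (V ∪ (rot k k) ⁻¹' V) := by
      ext q; simp [MM, hd]
    rw [this]; exact h1.inter (hV.union h2)

lemma measurable_AA {k d : ℕ} {V : Set P} (hV : MeasurableSet V) : MeasurableSet (AA k d V) := by
  have : AA k d V = MM k d V ∪ (flp k) ⁻¹' (MM k d V) := rfl
  rw [this]
  exact (measurable_MM hV).union ((continuous_flp k).measurable (measurable_MM hV))

lemma measurable_UU {k d : ℕ} {V : Set P} (hV : MeasurableSet V) : MeasurableSet (UU k d V) := by
  have : UU k d V = ⋃ i : ℕ, ⋃ (_ : i < k), (rot k (-(i : ℤ))) ⁻¹' (AA k d V) := by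
    ext q; simp [UU]
  rw [this]
  exact MeasurableSet.iUnion fun i => MeasurableSet.iUnion fun _ =>
    (continuous_rot k _).measurable (measurable_AA hV)

lemma measurable_VV {k a b : ℕ} (C : Circles k a b) (d : ℕ) :
    MeasurableSet (VV k a b C.X C.I C.W d) := by
  induction d with
  | zero => exact C.W_meas
  | succ d ih =>
    have : VV k a b C.X C.I C.W (d + 1) = (rr a b) ⁻¹'
        ((C.X d \ C.I d) \ UU k d (VV k a b C.X C.I C.W d)) := by
      ext x; simp [VV, and_assoc]
    rw [this]
    exact (continuous_rr a b).measurable (((C.X_meas d).diff (C.I_meas d)).diff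
      (measurable_UU ih))

/-! ### elementary properties -/

lemma rot_k_rot_k {k : ℕ} (hk : 0 < k) (q : P) : rot k k (rot k k q) = q := by
  rw [rot_rot]; exact rot_of_dvd hk ⟨1, by ring⟩ q

lemma AA_flp {k d : ℕ} {V : Set P} {q : P} : flp k q ∈ AA k d V ↔ q ∈ AA k d V := by
  unfold AA
  simp only [Set.mem_ofPred_eq, flp_flp]
  exact or_comm

lemma UU_Y_aux {k d : ℕ} (hk : 0 < k) {V : Set P} {q : P} (h : q ∈ UU k d V) :
    Yf q ∈ UU k d V := by
  obtain ⟨i, hi, h1⟩ := h
  refine ⟨k - 1 - i, by omega, ?_⟩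
  have e : -(((k - 1 - i : ℕ)) : ℤ) + ((k : ℤ) - 1) = - (-(i : ℤ)) := by
    have : ((k - 1 - i : ℕ) : ℤ) = k - 1 - i := by omega
    rw [this]; ring
  rw [Yf_eq hk, rot_rot, e, ← flp_rot, AA_flp]
  exact h1

lemma UU_Y {k d : ℕ} (hk : 0 < k) {V : Set P} {q : P} : Yf q ∈ UU k d V ↔ q ∈ UU k d V :=
  ⟨fun h => by have := UU_Y_aux hk h; rwa [Yf_Yf] at this, UU_Y_aux hk⟩

section
variable {k a b : ℕ} (hk : 0 < k) (hab : (a : ℝ) ^ 2 + (b : ℝ) ^ 2 ≠ 0) (C : Circles k a b)
include hk hab

lemma VV_sub (d : ℕ) {x : P} (h : x ∈ VV k a b C.X C.I C.W d) : x ∈ C.I d := by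
  cases d with
  | zero => exact C.W_sub h
  | succ d =>
    obtain ⟨h1, h2, -⟩ := h
    have := C.r_out d _ h1 h2
    rwa [rr_rr a b hab] at this

lemma VV_Y (d : ℕ) {x : P} (h : x ∈ VV k a b C.X C.I C.W d) :
    Yf x ∈ VV k a b C.X C.I C.W d := by
  cases d with
  | zero => exact C.W_Y x h
  | succ d =>
    obtain ⟨h1, h2, h3⟩ := h
    refine ⟨?_, ?_, ?_⟩
    · rw [← Yf_rr, Yf_eq hk]; exact C.X_act d _ h1 (k - 1) true
    · rw [← Yf_rr]
      intro h4
      have := C.I_Y d _ h4
      rw [Yf_Yf] at this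
      exact h2 this
    · rw [← Yf_rr, UU_Y hk]; exact h3

lemma VV_Y_iff (d : ℕ) {x : P} : Yf x ∈ VV k a b C.X C.I C.W d ↔ x ∈ VV k a b C.X C.I C.W d :=
  ⟨fun h => by have := VV_Y hk hab C d h; rwa [Yf_Yf] at this, VV_Y hk hab C d⟩

lemma MM_sub (d : ℕ) {x : P} (h : x ∈ MM k d (VV k a b C.X C.I C.W d)) : x ∈ C.X d := by
  obtain ⟨-, h1 | ⟨-, h1⟩⟩ := h
  · exact C.I_sub d (VV_sub hk hab C d h1)
  · have := C.X_act d _ (C.I_sub d (VV_sub hk hab C d h1)) k false
    rwa [act_false, rot_k_rot_k hk] at this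

lemma AA_sub (d : ℕ) {x : P} (h : x ∈ AA k d (VV k a b C.X C.I C.W d)) : x ∈ C.X d := by
  rcases h with h | h
  · exact MM_sub hk hab C d h
  · have := C.X_act d _ (MM_sub hk hab C d h) 0 true
    rwa [act_true, rot_zero, flp_flp] at this

/-- seeds in one orbit differ at most by the half turn about the `z` axis -/
lemma seed (d : ℕ) {q : P} (h : q ∈ MM k d (VV k a b C.X C.I C.W d)) {i : ℤ} {e : Bool}
    (h' : act k i e q ∈ MM k d (VV k a b C.X C.I C.W d)) : e = false ∧ (k : ℤ) ∣ i := by
  have he : e = false := by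
    cases e
    · rfl
    · exfalso
      have h1 := h.1
      have h2 := h'.1
      simp only [act_true, rot_snd, flp_snd] at h2
      linarith
  subst he
  refine ⟨rfl, ?_⟩
  -- points of `V` in the orbit
  obtain ⟨x, m, hx, hqx⟩ : ∃ (x : P) (m : ℤ), x ∈ VV k a b C.X C.I C.W d ∧
      x = rot k (k * m) q := by
    rcases h.2 with h1 | ⟨-, h1⟩
    · exact ⟨q, 0, h1, by simp⟩
    · exact ⟨_, 1, h1, by simp⟩
  obtain ⟨y, m', hy, hqy⟩ : ∃ (y : P) (m' : ℤ), y ∈ VV k a b C.X C.I C.W d ∧
      y = rot k (k * m' + i) q := by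
    rcases h'.2 with h1 | ⟨-, h1⟩
    · exact ⟨_, 0, h1, by simp [act_false]⟩
    · exact ⟨_, 1, h1, by simp [act_false, rot_rot]⟩
  have hyx : y = act k (k * m' + i - k * m) false x := by
    rw [act_false, hqx, rot_rot, hqy]; ring_nf
  have hx' := VV_sub hk hab C d hx
  have hy' := VV_sub hk hab C d hy
  rw [hyx] at hy'
  have key : (k : ℤ) ∣ k * m' + i - k * m := by
    cases d with
    | zero =>
      rcases C.uniq_zero x hx' _ _ hy' with ⟨-, h1⟩ | ⟨h1, -⟩
      · exact h1
      · exact absurd h1 (by simp)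
    | succ d =>
      rcases C.uniq d x hx' _ _ hy' with ⟨-, h1⟩ | ⟨h1, -⟩
      · exact dvd_trans ⟨2, by ring⟩ h1
      · exact absurd h1 (by simp)
  have e : i = (k * m' + i - k * m) + k * (m - m') := by ring
  rw [e]
  exact dvd_add key ⟨_, rfl⟩

/-- the vertex lemma -/
lemma vertex (hk3 : 3 ≤ k) (d : ℕ) {x : P} (hx : x ∈ C.X d) :
    (x ∈ UU k d (VV k a b C.X C.I C.W d) →
      FA k (AA k d (VV k a b C.X C.I C.W d)) x = 1 ∧
      FB k (AA k d (VV k a b C.X C.I C.W d)) x = 1) ∧
    (x ∉ UU k d (VV k a b C.X C.I C.W d) →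
      FA k (AA k d (VV k a b C.X C.I C.W d)) x = 0 ∧
      FB k (AA k d (VV k a b C.X C.I C.W d)) x = 0) := by
  set V := VV k a b C.X C.I C.W d with hV
  by_cases hex : ∃ (i : ℤ) (e : Bool), act k i e x ∈ MM k d V
  · obtain ⟨i0, e0, hq⟩ := hex
    obtain ⟨q, hq', hqx⟩ : ∃ q, q ∈ MM k d V ∧ q = act k i0 e0 x := ⟨_, hq, rfl⟩
    obtain ⟨i, e, hxq⟩ : ∃ (i : ℤ) (e : Bool), x = act k i e q :=
      ⟨_, e0, by rw [hqx, act_inv]⟩
    have hfree : Free k q := by
      rw [hqx]; exact (C.free d x hx).act _ _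
    obtain ⟨n, hn, hin⟩ := exists_res k hk i
    by_cases hkk : rot k k q ∈ MM k d V
    · -- two seeds
      have hM : ∀ (j : ℤ) (f : Bool), act k j f q ∈ MM k d V ↔ (f = false ∧ (k : ℤ) ∣ j) := by
        intro j f
        constructor
        · intro h; exact seed hk hab C d hq' h
        · rintro ⟨rfl, m, rfl⟩
          rcases Int.even_or_odd' m with ⟨m', rfl | rfl⟩
          · rw [act_false, rot_of_dvd hk ⟨m', by ring⟩]; exact hq'
          · have : rot k (k * (2 * m' + 1)) q = rot k k q :=
              rot_congr hk ⟨m', by ring⟩ q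
            rw [act_false, this]; exact hkk
      have hA : ∀ (j : ℤ) (f : Bool), act k j f q ∈ AA k d V ↔ f4 k j f = true := by
        intro j f
        unfold AA f4
        simp only [Set.mem_ofPred_eq, flp_act, hM, decide_eq_true_eq]
        cases f <;> simp
      have hU : x ∈ UU k d V := by
        refine ⟨(i % k).toNat, ?_, ?_⟩
        · have h1 := Int.emod_lt_of_pos i (by exact_mod_cast hk : (0 : ℤ) < k)
          omega
        · have h2 := Int.emod_nonneg i (by exact_mod_cast hk.ne' : (k : ℤ) ≠ 0)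
          rw [hxq, rot_act, hA]
          unfold f4
          rw [decide_eq_true_eq, Int.toNat_of_nonneg h2]
          have : -(i % (k : ℤ)) + i = i - i % k := by ring
          rw [this]; exact Int.dvd_self_sub_emod
      refine ⟨fun _ => ?_, fun h => absurd hU h⟩
      have h1 : FA k (AA k d V) x = FAg k (f4 k) i e := by
        rw [hxq]; exact FA_act hA i e
      have h2 : FB k (AA k d V) x = FBg k (f4 k) i e := by
        rw [hxq]; exact FB_act hA i e
      have h3 := patg_f4 hk i e
      unfold patg at h3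
      simp only [Prod.mk.injEq] at h3
      exact ⟨h1.trans h3.1, h2.trans h3.2.2.1⟩
    · have hM : ∀ (j : ℤ) (f : Bool), act k j f q ∈ MM k d V ↔ (f = false ∧ (2 * k : ℤ) ∣ j) := by
        intro j f
        constructor
        · intro h
          obtain ⟨h1, m, h2⟩ := seed hk hab C d hq' h
          subst h1
          refine ⟨rfl, ?_⟩
          rcases Int.even_or_odd' m with ⟨m', rfl | rfl⟩
          · exact ⟨m', by rw [h2]; ring⟩
          · exfalso
            apply hkk
            have : rot k (k * (2 * m' + 1)) q = rot k k q :=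
              rot_congr hk ⟨m', by ring⟩ q
            rw [act_false, h2, this] at h
            exact h
        · rintro ⟨rfl, h⟩
          rw [act_false, rot_of_dvd hk h]; exact hq'
      have hA : ∀ (j : ℤ) (f : Bool), act k j f q ∈ AA k d V ↔ f2 k j f = true := by
        intro j f
        unfold AA f2
        simp only [Set.mem_ofPred_eq, flp_act, hM, decide_eq_true_eq]
        cases f <;> simp
      have hU : x ∈ UU k d V ↔ n < k := by
        constructor
        · rintro ⟨j, hj, h⟩
          rw [hxq, rot_act, hA] at h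
          unfold f2 at h
          rw [decide_eq_true_eq] at h
          have h1 : (2 * k : ℤ) ∣ (n : ℤ) - j := by
            have : (n : ℤ) - j = (-(j : ℤ) + i) - (i - n) := by ring
            rw [this]; exact dvd_sub h hin
          have h2 : |(n : ℤ) - j| < 2 * k := by rw [abs_lt]; omega
          have := Int.eq_zero_of_abs_lt_dvd h1 h2
          omega
        · intro h
          refine ⟨n, h, ?_⟩
          rw [hxq, rot_act, hA]
          unfold f2
          rw [decide_eq_true_eq]
          have : -(n : ℤ) + i = i - n := by ring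
          rw [this]; exact hin
      have h1 : FA k (AA k d V) x = FAg k (f2 k) i e := by
        rw [hxq]; exact FA_act hA i e
      have h2 : FB k (AA k d V) x = FBg k (f2 k) i e := by
        rw [hxq]; exact FB_act hA i e
      rw [FA_f2 hn hin] at h1
      rw [FB_f2 hn hin] at h2
      rw [hU, h1, h2]
      constructor
      · intro h; simp [h]
      · intro h; simp [h]
  · have hA : ∀ (j : ℤ) (f : Bool), act k j f x ∈ AA k d V ↔ (fun _ _ => false : ℤ → Bool → Bool) j f = true := by
      intro j f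
      simp only [Bool.false_eq_true, iff_false]
      rintro (h | h)
      · exact hex ⟨_, _, h⟩
      · rw [flp_act] at h; exact hex ⟨_, _, h⟩
    have h1 : FA k (AA k d V) x = 0 := by
      have := FA_act hA 0 false
      rw [act_zero_false] at this
      rw [this]; simp [FAg]
    have h2 : FB k (AA k d V) x = 0 := by
      have := FB_act hA 0 false
      rw [act_zero_false] at this
      rw [this]; simp [FBg]
    refine ⟨fun h => ?_, fun _ => ⟨h1, h2⟩⟩
    exfalso
    obtain ⟨j, -, h⟩ := h
    have := (hA (-(j : ℤ)) false).1 (by rw [act_false]; exact h)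
    simp at this

/-- an inner point lies in `U` iff it has type one -/
lemma UU_iff (d : ℕ) {x : P} (hx : x ∈ C.I d) :
    x ∈ UU k d (VV k a b C.X C.I C.W d) ↔ x ∈ VV k a b C.X C.I C.W d := by
  have key : ∀ q : P, q ∈ C.I d → 0 < q.2 →
      (q ∈ UU k d (VV k a b C.X C.I C.W d) ↔ q ∈ VV k a b C.X C.I C.W d) := by
    intro q hq hq2
    constructor
    · rintro ⟨i, hi, h | h⟩
      · rcases h.2 with h1 | ⟨hd, h1⟩
        · have h2 := VV_sub hk hab C d h1
          have hi0 : i = 0 := by
            have h3 : (k : ℤ) ∣ -(i : ℤ) := by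
              cases d with
              | zero =>
                rcases C.uniq_zero q hq _ false h2 with ⟨-, h3⟩ | ⟨h3, -⟩
                · exact h3
                · exact absurd h3 (by simp)
              | succ d =>
                rcases C.uniq d q hq _ false h2 with ⟨-, h3⟩ | ⟨h3, -⟩
                · exact dvd_trans ⟨2, by ring⟩ h3
                · exact absurd h3 (by simp)
            have h4 : |-(i : ℤ)| < k := by rw [abs_lt]; omega
            have := Int.eq_zero_of_abs_lt_dvd h3 h4
            omega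
          rw [hi0] at h1
          simpa using h1
        · exfalso
          have h2 := VV_sub hk hab C d h1
          rw [rot_rot] at h2
          cases d with
          | zero => exact hd rfl
          | succ d =>
            rcases C.uniq d q hq _ false h2 with ⟨-, h3⟩ | ⟨h3, -⟩
            · have h4 : |(k : ℤ) + -(i : ℤ)| < 2 * k := by rw [abs_lt]; omega
              have := Int.eq_zero_of_abs_lt_dvd h3 h4
              omega
            · exact absurd h3 (by simp)
      · exfalso
        have := h.1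
        simp only [flp_snd, rot_snd] at this
        linarith
    · intro h
      refine ⟨0, hk, ?_⟩
      simp only [Nat.cast_zero, neg_zero, rot_zero]
      exact Or.inl ⟨hq2, Or.inl h⟩
  rcases lt_or_gt_of_ne (C.z_ne d x (C.I_sub d hx)) with h | h
  · rw [← UU_Y hk, ← VV_Y_iff hk hab C d]
    exact key _ (C.I_Y d x hx) (by simp only [Yf_snd]; linarith)
  · exact key x hx h

end

theorem borel_construct (k a b : ℕ) (hk : 3 ≤ k) (ha : 0 < a) (hb : 0 < b) (C : Circles k a b) :
    ∃ AX : Set P, MeasurableSet AX ∧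
      ∀ d, ∀ x ∈ C.X d, FA k AX x + FB k AX (rr a b x) = 1 := by
  have hk0 : 0 < k := by omega
  have hab : (a : ℝ) ^ 2 + (b : ℝ) ^ 2 ≠ 0 := by
    have : (0 : ℝ) < a := by exact_mod_cast ha
    positivity
  set V := VV k a b C.X C.I C.W with hV
  set AX : Set P := ⋃ d, AA k d (V d) with hAX
  have hmem : ∀ d, ∀ x ∈ C.X d, ∀ (i : ℤ) (e : Bool),
      act k i e x ∈ AX ↔ act k i e x ∈ AA k d (V d) := by
    intro d x hx i e
    constructor
    · intro h
      obtain ⟨d', hd'⟩ := Set.mem_iUnion.1 h
      have h1 := AA_sub hk0 hab C d' hd'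
      have h2 := C.X_disj d' d _ h1 (C.X_act d x hx i e)
      subst h2; exact hd'
    · intro h; exact Set.mem_iUnion.2 ⟨d, h⟩
  have hFA : ∀ d, ∀ x ∈ C.X d, (x ∈ UU k d (V d) → FA k AX x = 1 ∧ FB k AX x = 1) ∧
      (x ∉ UU k d (V d) → FA k AX x = 0 ∧ FB k AX x = 0) := by
    intro d x hx
    rw [FA_congr (hmem d x hx), FB_congr (hmem d x hx)]
    exact vertex hk0 hab C hk d hx
  refine ⟨AX, MeasurableSet.iUnion fun d => measurable_AA (measurable_VV C d), ?_⟩
  intro d x hx
  by_cases hI : x ∈ C.I d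
  · cases d with
    | zero =>
      have hrI := C.r_zero x hI
      have hrX := C.I_sub 0 hrI
      have h1 := UU_iff hk0 hab C 0 hI
      have h2 := UU_iff hk0 hab C 0 hrI
      have hW := C.W_r x hI
      have hV0 : VV k a b C.X C.I C.W 0 = C.W := rfl
      by_cases hxW : x ∈ C.W
      · have h3 : x ∈ UU k 0 (V 0) := h1.2 hxW
        have h4 : rr a b x ∉ UU k 0 (V 0) := fun h => (hW.1 (h2.1 h)) hxW
        rw [((hFA 0 x hx).1 h3).1, ((hFA 0 _ hrX).2 h4).2]
      · have h3 : x ∉ UU k 0 (V 0) := fun h => hxW (h1.1 h)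
        have h4 : rr a b x ∈ UU k 0 (V 0) := h2.2 (hW.2 hxW)
        rw [((hFA 0 x hx).2 h3).1, ((hFA 0 _ hrX).1 h4).2]
    | succ d =>
      obtain ⟨hrX, hrI⟩ := C.r_in d x hI
      have h1 := UU_iff hk0 hab C (d + 1) hI
      by_cases hU : rr a b x ∈ UU k d (V d)
      · have h3 : x ∉ UU k (d + 1) (V (d + 1)) := by
          intro h
          exact (h1.1 h).2.2 hU
        rw [((hFA (d + 1) x hx).2 h3).1, ((hFA d _ hrX).1 hU).2]
      · have h3 : x ∈ UU k (d + 1) (V (d + 1)) := h1.2 ⟨hrX, hrI, hU⟩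
        rw [((hFA (d + 1) x hx).1 h3).1, ((hFA d _ hrX).2 hU).2]
  · have hr := C.r_out d x hx hI
    have hrX := C.I_sub _ hr
    have h1 := UU_iff hk0 hab C (d + 1) hr
    by_cases hU : x ∈ UU k d (V d)
    · have h3 : rr a b x ∉ UU k (d + 1) (V (d + 1)) := by
        intro h
        have := (h1.1 h).2.2
        rw [rr_rr a b hab] at this
        exact this hU
      rw [((hFA d x hx).1 hU).1, ((hFA (d + 1) _ hrX).2 h3).2]
    · have h3 : rr a b x ∈ UU k (d + 1) (V (d + 1)) := by
        refine h1.2 ?_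
        refine ⟨?_, ?_, ?_⟩
        · rw [rr_rr a b hab]; exact hx
        · rw [rr_rr a b hab]; exact hI
        · rw [rr_rr a b hab]; exact hU
      rw [((hFA d x hx).2 hU).1, ((hFA (d + 1) _ hrX).1 h3).2]

end Pool.Agent.Lib.MP_f406e2_lc
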