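import Pool.Agent.Lib.MP_f406e2_lc.Defs

/-! Algebra of the rotations `rot`, `flp`, `Yf`, `rr`. -/

open Complex ComplexConjugate

namespace Pool.Agent.Lib.MP_f406e2_lc

lemma om_ne_zero (k : ℕ) : om k ≠ 0 := Complex.exp_ne_zero _

lemma om_zpow (k : ℕ) (i : ℤ) : om k ^ i = Complex.exp (i * (Real.pi / k * Complex.I)) := by
  unfold om
  rw [← Complex.exp_int_mul]

lemma om_pow_k {k : ℕ} (hk : 0 < k) : om k ^ (k : ℤ) = -1 := by
  rw [om_zpow]
  have : ((k : ℤ) : ℂ) * (Real.pi / k * Complex.I) = Real.pi * Complex.I := by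
    have : (k : ℂ) ≠ 0 := by exact_mod_cast hk.ne'
    push_cast
    field_simp
  rw [this, Complex.exp_pi_mul_I]

lemma om_zpow_mul_k {k : ℕ} (hk : 0 < k) (n : ℤ) : om k ^ ((k : ℤ) * n) = (-1) ^ n := by
  rw [zpow_mul, om_pow_k hk]

lemma om_pow_two_k {k : ℕ} (hk : 0 < k) : om k ^ (2 * k : ℤ) = 1 := by
  rw [mul_comm, zpow_mul, om_pow_k hk]; norm_num

lemma normSq_om (k : ℕ) : Complex.normSq (om k) = 1 := by
  unfold om
  rw [Complex.normSq_eq_norm_sq]
  have : (Real.pi / k * Complex.I : ℂ) = ((Real.pi / k : ℝ) : ℂ) * Complex.I := by push_cast; rfl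
  rw [this, Complex.norm_exp_ofReal_mul_I]; norm_num

lemma conj_om (k : ℕ) : conj (om k) = (om k)⁻¹ := by
  have h := Complex.inv_def (om k)
  rw [normSq_om] at h
  simpa using h.symm

lemma conj_om_zpow (k : ℕ) (i : ℤ) : conj (om k ^ i) = om k ^ (-i) := by
  rw [map_zpow₀, conj_om, inv_zpow, zpow_neg]

lemma normSq_om_zpow (k : ℕ) (i : ℤ) : Complex.normSq (om k ^ i) = 1 := by
  rw [map_zpow₀, normSq_om, one_zpow]

lemma om_zpow_eq_one_iff {k : ℕ} (hk : 0 < k) (i : ℤ) : om k ^ i = 1 ↔ (2 * k : ℤ) ∣ i := by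
  rw [om_zpow, Complex.exp_eq_one_iff]
  have hk' : (k : ℂ) ≠ 0 := by exact_mod_cast hk.ne'
  have hpi : (Real.pi : ℂ) ≠ 0 := by exact_mod_cast Real.pi_ne_zero
  constructor
  · rintro ⟨n, hn⟩
    refine ⟨n, ?_⟩
    have h1 : (i : ℂ) * (Real.pi / k * Complex.I) * k = n * (2 * Real.pi * Complex.I) * k := by
      rw [hn]
    have h2 : (i : ℂ) = 2 * k * n := by
      have h3 : (i : ℂ) * (Real.pi * Complex.I) = (2 * k * n) * (Real.pi * Complex.I) := by
        calc (i : ℂ) * (Real.pi * Complex.I) = (i : ℂ) * (Real.pi / k * Complex.I) * k := by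
              field_simp
          _ = _ := by rw [h1]; ring
      exact mul_right_cancel₀ (mul_ne_zero hpi Complex.I_ne_zero) h3
    exact_mod_cast h2
  · rintro ⟨n, rfl⟩
    refine ⟨n, ?_⟩
    push_cast
    field_simp

@[simp] lemma rot_fst (k : ℕ) (i : ℤ) (q : P) : (rot k i q).1 = om k ^ i * q.1 := rfl
@[simp] lemma rot_snd (k : ℕ) (i : ℤ) (q : P) : (rot k i q).2 = q.2 := rfl
@[simp] lemma flp_fst (k : ℕ) (q : P) : (flp k q).1 = om k * conj q.1 := rfl
@[simp] lemma flp_snd (k : ℕ) (q : P) : (flp k q).2 = -q.2 := rfl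
@[simp] lemma Yf_fst (q : P) : (Yf q).1 = -conj q.1 := rfl
@[simp] lemma Yf_snd (q : P) : (Yf q).2 = -q.2 := rfl

lemma rot_rot (k : ℕ) (i j : ℤ) (q : P) : rot k i (rot k j q) = rot k (i + j) q := by
  unfold rot
  simp only [zpow_add₀ (om_ne_zero k), mul_assoc]

@[simp] lemma rot_zero (k : ℕ) (q : P) : rot k 0 q = q := by
  unfold rot; simp

lemma rot_add (k : ℕ) (i j : ℤ) (q : P) : rot k (i + j) q = rot k i (rot k j q) :=
  (rot_rot k i j q).symm

lemma rot_of_dvd {k : ℕ} (hk : 0 < k) {i : ℤ} (h : (2 * k : ℤ) ∣ i) (q : P) : rot k i q = q := by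
  have := (om_zpow_eq_one_iff hk i).2 h
  unfold rot
  rw [this, one_mul]

lemma rot_congr {k : ℕ} (hk : 0 < k) {i j : ℤ} (h : (2 * k : ℤ) ∣ i - j) (q : P) :
    rot k i q = rot k j q := by
  have : i = j + (i - j) := by ring
  rw [this, rot_add, rot_of_dvd hk h]

lemma rot_k {k : ℕ} (hk : 0 < k) (q : P) : rot k k q = (-q.1, q.2) := by
  unfold rot
  rw [om_pow_k hk, neg_one_mul]

@[simp] lemma rot_neg_rot (k : ℕ) (i : ℤ) (q : P) : rot k (-i) (rot k i q) = q := by
  rw [rot_rot]; simp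

@[simp] lemma rot_rot_neg (k : ℕ) (i : ℤ) (q : P) : rot k i (rot k (-i) q) = q := by
  rw [rot_rot]; simp

@[simp] lemma flp_flp (k : ℕ) (q : P) : flp k (flp k q) = q := by
  ext1
  · simp only [flp_fst, map_mul, Complex.conj_conj, conj_om]
    rw [← mul_assoc, mul_inv_cancel₀ (om_ne_zero k), one_mul]
  · simp

lemma flp_rot (k : ℕ) (i : ℤ) (q : P) : flp k (rot k i q) = rot k (-i) (flp k q) := by
  ext1
  · simp only [flp_fst, rot_fst, map_mul, conj_om_zpow]
    ring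
  · simp

@[simp] lemma Yf_Yf (q : P) : Yf (Yf q) = q := by
  ext1 <;> simp

lemma Yf_eq {k : ℕ} (hk : 0 < k) (q : P) : Yf q = rot k (k - 1) (flp k q) := by
  ext1
  · simp only [Yf_fst, rot_fst, flp_fst]
    rw [zpow_sub₀ (om_ne_zero k), om_pow_k hk, zpow_one]
    field_simp [om_ne_zero k]
  · simp

lemma flp_eq_rot_Yf {k : ℕ} (hk : 0 < k) (q : P) : flp k q = rot k (1 - k) (Yf q) := by
  rw [Yf_eq hk, rot_rot]
  simp

lemma Yf_rot (k : ℕ) (i : ℤ) (q : P) : Yf (rot k i q) = rot k (-i) (Yf q) := by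
  ext1
  · simp only [Yf_fst, rot_fst, map_mul, conj_om_zpow]
    ring
  · simp

lemma rot_inj (k : ℕ) (i : ℤ) {q u : P} (h : rot k i q = rot k i u) : q = u := by
  rw [← rot_neg_rot k i q, h, rot_neg_rot]

lemma rot_eq_iff (k : ℕ) (i : ℤ) {q u : P} : rot k i q = u ↔ q = rot k (-i) u :=
  ⟨fun h => by rw [← h, rot_neg_rot], fun h => by rw [h, rot_rot_neg]⟩

lemma flp_inj (k : ℕ) {q u : P} (h : flp k q = flp k u) : q = u := by
  rw [← flp_flp k q, h, flp_flp]

lemma flp_eq_iff (k : ℕ) {q u : P} : flp k q = u ↔ q = flp k u :=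
  ⟨fun h => by rw [← h, flp_flp], fun h => by rw [h, flp_flp]⟩

lemma Yf_eq_iff {q u : P} : Yf q = u ↔ q = Yf u :=
  ⟨fun h => by rw [← h, Yf_Yf], fun h => by rw [h, Yf_Yf]⟩

/-! ### the action `act` -/

lemma act_false (k : ℕ) (i : ℤ) (q : P) : act k i false q = rot k i q := rfl
lemma act_true (k : ℕ) (i : ℤ) (q : P) : act k i true q = rot k i (flp k q) := rfl

@[simp] lemma act_zero_false (k : ℕ) (q : P) : act k 0 false q = q := by
  simp [act]

lemma rot_act (k : ℕ) (j i : ℤ) (e : Bool) (q : P) : rot k j (act k i e q) = act k (j + i) e q := by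
  unfold act; rw [rot_rot]

lemma flp_act (k : ℕ) (i : ℤ) (e : Bool) (q : P) : flp k (act k i e q) = act k (-i) (!e) q := by
  unfold act; rw [flp_rot]; cases e <;> simp

lemma Yf_act {k : ℕ} (hk : 0 < k) (i : ℤ) (e : Bool) (q : P) :
    Yf (act k i e q) = act k (k - 1 - i) (!e) q := by
  rw [Yf_eq hk, flp_act, rot_act]; ring_nf

lemma act_act (k : ℕ) (i j : ℤ) (e f : Bool) (q : P) :
    act k i e (act k j f q) = act k (i + (if e then -j else j)) (xor e f) q := by
  conv_lhs => unfold act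
  cases e <;> cases f <;> simp [act, flp_rot, rot_rot]

lemma act_congr {k : ℕ} (hk : 0 < k) {i j : ℤ} (h : (2 * k : ℤ) ∣ i - j) (e : Bool) (q : P) :
    act k i e q = act k j e q := by
  unfold act; exact rot_congr hk h _

/-- inverse element: `act k i e` is undone by `act k (if e then i else -i) e` -/
lemma act_inv (k : ℕ) (i : ℤ) (e : Bool) (q : P) :
    act k (if e then i else -i) e (act k i e q) = q := by
  rw [act_act]; cases e <;> simp

lemma act_inv' (k : ℕ) (i : ℤ) (e : Bool) (q : P) :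
    act k i e (act k (if e then i else -i) e q) = q := by
  rw [act_act]; cases e <;> simp

lemma act_eq_iff (k : ℕ) (i : ℤ) (e : Bool) {q u : P} :
    act k i e q = u ↔ q = act k (if e then i else -i) e u :=
  ⟨fun h => by rw [← h, act_inv], fun h => by rw [h, act_inv']⟩

/-! ### the flip `rr` -/

section
variable (a b : ℕ)

lemma vdot_rr (hab : (a : ℝ) ^ 2 + (b : ℝ) ^ 2 ≠ 0) (q : P) : vdot a b (rr a b q) = vdot a b q := by
  unfold rr vdot
  simp only [Complex.sub_re, Complex.ofReal_re]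
  field_simp
  ring

lemma rr_fst (q : P) : (rr a b q).1 =
    ((2 / ((a : ℝ) ^ 2 + (b : ℝ) ^ 2) * vdot a b q * a : ℝ) : ℂ) - q.1 := rfl

lemma rr_snd (q : P) : (rr a b q).2 =
    2 / ((a : ℝ) ^ 2 + (b : ℝ) ^ 2) * vdot a b q * b - q.2 := rfl

lemma rr_rr (hab : (a : ℝ) ^ 2 + (b : ℝ) ^ 2 ≠ 0) (q : P) : rr a b (rr a b q) = q := by
  have h := vdot_rr a b hab q
  ext1
  · rw [rr_fst, h, rr_fst]; ring
  · rw [rr_snd, h, rr_snd]; ring

lemma vdot_Yf (q : P) : vdot a b (Yf q) = -vdot a b q := by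
  unfold vdot; simp; ring

lemma Yf_rr (q : P) : Yf (rr a b q) = rr a b (Yf q) := by
  ext1
  · simp only [Yf_fst]
    unfold rr
    rw [vdot_Yf]
    simp only [map_sub, Complex.conj_ofReal, Yf_fst]
    push_cast
    ring
  · simp only [Yf_snd]
    unfold rr
    rw [vdot_Yf]
    simp only [Yf_snd]
    ring

lemma vdot_neg (q : P) : vdot a b (-q) = -vdot a b q := by
  unfold vdot; simp; ring

lemma rr_neg (q : P) : rr a b (-q) = -rr a b q := by
  unfold rr
  rw [vdot_neg]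
  ext1
  · simp only [Prod.fst_neg]
    push_cast; ring
  · simp only [Prod.snd_neg]
    ring

lemma rr_ey : rr a b ey = -ey := by
  have : vdot a b ey = 0 := by simp [vdot, ey]
  unfold rr
  rw [this]
  ext1 <;> simp [ey]

end

lemma rot_neg' (k : ℕ) (i : ℤ) (q : P) : rot k i (-q) = -rot k i q := by
  ext1 <;> simp

lemma flp_neg' (k : ℕ) (q : P) : flp k (-q) = -flp k q := by
  ext1 <;> simp

lemma Yf_neg' (q : P) : Yf (-q) = -Yf q := by
  ext1 <;> simp

lemma act_neg' (k : ℕ) (i : ℤ) (e : Bool) (q : P) : act k i e (-q) = -act k i e q := by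
  unfold act; cases e <;> simp [rot_neg', flp_neg']

lemma Yf_ey : Yf ey = ey := by
  ext1 <;> simp [ey]

lemma rot_k_ey {k : ℕ} (hk : 0 < k) : rot k k ey = -ey := by
  rw [rot_k hk]; ext1 <;> simp [ey]

/-! ### the sphere -/

lemma ip_eq (q u : P) : ip q u = (q.1 * conj u.1).re + q.2 * u.2 := by
  unfold ip; simp [Complex.mul_re]

lemma ip_comm (q u : P) : ip q u = ip u q := by
  unfold ip; ring

lemma ip_neg_right (q u : P) : ip q (-u) = -ip q u := by
  unfold ip; simp; ring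

lemma ip_neg_left (q u : P) : ip (-q) u = -ip q u := by
  unfold ip; simp; ring

lemma mem_Sph_iff (q : P) : q ∈ Sph ↔ ip q q = 1 := by
  unfold Sph ip
  simp only [Set.mem_ofPred_eq, Complex.normSq_apply]
  constructor <;> intro h <;> linarith

lemma ip_rot (k : ℕ) (i : ℤ) (q u : P) : ip (rot k i q) (rot k i u) = ip q u := by
  rw [ip_eq, ip_eq]
  simp only [rot_fst, rot_snd, map_mul]
  congr 2
  have : om k ^ i * q.1 * (conj (om k ^ i) * conj u.1)
      = (om k ^ i * conj (om k ^ i)) * (q.1 * conj u.1) := by ring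
  rw [this, Complex.mul_conj, normSq_om_zpow]
  simp

lemma ip_flp (k : ℕ) (q u : P) : ip (flp k q) (flp k u) = ip q u := by
  rw [ip_eq, ip_eq]
  simp only [flp_fst, flp_snd, map_mul, Complex.conj_conj]
  have : om k * conj q.1 * (conj (om k) * u.1)
      = (om k * conj (om k)) * (conj (q.1 * conj u.1)) := by
    simp only [map_mul, Complex.conj_conj]; ring
  rw [this, Complex.mul_conj, normSq_om]
  simp

lemma ip_act (k : ℕ) (i : ℤ) (e : Bool) (q u : P) : ip (act k i e q) (act k i e u) = ip q u := by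
  unfold act; cases e <;> simp [ip_rot, ip_flp]

lemma ip_Yf (q u : P) : ip (Yf q) (Yf u) = ip q u := by
  unfold ip; simp

lemma ip_rr (a b : ℕ) (hab : (a : ℝ) ^ 2 + (b : ℝ) ^ 2 ≠ 0) (q u : P) :
    ip (rr a b q) (rr a b u) = ip q u := by
  unfold ip rr vdot
  simp only [Complex.sub_re, Complex.ofReal_re, Complex.sub_im, Complex.ofReal_im]
  field_simp
  ring

lemma rot_mem_Sph {k : ℕ} {i : ℤ} {q : P} (h : q ∈ Sph) : rot k i q ∈ Sph := by
  rw [mem_Sph_iff] at *; rw [ip_rot, h]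

lemma flp_mem_Sph {k : ℕ} {q : P} (h : q ∈ Sph) : flp k q ∈ Sph := by
  rw [mem_Sph_iff] at *; rw [ip_flp, h]

lemma act_mem_Sph {k : ℕ} {i : ℤ} {e : Bool} {q : P} (h : q ∈ Sph) : act k i e q ∈ Sph := by
  rw [mem_Sph_iff] at *; rw [ip_act, h]

lemma Yf_mem_Sph {q : P} (h : q ∈ Sph) : Yf q ∈ Sph := by
  rw [mem_Sph_iff] at *; rw [ip_Yf, h]

lemma rr_mem_Sph {a b : ℕ} (hab : (a : ℝ) ^ 2 + (b : ℝ) ^ 2 ≠ 0) {q : P} (h : q ∈ Sph) :
    rr a b q ∈ Sph := by
  rw [mem_Sph_iff] at *; rw [ip_rr a b hab, h]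

lemma ey_mem_Sph : ey ∈ Sph := by
  simp [Sph, ey]

end Pool.Agent.Lib.MP_f406e2_lc
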