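import Pool.Agent.Lib.MP_f406e2_lc.Basic

/-! Combinatorics of the states on a dihedral orbit. -/

open Complex ComplexConjugate

namespace Pool.Agent.Lib.MP_f406e2_lc

/-- abstract version of `FA` -/
def FAg (k : ℕ) (f : ℤ → Bool → Bool) (i : ℤ) (e : Bool) : ℕ :=
  ∑ j ∈ Finset.range k, if f (i - j) e = true then 1 else 0

/-- abstract version of `FB` -/
def FBg (k : ℕ) (f : ℤ → Bool → Bool) (i : ℤ) (e : Bool) : ℕ :=
  ∑ j ∈ Finset.range k, if (if Mid k j then f (j - i) (!e) else f (i - j) e) = true then 1 else 0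

lemma FA_act {k : ℕ} {A : Set P} {x : P} {f : ℤ → Bool → Bool}
    (h : ∀ i e, act k i e x ∈ A ↔ f i e = true) (i : ℤ) (e : Bool) :
    FA k A (act k i e x) = FAg k f i e := by
  unfold FA FAg
  refine Finset.sum_congr rfl fun j _ => ?_
  rw [rot_act]
  have : -(j : ℤ) + i = i - j := by ring
  rw [this]
  simp only [h]

lemma FB_act {k : ℕ} {A : Set P} {x : P} {f : ℤ → Bool → Bool}
    (h : ∀ i e, act k i e x ∈ A ↔ f i e = true) (i : ℤ) (e : Bool) :
    FB k A (act k i e x) = FBg k f i e := by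
  unfold FB FBg
  refine Finset.sum_congr rfl fun j _ => ?_
  rw [rot_act]
  have h1 : -(j : ℤ) + i = i - j := by ring
  rw [h1]
  unfold psi
  by_cases hm : Mid k j
  · have h2 : -(i - (j : ℤ)) = j - i := by ring
    simp only [hm, if_true, flp_act, h2, h]
  · simp only [hm, if_false, h]

/-- the four numbers attached to a point and its `Y`-image -/
noncomputable def pat (k : ℕ) (A : Set P) (y : P) : ℕ × ℕ × ℕ × ℕ :=
  (FA k A y, FA k A (Yf y), FB k A y, FB k A (Yf y))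

/-- abstract version -/
def patg (k : ℕ) (f : ℤ → Bool → Bool) (i : ℤ) (e : Bool) : ℕ × ℕ × ℕ × ℕ :=
  (FAg k f i e, FAg k f (k - 1 - i) (!e), FBg k f i e, FBg k f (k - 1 - i) (!e))

lemma pat_act {k : ℕ} (hk : 0 < k) {A : Set P} {x : P} {f : ℤ → Bool → Bool}
    (h : ∀ i e, act k i e x ∈ A ↔ f i e = true) (i : ℤ) (e : Bool) :
    pat k A (act k i e x) = patg k f i e := by
  unfold pat patg
  rw [Yf_act hk, FA_act h, FA_act h, FB_act h, FB_act h]

/-- swapping the two points of a half-side -/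
def swp (x : ℕ × ℕ × ℕ × ℕ) : ℕ × ℕ × ℕ × ℕ := (x.2.1, x.1, x.2.2.2, x.2.2.1)

lemma pat_Yf (k : ℕ) (A : Set P) (y : P) : pat k A (Yf y) = swp (pat k A y) := by
  unfold pat swp; simp

lemma patg_swp (k : ℕ) (f : ℤ → Bool → Bool) (i : ℤ) (e : Bool) :
    patg k f (k - 1 - i) (!e) = swp (patg k f i e) := by
  unfold patg swp; simp

/-- the valid patterns -/
def Valid (x : ℕ × ℕ × ℕ × ℕ) : Prop :=
  x = (0,0,0,0) ∨ x = (1,1,1,1) ∨ x = (1,0,1,0) ∨ x = (0,1,0,1) ∨ x = (1,0,0,1) ∨ x = (0,1,1,0)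

lemma Valid.swp {x : ℕ × ℕ × ℕ × ℕ} (h : Valid x) : Valid (swp x) := by
  rcases h with rfl | rfl | rfl | rfl | rfl | rfl <;> simp [Valid, MP_f406e2_lc.swp]

/-- the pattern required at the linked half-side -/
def lk (x : ℕ × ℕ × ℕ × ℕ) : ℕ × ℕ × ℕ × ℕ := (1 - x.2.2.1, 1 - x.2.2.2, 1 - x.1, 1 - x.2.1)

lemma Valid.lk {x : ℕ × ℕ × ℕ × ℕ} (h : Valid x) : Valid (lk x) := by
  rcases h with rfl | rfl | rfl | rfl | rfl | rfl <;> simp [Valid, MP_f406e2_lc.lk]

lemma sum_one (k : ℕ) (c : ℕ → Prop) [DecidablePred c] (d : ℤ) (n : ℕ) (hn : n < 2 * k)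
    (hd : (2 * k : ℤ) ∣ d - n) :
    (∑ j ∈ Finset.range k, if c j ∧ (2 * k : ℤ) ∣ d - j then 1 else 0)
      = if n < k ∧ c n then 1 else 0 := by
  have key : ∀ j ∈ Finset.range k, ((2 * k : ℤ) ∣ d - j ↔ j = n) := by
    intro j hj
    rw [Finset.mem_range] at hj
    constructor
    · intro h
      have h1 : (2 * k : ℤ) ∣ (j : ℤ) - n := by
        have := dvd_sub hd h
        have h2 : d - (n : ℤ) - (d - j) = j - n := by ring
        rwa [h2] at this
      have h2 : |(j : ℤ) - n| < 2 * k := by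
        rw [abs_lt]; omega
      have := Int.eq_zero_of_abs_lt_dvd h1 h2
      omega
    · rintro rfl; exact hd
  by_cases hnk : n < k
  · rw [Finset.sum_eq_single n]
    · simp [hd, hnk]
    · intro j hj hjn
      rw [if_neg]
      rintro ⟨-, h⟩
      exact hjn ((key j hj).1 h)
    · intro h
      exact absurd (Finset.mem_range.2 hnk) h
  · rw [if_neg (fun h => hnk h.1)]
    refine Finset.sum_eq_zero fun j hj => ?_
    rw [if_neg]
    rintro ⟨-, h⟩
    have := (key j hj).1 h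
    rw [Finset.mem_range] at hj
    omega

lemma sum_one' (k : ℕ) (d : ℤ) (n : ℕ) (hn : n < 2 * k)
    (hd : (2 * k : ℤ) ∣ d - n) :
    (∑ j ∈ Finset.range k, if (2 * k : ℤ) ∣ d - j then 1 else 0)
      = if n < k then 1 else 0 := by
  have := sum_one k (fun _ => True) d n hn hd
  simpa using this

/-- the residue of `i` -/
lemma exists_res (k : ℕ) (hk : 0 < k) (i : ℤ) : ∃ n : ℕ, n < 2 * k ∧ (2 * k : ℤ) ∣ i - n := by
  have h0 : (0 : ℤ) < 2 * k := by positivity
  refine ⟨(i % (2 * k)).toNat, ?_, ?_⟩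
  · have h1 := Int.emod_lt_of_pos i h0
    have h2 := Int.emod_nonneg i h0.ne'
    omega
  · have h2 := Int.emod_nonneg i h0.ne'
    rw [Int.toNat_of_nonneg h2]
    exact Int.dvd_self_sub_emod

lemma mid_symm {k n : ℕ} (hn : n < k) : Mid k (k - 1 - n) ↔ Mid k n := by
  unfold Mid; omega

/-! ### the states -/

/-- a single point -/
def f1 (k : ℕ) (i : ℤ) (e : Bool) : Bool := decide (e = false ∧ (2 * k : ℤ) ∣ i)
/-- a point and its flip -/
def f2 (k : ℕ) (i : ℤ) (_ : Bool) : Bool := decide ((2 * k : ℤ) ∣ i)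
/-- the sink -/
def f4 (k : ℕ) (i : ℤ) (_ : Bool) : Bool := decide ((k : ℤ) ∣ i)
/-- a point and its `Y`-image -/
def fY (k : ℕ) (i : ℤ) (e : Bool) : Bool :=
  decide ((e = false ∧ (2 * k : ℤ) ∣ i) ∨ (e = true ∧ (2 * k : ℤ) ∣ i - (k - 1)))

lemma dvd_neg_sub {m i j : ℤ} : m ∣ j - i ↔ m ∣ i - j := by
  rw [← dvd_neg]; ring_nf

section
variable {k : ℕ} {i : ℤ} {n : ℕ} (hn : n < 2 * k) (hi : (2 * k : ℤ) ∣ i - n)
include hn hi

lemma FA_f1_false : FAg k (f1 k) i false = if n < k then 1 else 0 := by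
  rw [← sum_one' k i n hn hi]
  unfold FAg f1
  simp

omit hn hi in
lemma FA_f1_true (i : ℤ) : FAg k (f1 k) i true = 0 := by
  unfold FAg f1
  simp

lemma FB_f1_false : FBg k (f1 k) i false = if n < k ∧ ¬ Mid k n then 1 else 0 := by
  rw [← sum_one k (fun j => ¬ Mid k j) i n hn hi]
  unfold FBg f1
  refine Finset.sum_congr rfl fun j _ => ?_
  by_cases hm : Mid k j <;> simp [hm]

lemma FB_f1_true : FBg k (f1 k) i true = if n < k ∧ Mid k n then 1 else 0 := by
  rw [← sum_one k (fun j => Mid k j) i n hn hi]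
  unfold FBg f1
  refine Finset.sum_congr rfl fun j _ => ?_
  by_cases hm : Mid k j
  · simp [hm, dvd_neg_sub (i := i)]
  · simp [hm]

lemma FA_f2 (e : Bool) : FAg k (f2 k) i e = if n < k then 1 else 0 := by
  rw [← sum_one' k i n hn hi]
  unfold FAg f2
  simp

lemma FB_f2 (e : Bool) : FBg k (f2 k) i e = if n < k then 1 else 0 := by
  rw [← sum_one' k i n hn hi]
  unfold FBg f2
  refine Finset.sum_congr rfl fun j _ => ?_
  by_cases hm : Mid k j
  · simp [hm, dvd_neg_sub (i := i)]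
  · simp [hm]

end

/-- residue of `k - 1 - i` -/
lemma exists_res_Y {k n : ℕ} {i : ℤ} (hn : n < 2 * k) (hi : (2 * k : ℤ) ∣ i - n) :
    ∃ n' : ℕ, n' < 2 * k ∧ (2 * k : ℤ) ∣ (k - 1 - i) - n' ∧ (n' < k ↔ n < k) ∧
      (n < k → n' = k - 1 - n) := by
  by_cases h : n < k
  · refine ⟨k - 1 - n, by omega, ?_, by omega, fun _ => rfl⟩
    have : ((k : ℤ) - 1 - i) - ((k - 1 - n : ℕ) : ℤ) = -(i - n) := by
      have : ((k - 1 - n : ℕ) : ℤ) = k - 1 - n := by omega
      rw [this]; ring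
    rw [this]; exact (dvd_neg).2 hi
  · refine ⟨3 * k - 1 - n, by omega, ?_, by omega, fun h' => absurd h' h⟩
    have : ((k : ℤ) - 1 - i) - ((3 * k - 1 - n : ℕ) : ℤ) = -(i - n) - 2 * k := by
      have : ((3 * k - 1 - n : ℕ) : ℤ) = 3 * k - 1 - n := by omega
      rw [this]; ring
    rw [this]; exact dvd_sub ((dvd_neg).2 hi) (dvd_refl _)

lemma patg_f1_false {k n : ℕ} {i : ℤ} (hn : n < 2 * k) (hi : (2 * k : ℤ) ∣ i - n) :
    patg k (f1 k) i false =
      if n < k then (if Mid k n then (1,0,0,1) else (1,0,1,0)) else (0,0,0,0) := by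
  obtain ⟨n', hn', hi', h1, h2⟩ := exists_res_Y hn hi
  unfold patg
  rw [FA_f1_false hn hi, Bool.not_false, FA_f1_true, FB_f1_false hn hi, FB_f1_true hn' hi']
  by_cases h : n < k
  · have := h2 h
    subst this
    have hm := mid_symm h
    have h1' := h1.2 h
    by_cases hm' : Mid k n
    · simp [h, h1', hm', hm.2 hm']
    · have : ¬ Mid k (k - 1 - n) := fun h3 => hm' (hm.1 h3)
      simp [h, hm', this]
  · have h1' : ¬ n' < k := fun h3 => h (h1.1 h3)
    simp [h, h1']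

lemma patg_f1_true {k : ℕ} (i : ℤ) :
    patg k (f1 k) i true = swp (patg k (f1 k) (k - 1 - i) false) := by
  rw [← patg_swp]; simp

lemma valid_f1 {k : ℕ} (hk : 0 < k) (i : ℤ) (e : Bool) : Valid (patg k (f1 k) i e) := by
  have h : ∀ i : ℤ, Valid (patg k (f1 k) i false) := by
    intro i
    obtain ⟨n, hn, hi⟩ := exists_res k hk i
    rw [patg_f1_false hn hi]
    split_ifs <;> simp [Valid]
  cases e
  · exact h i
  · rw [patg_f1_true]; exact (h _).swp

lemma patg_f2 {k n : ℕ} {i : ℤ} (hn : n < 2 * k) (hi : (2 * k : ℤ) ∣ i - n) (e : Bool) :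
    patg k (f2 k) i e = if n < k then (1,1,1,1) else (0,0,0,0) := by
  obtain ⟨n', hn', hi', h1, h2⟩ := exists_res_Y hn hi
  unfold patg
  rw [FA_f2 hn hi, FA_f2 hn' hi', FB_f2 hn hi, FB_f2 hn' hi']
  by_cases h : n < k
  · simp [h, h1.2 h]
  · have h1' : ¬ n' < k := fun h3 => h (h1.1 h3)
    simp [h, h1']

lemma valid_f2 {k : ℕ} (hk : 0 < k) (i : ℤ) (e : Bool) : Valid (patg k (f2 k) i e) := by
  obtain ⟨n, hn, hi⟩ := exists_res k hk i
  rw [patg_f2 hn hi]
  split_ifs <;> simp [Valid]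

lemma sum_k {k : ℕ} (hk : 0 < k) (i : ℤ) :
    (∑ j ∈ Finset.range k, if (k : ℤ) ∣ i - j then 1 else 0) = 1 := by
  have h0 : (0 : ℤ) < k := by exact_mod_cast hk
  have h1 := Int.emod_lt_of_pos i h0
  have h2 := Int.emod_nonneg i h0.ne'
  have h3 : (k : ℤ) ∣ i - i % k := Int.dvd_self_sub_emod
  rw [Finset.sum_eq_single (i % k).toNat]
  · rw [Int.toNat_of_nonneg h2, if_pos h3]
  · intro j hj hne
    rw [Finset.mem_range] at hj
    rw [if_neg]
    intro h
    have h4 : (k : ℤ) ∣ (j : ℤ) - i % k := by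
      have := dvd_sub h3 h
      have h5 : i - i % (k : ℤ) - (i - j) = j - i % k := by ring
      rwa [h5] at this
    have h5 : |(j : ℤ) - i % k| < k := by
      rw [abs_lt]; omega
    have := Int.eq_zero_of_abs_lt_dvd h4 h5
    omega
  · intro h
    exfalso
    apply h
    rw [Finset.mem_range]; omega

lemma FA_f4 {k : ℕ} (hk : 0 < k) (i : ℤ) (e : Bool) : FAg k (f4 k) i e = 1 := by
  rw [← sum_k hk i]
  unfold FAg f4
  simp

lemma FB_f4 {k : ℕ} (hk : 0 < k) (i : ℤ) (e : Bool) : FBg k (f4 k) i e = 1 := by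
  rw [← sum_k hk i]
  unfold FBg f4
  refine Finset.sum_congr rfl fun j _ => ?_
  by_cases hm : Mid k j
  · simp [hm, dvd_neg_sub (i := i)]
  · simp [hm]

lemma patg_f4 {k : ℕ} (hk : 0 < k) (i : ℤ) (e : Bool) : patg k (f4 k) i e = (1,1,1,1) := by
  unfold patg
  rw [FA_f4 hk, FA_f4 hk, FB_f4 hk, FB_f4 hk]

/-! the state `fY` -/

lemma FA_fY_false {k n : ℕ} {i : ℤ} (hn : n < 2 * k) (hi : (2 * k : ℤ) ∣ i - n) :
    FAg k (fY k) i false = if n < k then 1 else 0 := by
  rw [← sum_one' k i n hn hi]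
  unfold FAg fY
  simp

lemma FA_fY_true {k n : ℕ} {i : ℤ} (hn : n < 2 * k) (hi : (2 * k : ℤ) ∣ (i - (k - 1)) - n) :
    FAg k (fY k) i true = if n < k then 1 else 0 := by
  rw [← sum_one' k _ n hn hi]
  unfold FAg fY
  refine Finset.sum_congr rfl fun j _ => ?_
  have : i - (j : ℤ) - (k - 1) = i - (k - 1) - j := by ring
  simp [this]

lemma FB_fY_false {k n m : ℕ} {i : ℤ} (hn : n < 2 * k) (hi : (2 * k : ℤ) ∣ i - n)
    (hm : m < 2 * k) (hi' : (2 * k : ℤ) ∣ (i + (k - 1)) - m) :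
    FBg k (fY k) i false = (if n < k ∧ ¬ Mid k n then 1 else 0) +
      (if m < k ∧ Mid k m then 1 else 0) := by
  rw [← sum_one k (fun j => ¬ Mid k j) i n hn hi, ← sum_one k (fun j => Mid k j) _ m hm hi',
    ← Finset.sum_add_distrib]
  unfold FBg fY
  refine Finset.sum_congr rfl fun j _ => ?_
  by_cases hm : Mid k j
  · have : (j : ℤ) - i - (k - 1) = j - (i + (k - 1)) := by ring
    simp [hm, this, dvd_neg_sub (i := i + ((k : ℤ) - 1))]
  · simp [hm]

lemma FB_fY_true {k n m : ℕ} {i : ℤ} (hn : n < 2 * k) (hi : (2 * k : ℤ) ∣ i - n)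
    (hm : m < 2 * k) (hi' : (2 * k : ℤ) ∣ (i - (k - 1)) - m) :
    FBg k (fY k) i true = (if n < k ∧ Mid k n then 1 else 0) +
      (if m < k ∧ ¬ Mid k m then 1 else 0) := by
  rw [← sum_one k (fun j => Mid k j) i n hn hi, ← sum_one k (fun j => ¬ Mid k j) _ m hm hi',
    ← Finset.sum_add_distrib]
  unfold FBg fY
  refine Finset.sum_congr rfl fun j _ => ?_
  by_cases hm : Mid k j
  · simp [hm, dvd_neg_sub (i := i)]
  · have : i - (j : ℤ) - (k - 1) = i - (k - 1) - j := by ring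
    simp [hm, this]

lemma not_mid_zero {k : ℕ} (hk : 3 ≤ k) : ¬ Mid k 0 := by unfold Mid; omega

lemma patg_fY_false {k n : ℕ} (hk : 3 ≤ k) {i : ℤ} (hn : n < 2 * k) (hi : (2 * k : ℤ) ∣ i - n) :
    patg k (fY k) i false =
      if n = 0 then (1,1,1,1) else
      if n < k then (if Mid k n then (1,0,0,1) else (1,0,1,0)) else
      if n = k then (0,0,0,0) else
      (if Mid k (2 * k - n) then (0,1,1,0) else (0,1,0,1)) := by
  have h2k : (2 * k : ℤ) ∣ 2 * k := dvd_refl _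
  unfold patg
  rw [Bool.not_false]
  rcases Nat.eq_zero_or_pos n with h0 | h0
  · -- n = 0
    subst h0
    have e1 : (2 * k : ℤ) ∣ (i + (k - 1)) - ((k - 1 : ℕ) : ℤ) := by
      have : (i + ((k : ℤ) - 1)) - ((k - 1 : ℕ) : ℤ) = i - ((0 : ℕ) : ℤ) := by
        have : ((k - 1 : ℕ) : ℤ) = k - 1 := by omega
        rw [this]; push_cast; ring
      rw [this]; exact hi
    have e2 : (2 * k : ℤ) ∣ ((k - 1 - i) - (k - 1)) - ((0 : ℕ) : ℤ) := by
      have : (((k : ℤ) - 1 - i) - (k - 1)) - ((0 : ℕ) : ℤ) = -(i - ((0 : ℕ) : ℤ)) := by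
        push_cast; ring
      rw [this]; exact (dvd_neg).2 hi
    have e3 : (2 * k : ℤ) ∣ (k - 1 - i) - ((k - 1 : ℕ) : ℤ) := by
      have : ((k : ℤ) - 1 - i) - ((k - 1 : ℕ) : ℤ) = -(i - ((0 : ℕ) : ℤ)) := by
        have : ((k - 1 : ℕ) : ℤ) = k - 1 := by omega
        rw [this]; push_cast; ring
      rw [this]; exact (dvd_neg).2 hi
    rw [FA_fY_false hn hi, FA_fY_true hn e2, FB_fY_false hn hi (by omega : k - 1 < 2 * k) e1,
      FB_fY_true (by omega : k - 1 < 2 * k) e3 hn e2]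
    have hm0 := not_mid_zero hk
    have hmk : ¬ Mid k (k - 1) := by unfold Mid; omega
    have hk0 : 0 < k := by omega
    simp [hm0, hmk, hk0]
  · rcases lt_trichotomy n k with h1 | h1 | h1
    · -- 0 < n < k
      have e1 : (2 * k : ℤ) ∣ (i + (k - 1)) - ((n + k - 1 : ℕ) : ℤ) := by
        have : (i + ((k : ℤ) - 1)) - ((n + k - 1 : ℕ) : ℤ) = i - n := by
          have : ((n + k - 1 : ℕ) : ℤ) = n + k - 1 := by omega
          rw [this]; ring
        rw [this]; exact hi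
      have e2 : (2 * k : ℤ) ∣ ((k - 1 - i) - (k - 1)) - ((2 * k - n : ℕ) : ℤ) := by
        have : (((k : ℤ) - 1 - i) - (k - 1)) - ((2 * k - n : ℕ) : ℤ) = -(i - n) - 2 * k := by
          have : ((2 * k - n : ℕ) : ℤ) = 2 * k - n := by omega
          rw [this]; ring
        rw [this]; exact dvd_sub ((dvd_neg).2 hi) h2k
      have e3 : (2 * k : ℤ) ∣ (k - 1 - i) - ((k - 1 - n : ℕ) : ℤ) := by
        have : ((k : ℤ) - 1 - i) - ((k - 1 - n : ℕ) : ℤ) = -(i - n) := by
          have : ((k - 1 - n : ℕ) : ℤ) = k - 1 - n := by omega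
          rw [this]; ring
        rw [this]; exact (dvd_neg).2 hi
      rw [FA_fY_false hn hi, FA_fY_true (by omega : 2 * k - n < 2 * k) e2,
        FB_fY_false hn hi (by omega : n + k - 1 < 2 * k) e1,
        FB_fY_true (by omega : k - 1 - n < 2 * k) e3 (by omega : 2 * k - n < 2 * k) e2]
      have c1 : ¬ (n + k - 1 < k) := by omega
      have c2 : ¬ (2 * k - n < k) := by omega
      have c3 : k - 1 - n < k := by omega
      have c4 : n ≠ 0 := by omega
      have hm := mid_symm h1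
      by_cases hm' : Mid k n
      · simp [c1, c2, c3, c4, h1, hm', hm.2 hm']
      · have : ¬ Mid k (k - 1 - n) := fun h3 => hm' (hm.1 h3)
        simp [c1, c2, c4, h1, hm', this]
    · -- n = k
      subst h1
      have e1 : (2 * n : ℤ) ∣ (i + (n - 1)) - ((2 * n - 1 : ℕ) : ℤ) := by
        have : (i + ((n : ℤ) - 1)) - ((2 * n - 1 : ℕ) : ℤ) = i - n := by
          have : ((2 * n - 1 : ℕ) : ℤ) = 2 * n - 1 := by omega
          rw [this]; ring
        rw [this]; exact hi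
      have e2 : (2 * n : ℤ) ∣ ((n - 1 - i) - (n - 1)) - (n : ℤ) := by
        have : (((n : ℤ) - 1 - i) - (n - 1)) - (n : ℤ) = -(i - n) - 2 * n := by ring
        rw [this]; exact dvd_sub ((dvd_neg).2 hi) h2k
      have e3 : (2 * n : ℤ) ∣ (n - 1 - i) - ((2 * n - 1 : ℕ) : ℤ) := by
        have : ((n : ℤ) - 1 - i) - ((2 * n - 1 : ℕ) : ℤ) = -(i - n) - 2 * n := by
          have : ((2 * n - 1 : ℕ) : ℤ) = 2 * n - 1 := by omega
          rw [this]; ring
        rw [this]; exact dvd_sub ((dvd_neg).2 hi) h2k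
      rw [FA_fY_false hn hi, FA_fY_true hn e2,
        FB_fY_false hn hi (by omega : 2 * n - 1 < 2 * n) e1,
        FB_fY_true (by omega : 2 * n - 1 < 2 * n) e3 hn e2]
      have c1 : ¬ (2 * n - 1 < n) := by omega
      have c4 : n ≠ 0 := by omega
      simp [c1, c4]
    · -- k < n
      have e1 : (2 * k : ℤ) ∣ (i + (k - 1)) - ((n - k - 1 : ℕ) : ℤ) := by
        have : (i + ((k : ℤ) - 1)) - ((n - k - 1 : ℕ) : ℤ) = (i - n) + 2 * k := by
          have : ((n - k - 1 : ℕ) : ℤ) = n - k - 1 := by omega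
          rw [this]; ring
        rw [this]; exact dvd_add hi h2k
      have e2 : (2 * k : ℤ) ∣ ((k - 1 - i) - (k - 1)) - ((2 * k - n : ℕ) : ℤ) := by
        have : (((k : ℤ) - 1 - i) - (k - 1)) - ((2 * k - n : ℕ) : ℤ) = -(i - n) - 2 * k := by
          have : ((2 * k - n : ℕ) : ℤ) = 2 * k - n := by omega
          rw [this]; ring
        rw [this]; exact dvd_sub ((dvd_neg).2 hi) h2k
      have e3 : (2 * k : ℤ) ∣ (k - 1 - i) - ((3 * k - 1 - n : ℕ) : ℤ) := by
        have : ((k : ℤ) - 1 - i) - ((3 * k - 1 - n : ℕ) : ℤ) = -(i - n) - 2 * k := by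
          have : ((3 * k - 1 - n : ℕ) : ℤ) = 3 * k - 1 - n := by omega
          rw [this]; ring
        rw [this]; exact dvd_sub ((dvd_neg).2 hi) h2k
      rw [FA_fY_false hn hi, FA_fY_true (by omega : 2 * k - n < 2 * k) e2,
        FB_fY_false hn hi (by omega : n - k - 1 < 2 * k) e1,
        FB_fY_true (by omega : 3 * k - 1 - n < 2 * k) e3 (by omega : 2 * k - n < 2 * k) e2]
      have c1 : n - k - 1 < k := by omega
      have c2 : 2 * k - n < k := by omega
      have c3 : ¬ (3 * k - 1 - n < k) := by omega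
      have c4 : n ≠ 0 := by omega
      have c5 : ¬ (n < k) := by omega
      have c6 : n ≠ k := by omega
      have c7 : n - k - 1 = k - 1 - (2 * k - n) := by omega
      have hm := mid_symm c2
      rw [← c7] at hm
      by_cases hm' : Mid k (2 * k - n)
      · simp [c1, c2, c3, c4, c5, c6, hm', hm.2 hm']
      · have : ¬ Mid k (n - k - 1) := fun h3 => hm' (hm.1 h3)
        simp [c2, c3, c4, c5, c6, hm', this]

lemma valid_fY {k : ℕ} (hk : 3 ≤ k) (i : ℤ) (e : Bool) : Valid (patg k (fY k) i e) := by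
  have h : ∀ i : ℤ, Valid (patg k (fY k) i false) := by
    intro i
    obtain ⟨n, hn, hi⟩ := exists_res k (by omega) i
    rw [patg_fY_false hk hn hi]
    split_ifs <;> simp [Valid]
  cases e
  · exact h i
  · have := patg_swp k (fY k) (k - 1 - i) false
    simp only [sub_sub_cancel, Bool.not_false] at this
    rw [this]; exact (h _).swp

lemma patg_zero (k : ℕ) (i : ℤ) (e : Bool) : patg k (fun _ _ => false) i e = (0,0,0,0) := by
  unfold patg FAg FBg; simp

end Pool.Agent.Lib.MP_f406e2_lc
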