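import Mathlib

/-!
# Rotational divisibility of the sphere: definitions

Points of `ℝ³` are written `(ζ, z) ∈ ℂ × ℝ`.
-/

open Complex ComplexConjugate

namespace Pool.Agent.Lib.MP_f406e2_lc

/-- points of 3-space, `(x + i y, z)` -/
abbrev P := ℂ × ℝ

/-- the unit sphere -/
def Sph : Set P := {q | Complex.normSq q.1 + q.2 ^ 2 = 1}

/-- the inner product -/
noncomputable def ip (q u : P) : ℝ := q.1.re * u.1.re + q.1.im * u.1.im + q.2 * u.2

/-- `ω = exp (i π / k)`, a primitive `2k`-th root of unity -/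
noncomputable def om (k : ℕ) : ℂ := Complex.exp (Real.pi / k * Complex.I)

/-- rotation about the `z` axis by the angle `i π / k` -/
noncomputable def rot (k : ℕ) (i : ℤ) (q : P) : P := (om k ^ i * q.1, q.2)

/-- rotation by `π` about the horizontal axis at angle `π / (2k)` -/
noncomputable def flp (k : ℕ) (q : P) : P := (om k * conj q.1, -q.2)

/-- rotation by `π` about the `y` axis -/
noncomputable def Yf (q : P) : P := (-conj q.1, -q.2)

/-- the general element of the dihedral group of order `4k` -/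
noncomputable def act (k : ℕ) (i : ℤ) (e : Bool) (q : P) : P :=
  rot k i (if e then flp k q else q)

/-- the unit vector on the `y` axis -/
def ey : P := (Complex.I, 0)

/-- `v · q` for `v = (a, 0, b)` -/
noncomputable def vdot (a b : ℕ) (q : P) : ℝ := a * q.1.re + b * q.2

/-- rotation by `π` about the axis `v = (a, 0, b)` -/
noncomputable def rr (a b : ℕ) (q : P) : P :=
  (((2 / ((a : ℝ) ^ 2 + (b : ℝ) ^ 2) * vdot a b q * a : ℝ) : ℂ) - q.1,
    2 / ((a : ℝ) ^ 2 + (b : ℝ) ^ 2) * vdot a b q * b - q.2)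

/-- the index `j` is one of the (one or two) middle ones in `0, …, k - 1` -/
def Mid (k j : ℕ) : Prop := k ≤ 2 * j + 2 ∧ 2 * j ≤ k

instance (k j : ℕ) : Decidable (Mid k j) := by unfold Mid; infer_instance

/-- the flip, applied only if `j` is a middle index -/
noncomputable def psi (k : ℕ) (j : ℕ) (q : P) : P := if Mid k j then flp k q else q

open Classical in
/-- number of `j < k` with `R^{-j} y ∈ A` -/
noncomputable def FA (k : ℕ) (A : Set P) (y : P) : ℕ :=
  ∑ j ∈ Finset.range k, if rot k (-(j : ℤ)) y ∈ A then 1 else 0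

open Classical in
/-- number of `j < k` with `φ^{[j middle]} R^{-j} y ∈ A` -/
noncomputable def FB (k : ℕ) (A : Set P) (y : P) : ℕ :=
  ∑ j ∈ Finset.range k, if psi k j (rot k (-(j : ℤ)) y) ∈ A then 1 else 0

/-- `q` has trivial stabiliser in the dihedral group -/
def Free (k : ℕ) (q : P) : Prop :=
  ∀ (i : ℤ) (e : Bool), act k i e q = q → e = false ∧ (2 * k : ℤ) ∣ i

/-- The height function coming from a valuation of `ℂ` over a prime `p = a² + b²` not dividing
`2k`, and the level points. -/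
structure Height (k a b : ℕ) where
  Γ : Type
  [inst : LinearOrderedCommGroupWithZero Γ]
  N : P → Γ
  c : Γ
  lev : P → Prop
  one_lt_c : 1 < c
  N_rot : ∀ (i : ℤ) (q : P), N (rot k i q) = N q
  N_flp : ∀ q : P, N (flp k q) = N q
  N_neg : ∀ q : P, N (-q) = N q
  lev_neg : ∀ q : P, lev (-q) ↔ lev q
  lev_Y : ∀ q : P, lev (Yf q) ↔ lev q
  one_le : ∀ q ∈ Sph, 1 ≤ N q
  up : ∀ q ∈ Sph, ¬ lev q → N (rr a b q) = c * N q
  lev_of_up : ∀ q ∈ Sph, ¬ lev q → lev (rr a b q)
  lev_r : ∀ q ∈ Sph, N (rr a b q) = N q → (lev (rr a b q) ↔ lev q)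
  two_lev : ∀ q ∈ Sph, ∀ i : ℤ, lev q → lev (rot k i q) → ¬ (2 * k : ℤ) ∣ i → N q = 1
  three_lev : ∀ q ∈ Sph, ∀ i j : ℤ, lev q → lev (rot k i q) → lev (rot k j q) →
    ¬ (2 * k : ℤ) ∣ i → ¬ (2 * k : ℤ) ∣ j → (2 * k : ℤ) ∣ i - j
  nonfree : ∀ q ∈ Sph, ¬ Free k q → N q = 1 ∧
    ((∀ i e, ¬ lev (act k i e q)) ∨ ∃ i : ℤ, q = rot k i ey)
  fix_r : ∀ q ∈ Sph, rr a b q = q → N q ≠ 1
  fix_rY : ∀ q ∈ Sph, rr a b q = Yf q → N q ≠ 1
  N_ey : N ey = 1
  lev_ey : ∀ i : ℤ, lev (rot k i ey) ↔ (k : ℤ) ∣ i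

attribute [instance] Height.inst

end Pool.Agent.Lib.MP_f406e2_lc
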