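import Pool.Agent.Lib.MP_f406e2_lc.Level1

/-! Existence of a solution on all orbits (finite induction and compactness). -/

open Complex ComplexConjugate

namespace Pool.Agent.Lib.MP_f406e2_lc

variable {k a b : ℕ} (H : Height k a b)

/-- values of `FA`, `FB` from the pattern -/
lemma pat_fst (k : ℕ) (A : Set P) (y : P) : (pat k A y).1 = FA k A y := rfl

include H in
theorem finite_solution (hk : 3 ≤ k) (ha : 0 < a) : ∀ (n : ℕ) (F : Finset P), F.card ≤ n →
    (∀ y ∈ F, y ∈ Sph) → (∀ y ∈ F, ∀ (i : ℤ) (e : Bool), act k i e y ∈ F) →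
    ∃ A : Set P, (∀ y ∈ F, Valid (pat k A y)) ∧
      (∀ y ∈ F, rr a b y ∈ F → FA k A y + FB k A (rr a b y) = 1) := by
  classical
  have hk0 : 0 < k := by omega
  have hab := hab_ne b ha
  obtain ⟨A1, hA1, hA2⟩ := level_one H hk ha
  intro n
  induction n with
  | zero =>
    intro F hF _ _
    have : F = ∅ := Finset.card_eq_zero.1 (Nat.le_zero.1 hF)
    subst this
    exact ⟨∅, by simp, by simp⟩
  | succ n ih =>
    intro F hF hS hact
    rcases F.eq_empty_or_nonempty with rfl | hne
    · exact ⟨∅, by simp, by simp⟩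
    obtain ⟨q, hq, hmax⟩ := F.exists_max_image H.N hne
    by_cases hN1 : H.N q = 1
    · -- all heights are one
      have hN : ∀ y ∈ F, H.N y = 1 := by
        intro y hy
        have h1 := hmax y hy
        rw [hN1] at h1
        exact le_antisymm h1 (H.one_le y (hS y hy))
      exact ⟨A1, fun y hy => hA1 y (hS y hy) (hN y hy),
        fun y hy hy' => hA2 y (hS y hy) (hN y hy) (hN _ hy')⟩
    -- a vertex of height `≠ 1`
    have hfree : Free k q := by
      by_contra hf
      exact hN1 (H.nonfree q (hS q hq) hf).1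
    have hOF : ∀ y ∈ Orb k q, y ∈ F := by
      rintro y ⟨i, e, rfl⟩; exact hact q hq i e
    have hNO : ∀ y ∈ Orb k q, H.N y = H.N q := fun y hy => H.N_Orb hy
    have hfreeO : ∀ y ∈ Orb k q, Free k y := by
      rintro y ⟨i, e, rfl⟩; exact hfree.act i e
    set F' : Finset P := F.filter (fun y => y ∉ Orb k q) with hF'
    have hcard : F'.card ≤ n := by
      have h1 : F' ⊂ F := by
        rw [Finset.filter_ssubset]
        exact ⟨q, hq, fun h => h (self_mem_Orb k q)⟩
      have := Finset.card_lt_card h1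
      omega
    obtain ⟨A', hV', hL'⟩ := ih F' hcard
      (fun y hy => hS y (Finset.mem_filter.1 hy).1)
      (by
        intro y hy i e
        rw [hF', Finset.mem_filter] at hy ⊢
        refine ⟨hact y hy.1 i e, fun h => hy.2 ?_⟩
        have := Orb_act h (if e then i else -i) e
        rwa [act_inv] at this)
    -- gluing
    have glue : ∀ S : Set P, S ⊆ Orb k q →
        (∀ y ∈ Orb k q, pat k ((A' \ Orb k q) ∪ S) y = pat k S y) ∧
        (∀ y, y ∉ Orb k q → pat k ((A' \ Orb k q) ∪ S) y = pat k A' y) := by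
      intro S hS'
      constructor
      · intro y hy
        refine pat_congr hk0 fun i e => ?_
        have h1 := Orb_act hy i e
        constructor
        · rintro (h | h)
          · exact absurd h1 h.2
          · exact h
        · intro h; exact Or.inr h
      · intro y hy
        refine pat_congr hk0 fun i e => ?_
        have h1 : act k i e y ∉ Orb k q := by
          intro h
          have := Orb_act h (if e then i else -i) e
          rw [act_inv] at this
          exact hy this
        constructor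
        · rintro (h | h)
          · exact h.1
          · exact absurd (hS' h) h1
        · intro h; exact Or.inl ⟨h, h1⟩
    -- non-level points of the orbit are not linked inside `F`
    have hup : ∀ y ∈ Orb k q, rr a b y ∈ F → H.lev y := by
      intro y hy hy'
      by_contra hl
      have h1 := H.lt_up (hS y (hOF y hy)) hl
      rw [hNO y hy] at h1
      exact absurd (hmax _ hy') (not_le.2 h1)
    have hFA' : ∀ (A : Set P) (y : P) (x : ℕ × ℕ × ℕ × ℕ), pat k A y = x →
        FA k A y = x.1 ∧ FA k A (Yf y) = x.2.1 ∧ FB k A y = x.2.2.1 ∧ FB k A (Yf y) = x.2.2.2 := by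
      rintro A y x rfl; exact ⟨rfl, rfl, rfl, rfl⟩
    by_cases hlink : ∃ q0 ∈ Orb k q, H.lev q0 ∧ rr a b q0 ∈ F
    swap
    · -- no links: source
      have hno : ∀ y ∈ Orb k q, rr a b y ∉ F := by
        intro y hy hy'
        exact hlink ⟨y, hy, hup y hy hy', hy'⟩
      obtain ⟨g1, g2⟩ := glue ∅ (Set.empty_subset _)
      refine ⟨(A' \ Orb k q) ∪ ∅, ?_, ?_⟩
      · intro y hy
        by_cases hyO : y ∈ Orb k q
        · rw [g1 y hyO]
          have : pat k ∅ y = (0,0,0,0) := by
            unfold pat FA FB; simp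
          rw [this]; simp [Valid]
        · rw [g2 y hyO]
          exact hV' y (Finset.mem_filter.2 ⟨hy, hyO⟩)
      · intro y hy hy'
        by_cases hyO : y ∈ Orb k q
        · exact absurd hy' (hno y hyO)
        · by_cases hyO' : rr a b y ∈ Orb k q
          · exact absurd (by rw [rr_rr a b hab]; exact hy) (hno _ hyO')
          · rw [← pat_fst, g2 y hyO, pat_fst]
            have e2 := (hFA' _ _ _ (g2 _ hyO')).2.2.1
            rw [e2]
            exact hL' y (Finset.mem_filter.2 ⟨hy, hyO⟩) (Finset.mem_filter.2 ⟨hy', hyO'⟩)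
    obtain ⟨q0, hq0, hl0, hr0⟩ := hlink
    have hS0 : q0 ∈ Sph := hS q0 (hOF q0 hq0)
    have hN0 : H.N q0 ≠ 1 := by rw [hNO q0 hq0]; exact hN1
    have huniq : ∀ y ∈ Orb k q, H.lev y → y = q0 ∨ y = Yf q0 := by
      intro y hy hl
      exact H.uniq_lev hk0 hS0 hl0 hN0 (by rw [Orb_eq hq0]; exact hy) hl
    -- it suffices to find a good state
    have reduce : ∀ S : Set P, S ⊆ Orb k q → (∀ y ∈ Orb k q, Valid (pat k S y)) →
        (FA k ((A' \ Orb k q) ∪ S) q0 + FB k ((A' \ Orb k q) ∪ S) (rr a b q0) = 1) →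
        (FA k ((A' \ Orb k q) ∪ S) (Yf q0) + FB k ((A' \ Orb k q) ∪ S) (rr a b (Yf q0)) = 1) →
        (FA k ((A' \ Orb k q) ∪ S) (rr a b q0) + FB k ((A' \ Orb k q) ∪ S) q0 = 1) →
        (FA k ((A' \ Orb k q) ∪ S) (rr a b (Yf q0)) + FB k ((A' \ Orb k q) ∪ S) (Yf q0) = 1) →
        ∃ A : Set P, (∀ y ∈ F, Valid (pat k A y)) ∧
          (∀ y ∈ F, rr a b y ∈ F → FA k A y + FB k A (rr a b y) = 1) := by
      intro S hSO hSv c1 c2 c3 c4
      obtain ⟨g1, g2⟩ := glue S hSO
      refine ⟨(A' \ Orb k q) ∪ S, ?_, ?_⟩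
      · intro y hy
        by_cases hyO : y ∈ Orb k q
        · rw [g1 y hyO]; exact hSv y hyO
        · rw [g2 y hyO]
          exact hV' y (Finset.mem_filter.2 ⟨hy, hyO⟩)
      · intro y hy hy'
        by_cases hyO : y ∈ Orb k q
        · rcases huniq y hyO (hup y hyO hy') with rfl | rfl
          · exact c1
          · exact c2
        · by_cases hyO' : rr a b y ∈ Orb k q
          · have hyr : rr a b (rr a b y) = y := rr_rr a b hab y
            rcases huniq _ hyO' (hup _ hyO' (by rw [hyr]; exact hy)) with h | h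
            · have : y = rr a b q0 := by rw [← h, hyr]
              rw [h, this]; exact c3
            · have : y = rr a b (Yf q0) := by rw [← h, hyr]
              rw [h, this]; exact c4
          · have e1 := (hFA' _ _ _ (g2 _ hyO)).1
            have e2 := (hFA' _ _ _ (g2 _ hyO')).2.2.1
            rw [e1, e2]
            exact hL' y (Finset.mem_filter.2 ⟨hy, hyO⟩) (Finset.mem_filter.2 ⟨hy', hyO'⟩)
    have hYr : rr a b (Yf q0) = Yf (rr a b q0) := (Yf_rr a b q0).symm
    by_cases hself : rr a b q0 ∈ Orb k q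
    · -- self-link
      have hl' : H.lev (rr a b q0) :=
        (H.lev_r q0 hS0 (by rw [hNO _ hself, hNO _ hq0])).2 hl0
      rcases huniq _ hself hl' with h | h
      · obtain ⟨S, s1, s2, s3⟩ := state_A hk (hfreeO q0 hq0)
          (x := (1,0,0,1)) (by simp [Valid])
        rw [Orb_eq hq0] at s1 s3
        obtain ⟨p1, p2, p3, p4⟩ := hFA' _ _ _ (((glue S s1).1 q0 hq0).trans s2)
        apply reduce S s1 s3
        · rw [h, p1, p3]; rfl
        · rw [hYr, h, p2, p4]; rfl
        · rw [h, p1, p3]; rfl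
        · rw [hYr, h, p2, p4]; rfl
      · obtain ⟨S, s1, s2, s3⟩ := state_A hk (hfreeO q0 hq0)
          (x := (1,0,1,0)) (by simp [Valid])
        rw [Orb_eq hq0] at s1 s3
        obtain ⟨p1, p2, p3, p4⟩ := hFA' _ _ _ (((glue S s1).1 q0 hq0).trans s2)
        apply reduce S s1 s3
        · rw [h, p1, p4]; rfl
        · rw [hYr, h, Yf_Yf, p2, p3]; rfl
        · rw [h, p2, p3]; rfl
        · rw [hYr, h, Yf_Yf, p1, p4]; rfl
    · -- link to another vertex
      have hr0' : rr a b q0 ∈ F' := Finset.mem_filter.2 ⟨hr0, hself⟩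
      have hv := hV' _ hr0'
      obtain ⟨S, s1, s2, s3⟩ := state_A hk (hfreeO q0 hq0) (x := lk (pat k A' (rr a b q0))) hv.lk
      rw [Orb_eq hq0] at s1 s3
      obtain ⟨p1, p2, p3, p4⟩ := hFA' _ _ _ (((glue S s1).1 q0 hq0).trans s2)
      obtain ⟨r1, r2, r3, r4⟩ := hFA' _ _ _ ((glue S s1).2 _ hself)
      have hle : (pat k A' (rr a b q0)).1 ≤ 1 ∧ (pat k A' (rr a b q0)).2.1 ≤ 1 ∧
          (pat k A' (rr a b q0)).2.2.1 ≤ 1 ∧ (pat k A' (rr a b q0)).2.2.2 ≤ 1 := by
        rcases hv with h | h | h | h | h | h <;> rw [h] <;> simp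
      obtain ⟨l1, l2, l3, l4⟩ := hle
      have q1 : (lk (pat k A' (rr a b q0))).1 = 1 - (pat k A' (rr a b q0)).2.2.1 := rfl
      have q2 : (lk (pat k A' (rr a b q0))).2.1 = 1 - (pat k A' (rr a b q0)).2.2.2 := rfl
      have q3 : (lk (pat k A' (rr a b q0))).2.2.1 = 1 - (pat k A' (rr a b q0)).1 := rfl
      have q4 : (lk (pat k A' (rr a b q0))).2.2.2 = 1 - (pat k A' (rr a b q0)).2.1 := rfl
      apply reduce S s1 s3
      · rw [p1, r3, q1]; omega
      · rw [hYr, p2, r4, q2]; omega
      · rw [p3, r1, q3]; omega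
      · rw [hYr, p4, r2, q4]; omega

/-- dihedral orbits are finite -/
lemma Orb_finite {k : ℕ} (hk : 0 < k) (q : P) : (Orb k q).Finite := by
  have h1 : (Set.Finite (Set.image (fun p : ℕ × Bool => act k p.1 p.2 q)
      ((Set.Iio (2 * k)) ×ˢ (Set.univ : Set Bool)))) :=
    ((Set.finite_Iio _).prod Set.finite_univ).image _
  refine h1.subset ?_
  rintro y ⟨i, e, rfl⟩
  obtain ⟨n, hn, hi⟩ := exists_res k hk i
  exact ⟨(n, e), ⟨hn, Set.mem_univ _⟩, act_congr hk (dvd_neg_sub.1 hi) e q⟩

lemma continuous_ite_mem (z : P) :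
    Continuous (fun A : P → Bool =>
      @ite ℕ (z ∈ {x | A x = true}) (Classical.propDecidable (z ∈ {x | A x = true})) 1 0) := by
  have h : Continuous ((fun t : Bool => if t = true then (1 : ℕ) else 0) ∘
      (fun A : P → Bool => A z)) := (continuous_of_discreteTopology).comp (continuous_apply z)
  refine h.congr fun A => ?_
  simp only [Set.mem_ofPred_eq, Function.comp]
  by_cases h : A z = true
  · rw [if_pos h, if_pos h]
  · rw [if_neg h, if_neg h]

lemma continuous_FA (k : ℕ) (y : P) :
    Continuous (fun A : P → Bool => FA k {x | A x = true} y) := by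
  unfold FA
  exact continuous_finsetSum _ fun j _ => continuous_ite_mem _

lemma continuous_FB (k : ℕ) (y : P) :
    Continuous (fun A : P → Bool => FB k {x | A x = true} y) := by
  unfold FB
  exact continuous_finsetSum _ fun j _ => continuous_ite_mem _

include H in
/-- a solution on the whole sphere -/
theorem exists_solution (hk : 3 ≤ k) (ha : 0 < a) :
    ∃ A : Set P, ∀ x ∈ Sph, FA k A x + FB k A (rr a b x) = 1 := by
  classical
  have hk0 : 0 < k := by omega
  have hab := hab_ne b ha
  let Z : Sph → Set (P → Bool) := fun x =>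
    {A | FA k {y | A y = true} x.1 + FB k {y | A y = true} (rr a b x.1) = 1}
  have hZ : ∀ x, IsClosed (Z x) := by
    intro x
    have hc : Continuous (fun A : P → Bool =>
        FA k {y | A y = true} x.1 + FB k {y | A y = true} (rr a b x.1)) :=
      (continuous_FA k x.1).add (continuous_FB k _)
    exact (isClosed_discrete ({1} : Set ℕ)).preimage hc
  have hfin : ∀ s : Finset Sph, (⋂ i ∈ s, Z i).Nonempty := by
    intro s
    let O : Set P := ⋃ x ∈ s, (Orb k x.1 ∪ Orb k (rr a b x.1))
    have hO : O.Finite := by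
      refine Set.Finite.biUnion s.finite_toSet fun x _ => ?_
      exact (Orb_finite hk0 _).union (Orb_finite hk0 _)
    obtain ⟨A, -, hA⟩ := finite_solution H hk ha hO.toFinset.card hO.toFinset le_rfl
      (by
        intro y hy
        rw [Set.Finite.mem_toFinset] at hy
        simp only [O, Set.mem_iUnion] at hy
        obtain ⟨x, _, hy | hy⟩ := hy
        · obtain ⟨i, e, rfl⟩ := hy; exact act_mem_Sph x.2
        · obtain ⟨i, e, rfl⟩ := hy; exact act_mem_Sph (rr_mem_Sph hab x.2))
      (by
        intro y hy i e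
        rw [Set.Finite.mem_toFinset] at hy ⊢
        simp only [O, Set.mem_iUnion] at hy ⊢
        obtain ⟨x, hx, hy | hy⟩ := hy
        · exact ⟨x, hx, Or.inl (Orb_act hy i e)⟩
        · exact ⟨x, hx, Or.inr (Orb_act hy i e)⟩)
    refine ⟨fun y => decide (y ∈ A), ?_⟩
    simp only [Set.mem_iInter]
    intro x hx
    have h1 : {y : P | (decide (y ∈ A)) = true} = A := by
      ext y; simp
    change FA k {y | (decide (y ∈ A)) = true} x.1
      + FB k {y | (decide (y ∈ A)) = true} (rr a b x.1) = 1
    rw [h1]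
    apply hA
    · rw [Set.Finite.mem_toFinset]
      simp only [O, Set.mem_iUnion]
      exact ⟨x, hx, Or.inl (self_mem_Orb k _)⟩
    · rw [Set.Finite.mem_toFinset]
      simp only [O, Set.mem_iUnion]
      exact ⟨x, hx, Or.inr (self_mem_Orb k _)⟩
  obtain ⟨A, hA⟩ := CompactSpace.iInter_nonempty hZ hfin
  refine ⟨{y | A y = true}, fun x hx => ?_⟩
  exact Set.mem_iInter.1 hA ⟨x, hx⟩

end Pool.Agent.Lib.MP_f406e2_lc
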