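import Pool.Agent.Lib.MP_f406e2_lc.Defs

/-!
# From the tiling equation to congruent pieces of the sphere
-/

set_option autoImplicit false

open Complex ComplexConjugate Matrix

namespace Pool.Agent.Lib.MP_f406e2_lc

namespace FinalAux

/-- coordinates -/
noncomputable def cd (x : Fin 3 → ℝ) : P := (⟨x 0, x 1⟩, x 2)

/-- the map `f` is given by a rotation -/
def Rep (f : P → P) : Prop :=
  ∃ g ∈ Matrix.specialOrthogonalGroup (Fin 3) ℝ, ∀ x, cd (g *ᵥ x) = f (cd x)

lemma Rep.comp {f f' : P → P} (h : Rep f) (h' : Rep f') : Rep (fun q => f (f' q)) := by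
  obtain ⟨g, hg, h⟩ := h
  obtain ⟨g', hg', h'⟩ := h'
  refine ⟨g * g', mul_mem hg hg', fun x => ?_⟩
  rw [← Matrix.mulVec_mulVec, h, h']

lemma rep_id : Rep (fun q => q) := ⟨1, one_mem _, fun x => by rw [Matrix.one_mulVec]⟩

lemma mem_SO (M : Matrix (Fin 3) (Fin 3) ℝ) (h1 : M * M.transpose = 1) (h2 : M.det = 1) :
    M ∈ Matrix.specialOrthogonalGroup (Fin 3) ℝ := by
  rw [Matrix.mem_specialOrthogonalGroup_iff, Matrix.mem_orthogonalGroup_iff]
  exact ⟨h1, h2⟩

lemma rep_rotc (w : ℂ) (hw : w.re ^ 2 + w.im ^ 2 = 1) : Rep (fun q => (w * q.1, q.2)) := by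
  refine ⟨!![w.re, -w.im, 0; w.im, w.re, 0; 0, 0, 1], mem_SO _ ?_ ?_, fun x => ?_⟩
  · ext i j
    fin_cases i <;> fin_cases j <;>
      simp [Matrix.mul_apply, Fin.sum_univ_three] <;> nlinarith
  · rw [Matrix.det_fin_three]
    simp
    nlinarith
  · unfold cd
    refine Prod.ext (Complex.ext ?_ ?_) ?_
    · simp [Matrix.mulVec, dotProduct, Fin.sum_univ_three]; ring
    · simp [Matrix.mulVec, dotProduct, Fin.sum_univ_three]; ring
    · simp [Matrix.mulVec, dotProduct, Fin.sum_univ_three]

lemma normSq_om (k : ℕ) : (om k).re ^ 2 + (om k).im ^ 2 = 1 := by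
  have h : ‖om k‖ = 1 := by
    unfold om
    have := Complex.norm_exp_ofReal_mul_I (Real.pi / k)
    push_cast at this
    exact this
  have h2 := Complex.normSq_apply (om k)
  rw [Complex.normSq_eq_norm_sq, h] at h2
  nlinarith

lemma norm_om (k : ℕ) : ‖om k‖ = 1 := by
  unfold om
  have := Complex.norm_exp_ofReal_mul_I (Real.pi / k)
  push_cast at this
  exact this

lemma rep_rot (k : ℕ) (i : ℤ) : Rep (rot k i) := by
  have h : ‖om k ^ i‖ = 1 := by rw [norm_zpow, norm_om, _root_.one_zpow]
  have h2 := Complex.normSq_apply (om k ^ i)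
  rw [Complex.normSq_eq_norm_sq, h] at h2
  exact rep_rotc (om k ^ i) (by nlinarith)

lemma rep_flp (k : ℕ) : Rep (flp k) := by
  have hw := normSq_om k
  refine ⟨!![(om k).re, (om k).im, 0; (om k).im, -(om k).re, 0; 0, 0, -1], mem_SO _ ?_ ?_,
    fun x => ?_⟩
  · ext i j
    fin_cases i <;> fin_cases j <;>
      simp [Matrix.mul_apply, Fin.sum_univ_three] <;> nlinarith
  · rw [Matrix.det_fin_three]
    simp
    nlinarith
  · unfold cd flp
    refine Prod.ext (Complex.ext ?_ ?_) ?_
    · simp [Matrix.mulVec, dotProduct, Fin.sum_univ_three]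
    · simp [Matrix.mulVec, dotProduct, Fin.sum_univ_three]; ring
    · simp [Matrix.mulVec, dotProduct, Fin.sum_univ_three]

lemma rep_rr (a b : ℕ) (ha : 0 < a) : Rep (rr a b) := by
  have hp : (0 : ℝ) < (a : ℝ) ^ 2 + (b : ℝ) ^ 2 := by positivity
  set p : ℝ := (a : ℝ) ^ 2 + (b : ℝ) ^ 2 with hpdef
  refine ⟨!![2 / p * a * a - 1, 0, 2 / p * a * b; 0, -1, 0; 2 / p * a * b, 0, 2 / p * b * b - 1],
    mem_SO _ ?_ ?_, fun x => ?_⟩
  · ext i j
    fin_cases i <;> fin_cases j <;>
      simp [Matrix.mul_apply, Fin.sum_univ_three] <;> field_simp <;> rw [hpdef] <;> ring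
  · rw [Matrix.det_fin_three]
    simp
    field_simp
    rw [hpdef]
    ring
  · unfold cd rr vdot
    rw [← hpdef]
    refine Prod.ext (Complex.ext ?_ ?_) ?_
    · simp [Matrix.mulVec, dotProduct, Fin.sum_univ_three]; ring
    · simp [Matrix.mulVec, dotProduct, Fin.sum_univ_three]
    · simp [Matrix.mulVec, dotProduct, Fin.sum_univ_three]; ring

lemma rep_psi (k j : ℕ) : Rep (psi k j) := by
  by_cases h : Mid k j
  · have : psi k j = flp k := by ext1 q; simp [psi, h]
    rw [this]; exact rep_flp k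
  · have : psi k j = fun q => q := by ext1 q; simp [psi, h]
    rw [this]; exact rep_id

/-- the maps defining the pieces -/
noncomputable def pm (k a b : ℕ) (i : ℕ) (q : P) : P :=
  if i < k then rot k (-(i : ℤ)) q else psi k (i - k) (rot k (-((i - k : ℕ) : ℤ)) (rr a b q))

lemma rep_pm (k a b i : ℕ) (ha : 0 < a) : Rep (pm k a b i) := by
  by_cases h : i < k
  · have : pm k a b i = rot k (-(i : ℤ)) := by ext1 q; simp [pm, h]
    rw [this]; exact rep_rot k _
  · have : pm k a b i = fun q => psi k (i - k) (rot k (-((i - k : ℕ) : ℤ)) (rr a b q)) := by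
      ext1 q; simp [pm, h]
    rw [this]
    exact (rep_psi k _).comp ((rep_rot k _).comp (rep_rr a b ha))

lemma cd_mem (x : Fin 3 → ℝ) : cd x ∈ Sph ↔ x ⬝ᵥ x = 1 := by
  unfold cd Sph
  simp [Complex.normSq_apply, dotProduct, Fin.sum_univ_three]
  constructor <;> intro h <;> nlinarith

lemma measurable_cd : Measurable cd := by
  unfold cd
  apply Measurable.prodMk
  · apply Continuous.measurable
    have : (fun x : Fin 3 → ℝ => (⟨x 0, x 1⟩ : ℂ)) =
        fun x => ((x 0 : ℝ) : ℂ) + ((x 1 : ℝ) : ℂ) * Complex.I := by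
      ext1 x
      apply Complex.ext <;> simp
    rw [this]
    fun_prop
  · fun_prop

open Classical in
lemma sum_eq (k a b : ℕ) (A : Set P) (y : P) :
    ∑ i ∈ Finset.range (2 * k), (if pm k a b i y ∈ A then 1 else 0) =
      FA k A y + FB k A (rr a b y) := by
  rw [two_mul, Finset.sum_range_add]
  unfold FA FB
  congr 1
  · apply Finset.sum_congr rfl
    intro i hi
    rw [Finset.mem_range] at hi
    simp [pm, hi]
  · apply Finset.sum_congr rfl
    intro i hi
    simp [pm]

end FinalAux

open FinalAux in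
theorem final (k a b : ℕ) (hk : 1 ≤ k) (ha : 0 < a) (A : Set P) (hA : MeasurableSet A)
    (hsub : A ⊆ Sph) (h : ∀ x ∈ Sph, FA k A x + FB k A (rr a b x) = 1) :
    ∃ S : Fin (2 * k) → Set (Fin 3 → ℝ), (∀ i, MeasurableSet (S i)) ∧
      (⋃ i, S i) = {x : Fin 3 → ℝ | x ⬝ᵥ x = 1} ∧ Pairwise (Function.onFun Disjoint S) ∧
      ∀ i j, ∃ g ∈ Matrix.specialOrthogonalGroup (Fin 3) ℝ, (fun x => g *ᵥ x) '' S i = S j := by
  classical
  have hrep := fun i : Fin (2 * k) => rep_pm k a b (i : ℕ) ha
  choose g hg hcd using hrep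
  have hginv : ∀ i, (g i).transpose * g i = 1 := by
    intro i
    have h1 := hg i
    rw [Matrix.mem_specialOrthogonalGroup_iff, Matrix.mem_orthogonalGroup_iff'] at h1
    exact h1.1
  have hginv' : ∀ i, g i * (g i).transpose = 1 := by
    intro i
    have h1 := hg i
    rw [Matrix.mem_specialOrthogonalGroup_iff, Matrix.mem_orthogonalGroup_iff] at h1
    exact h1.1
  have hnorm : ∀ i x, (g i *ᵥ x) ⬝ᵥ (g i *ᵥ x) = x ⬝ᵥ x := by
    intro i x
    rw [Matrix.dotProduct_mulVec, Matrix.vecMul_mulVec, hginv, Matrix.vecMul_one] 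
  refine ⟨fun i => {x | pm k a b i (cd x) ∈ A}, ?_, ?_, ?_, ?_⟩
  · intro i
    have : {x | pm k a b i (cd x) ∈ A} = (fun x => g i *ᵥ x) ⁻¹' (cd ⁻¹' A) := by
      ext x
      simp only [Set.mem_ofPred_eq, Set.mem_preimage, hcd]
    show MeasurableSet {x | pm k a b i (cd x) ∈ A}
    rw [this]
    apply measurableSet_preimage _ (measurableSet_preimage measurable_cd hA)
    apply Continuous.measurable
    fun_prop
  · ext x
    simp only [Set.mem_iUnion, Set.mem_ofPred_eq]
    constructor
    · rintro ⟨i, hi⟩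
      rw [← hcd] at hi
      have := hsub hi
      rw [cd_mem, hnorm] at this
      exact this
    · intro hx
      have h1 := h (cd x) ((cd_mem x).mpr hx)
      rw [← sum_eq] at h1
      by_contra hcon
      push Not at hcon
      have : ∑ i ∈ Finset.range (2 * k), (if pm k a b i (cd x) ∈ A then 1 else 0) = 0 := by
        apply Finset.sum_eq_zero
        intro i hi
        rw [Finset.mem_range] at hi
        have := hcon ⟨i, hi⟩
        simp only [this, if_false]
      omega
  · intro i j hij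
    rw [Function.onFun, Set.disjoint_left]
    intro x hxi hxj
    simp only [Set.mem_ofPred_eq] at hxi hxj
    have hx : cd x ∈ Sph := by
      rw [← hcd] at hxi
      have := hsub hxi
      rw [cd_mem, hnorm] at this
      rw [cd_mem]; exact this
    have h1 := h (cd x) hx
    rw [← sum_eq] at h1
    have hij' : (i : ℕ) ≠ j := fun hh => hij (Fin.ext hh)
    have h2 : ∑ l ∈ ({(i : ℕ), (j : ℕ)} : Finset ℕ), (if pm k a b l (cd x) ∈ A then 1 else 0) ≤
        ∑ l ∈ Finset.range (2 * k), (if pm k a b l (cd x) ∈ A then 1 else 0) := by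
      apply Finset.sum_le_sum_of_subset
      intro l hl
      simp only [Finset.mem_insert, Finset.mem_singleton] at hl
      rw [Finset.mem_range]
      rcases hl with rfl | rfl
      · exact i.2
      · exact j.2
    rw [Finset.sum_pair hij', if_pos hxi, if_pos hxj] at h2
    omega
  · intro i j
    refine ⟨(g j).transpose * g i, ?_, ?_⟩
    · have : (g j).transpose ∈ Matrix.specialOrthogonalGroup (Fin 3) ℝ := by
        apply mem_SO
        · rw [Matrix.transpose_transpose]; exact hginv j
        · rw [Matrix.det_transpose]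
          exact (Matrix.mem_specialOrthogonalGroup_iff.mp (hg j)).2
      exact mul_mem this (hg i)
    · ext y
      simp only [Set.mem_image, Set.mem_ofPred_eq]
      constructor
      · rintro ⟨x, hx, rfl⟩
        rw [← hcd, Matrix.mulVec_mulVec, ← mul_assoc, hginv', one_mul, hcd]
        exact hx
      · intro hy
        refine ⟨((g i).transpose * g j) *ᵥ y, ?_, ?_⟩
        · rw [← hcd, Matrix.mulVec_mulVec, ← mul_assoc, hginv', one_mul, hcd]
          exact hy
        · rw [Matrix.mulVec_mulVec]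
          have : (g j).transpose * g i * ((g i).transpose * g j) = 1 := by
            rw [mul_assoc, ← mul_assoc (g i), hginv', one_mul, hginv]
          rw [this, Matrix.one_mulVec]

end Pool.Agent.Lib.MP_f406e2_lc
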