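import Mathlib

/-!
# Proper 2-colourings for two matchings
-/

namespace Pool.Agent.Lib.MP_f406e2_lc

theorem two_color {Q : Type*} (σ τ : Q → Q) (hσ : Function.Involutive σ)
    (hτ : Function.Involutive τ) (fσ : ∀ q, σ q ≠ q) (fτ : ∀ q, τ q ≠ q) :
    ∃ c : Q → Bool, ∀ q, c (σ q) = !c q ∧ c (τ q) = !c q := by
  classical
  let S : Equiv.Perm Q := hσ.toPerm
  let T : Equiv.Perm Q := hτ.toPerm
  have hS : ∀ q, S q = σ q := fun q => rfl
  have hT : ∀ q, T q = τ q := fun q => rfl
  have hSS : S * S = 1 := by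
    ext q; simp [hS, hσ q]
  have hTT : T * T = 1 := by
    ext q; simp [hT, hτ q]
  have hSi : S⁻¹ = S := by
    rw [inv_eq_iff_mul_eq_one]; exact hSS
  have hTi : T⁻¹ = T := by
    rw [inv_eq_iff_mul_eq_one]; exact hTT
  let ρ : Equiv.Perm Q := S * T
  have hρi : ρ⁻¹ = T * S := by
    show (S * T)⁻¹ = T * S
    rw [mul_inv_rev, hSi, hTi]
  -- `S ρ^n S = ρ^(-n)`
  have hconj : ∀ n : ℤ, S * ρ ^ n = ρ ^ (-n) * S := by
    intro n
    have h1 : S * ρ * S⁻¹ = ρ⁻¹ := by
      rw [hρi, hSi]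
      show S * (S * T) * S = T * S
      rw [← mul_assoc, hSS, one_mul]
    have h2 : S * ρ ^ n * S⁻¹ = (S * ρ * S⁻¹) ^ n := (conj_zpow).symm
    rw [h1, inv_zpow', ] at h2
    rw [← h2]
    group
  have hfix : ∀ (q : Q) (n : ℤ), (ρ ^ n) q ≠ σ q := by
    intro q n h
    rcases Int.even_or_odd' n with ⟨l, hl | hl⟩
    · -- n = 2 l
      apply fσ ((ρ ^ l) q)
      have : S * ρ ^ l = ρ ^ (-l) * S := hconj l
      have h3 : σ ((ρ ^ l) q) = (ρ ^ (-l)) (σ q) := by
        have := congrArg (fun f : Equiv.Perm Q => f q) this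
        exact this
      rw [h3, ← h, ← Equiv.Perm.mul_apply, ← zpow_add]
      congr 2
      omega
    · apply fτ ((ρ ^ l) q)
      have : S * ρ ^ l = ρ ^ (-l) * S := hconj l
      have h3 : σ ((ρ ^ l) q) = (ρ ^ (-l)) (σ q) := by
        have := congrArg (fun f : Equiv.Perm Q => f q) this
        exact this
      have h4 : σ ((ρ ^ l) q) = (ρ ^ (l + 1)) q := by
        rw [h3, ← h, ← Equiv.Perm.mul_apply, ← zpow_add]
        congr 2
        omega
      have h5 : (ρ ^ (l + 1)) q = σ (τ ((ρ ^ l) q)) := by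
        rw [zpow_add, zpow_one, (Commute.refl ρ).zpow_left l |>.eq]
        rfl
      rw [h5] at h4
      exact (hσ.injective h4).symm
  let st := Equiv.Perm.SameCycle.setoid ρ
  have hrel : ∀ x y : Q, st.r x y ↔ ∃ i : ℤ, (ρ ^ i) x = y := fun x y => Iff.rfl
  let _ : LinearOrder (Quotient st) := IsWellOrder.linearOrder WellOrderingRel
  have hwd : ∀ x y : Q, st.r x y → st.r (σ x) (σ y) := by
    intro x y hxy
    obtain ⟨i, hi⟩ := (hrel x y).1 hxy
    refine (hrel _ _).2 ⟨-i, ?_⟩
    have := congrArg (fun f : Equiv.Perm Q => f x) (hconj i)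
    simp only [Equiv.Perm.mul_apply] at this
    rw [hi] at this
    exact this.symm
  let s : Quotient st → Quotient st := Quotient.map σ (fun x y h => hwd x y h)
  have hsmk : ∀ x : Q, s (Quotient.mk st x) = Quotient.mk st (σ x) := fun x => rfl
  have hss : ∀ a, s (s a) = a := by
    intro a
    induction a using Quotient.inductionOn with
    | h x => rw [hsmk, hsmk, hσ x]
  have hsf : ∀ a, s a ≠ a := by
    intro a
    induction a using Quotient.inductionOn with
    | h x =>
      rw [hsmk]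
      intro h
      have h1 : st.r (σ x) x := Quotient.exact h
      have h2 : st.r x (σ x) := st.iseqv.symm h1
      obtain ⟨i, hi⟩ := (hrel _ _).1 h2
      exact hfix x i hi
  have hτmk : ∀ x : Q, Quotient.mk st (τ x) = s (Quotient.mk st x) := by
    intro x
    rw [hsmk]
    apply Quotient.sound
    -- τ x ~ σ x : σ x = ? ρ^i (τ x)
    show st.r (τ x) (σ x)
    refine (hrel _ _).2 ⟨1, ?_⟩
    rw [zpow_one]
    show σ (τ (τ x)) = σ x
    rw [hτ x]
  have key : ∀ a : Quotient st, decide (s a < s (s a)) = !decide (a < s a) := by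
    intro a
    rw [hss]
    rcases lt_trichotomy a (s a) with h | h | h
    · simp [h, h.le]
    · exact absurd h.symm (hsf a)
    · simp [h, h.le]
  refine ⟨fun q => decide (Quotient.mk st q < s (Quotient.mk st q)), fun q => ⟨?_, ?_⟩⟩
  · show decide (Quotient.mk st (σ q) < s (Quotient.mk st (σ q))) = _
    rw [← hsmk]
    exact key _
  · show decide (Quotient.mk st (τ q) < s (Quotient.mk st (τ q))) = _
    rw [hτmk]
    exact key _

theorem two_color_rel {E : Type*} (S T : E → E → Prop) (Ssymm : ∀ x y, S x y → S y x)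
    (Sfun : ∀ x y y', S x y → S x y' → y = y') (Sirr : ∀ x, ¬ S x x)
    (Tsymm : ∀ x y, T x y → T y x)
    (Tfun : ∀ x y y', T x y → T x y' → y = y') (Tirr : ∀ x, ¬ T x x) :
    ∃ c : E → Bool, ∀ x y, (S x y ∨ T x y) → c x ≠ c y := by
  classical
  -- extension of a partial matching to a fixed-point-free involution of `E × Bool`
  have ext : ∀ R : E → E → Prop, (∀ x y, R x y → R y x) → (∀ x y y', R x y → R x y' → y = y') →
      (∀ x, ¬ R x x) → ∃ f : E × Bool → E × Bool, Function.Involutive f ∧ (∀ q, f q ≠ q) ∧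
        ∀ x y b, R x y → f (x, b) = (y, b) := by
    intro R Rsymm Rfun Rirr
    let f : E × Bool → E × Bool := fun q =>
      if h : ∃ y, R q.1 y then (h.choose, q.2) else (q.1, !q.2)
    have hf1 : ∀ x y b, R x y → f (x, b) = (y, b) := by
      intro x y b h
      have hex : ∃ y, R x y := ⟨y, h⟩
      have : f (x, b) = (hex.choose, b) := by
        show (if h : ∃ y, R x y then (h.choose, b) else (x, !b)) = _
        rw [dif_pos hex]
      rw [this, Rfun x _ y hex.choose_spec h]
    have hf2 : ∀ x b, (¬ ∃ y, R x y) → f (x, b) = (x, !b) := by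
      intro x b h
      show (if h : ∃ y, R x y then (h.choose, b) else (x, !b)) = _
      rw [dif_neg h]
    refine ⟨f, ?_, ?_, hf1⟩
    · rintro ⟨x, b⟩
      by_cases h : ∃ y, R x y
      · obtain ⟨y, hy⟩ := h
        rw [hf1 x y b hy, hf1 y x b (Rsymm _ _ hy)]
      · rw [hf2 x b h, hf2 x _ h, Bool.not_not]
    · rintro ⟨x, b⟩ hq
      by_cases h : ∃ y, R x y
      · obtain ⟨y, hy⟩ := h
        rw [hf1 x y b hy] at hq
        have : y = x := (Prod.ext_iff.1 hq).1
        rw [this] at hy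
        exact Rirr x hy
      · rw [hf2 x b h] at hq
        have : (!b) = b := (Prod.ext_iff.1 hq).2
        cases b <;> simp at this
  obtain ⟨σ, hσ, fσ, eσ⟩ := ext S Ssymm Sfun Sirr
  obtain ⟨τ, hτ, fτ, eτ⟩ := ext T Tsymm Tfun Tirr
  obtain ⟨c, hc⟩ := two_color σ τ hσ hτ fσ fτ
  refine ⟨fun e => c (e, false), fun x y h => ?_⟩
  rcases h with h | h
  · have h1 := (hc (x, false)).1
    rw [eσ x y false h] at h1
    show c (x, false) ≠ c (y, false)
    rw [h1]
    cases c (x, false) <;> simp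
  · have h1 := (hc (x, false)).2
    rw [eτ x y false h] at h1
    show c (x, false) ≠ c (y, false)
    rw [h1]
    cases c (x, false) <;> simp

theorem two_color_setoid {E : Type*} (s : Setoid E) (S T : E → E → Prop)
    (Ssymm : ∀ x y, S x y → S y x)
    (Sfun : ∀ x x' y y', s.r x x' → S x y → S x' y' → s.r y y')
    (Sirr : ∀ x y, S x y → ¬ s.r x y) (Tsymm : ∀ x y, T x y → T y x)
    (Tfun : ∀ x x' y y', s.r x x' → T x y → T x' y' → s.r y y')
    (Tirr : ∀ x y, T x y → ¬ s.r x y) :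
    ∃ c : E → Bool, (∀ x y, s.r x y → c x = c y) ∧ ∀ x y, (S x y ∨ T x y) → c x ≠ c y := by
  classical
  let q : (E → E → Prop) → Quotient s → Quotient s → Prop := fun R a b =>
    ∃ x y, Quotient.mk s x = a ∧ Quotient.mk s y = b ∧ R x y
  have qsymm : ∀ R : E → E → Prop, (∀ x y, R x y → R y x) → ∀ a b, q R a b → q R b a := by
    rintro R hR a b ⟨x, y, hx, hy, h⟩
    exact ⟨y, x, hy, hx, hR _ _ h⟩
  have qfun : ∀ R : E → E → Prop, (∀ x x' y y', s.r x x' → R x y → R x' y' → s.r y y') →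
      ∀ a b b', q R a b → q R a b' → b = b' := by
    rintro R hR a b b' ⟨x, y, hx, hy, h⟩ ⟨x', y', hx', hy', h'⟩
    rw [← hy, ← hy']
    exact Quotient.sound (hR x x' y y' (Quotient.exact (hx.trans hx'.symm)) h h')
  have qirr : ∀ R : E → E → Prop, (∀ x y, R x y → ¬ s.r x y) → ∀ a, ¬ q R a a := by
    rintro R hR a ⟨x, y, hx, hy, h⟩
    exact hR x y h (Quotient.exact (hx.trans hy.symm))
  obtain ⟨c, hc⟩ := two_color_rel (q S) (q T) (qsymm S Ssymm) (qfun S Sfun) (qirr S Sirr)
    (qsymm T Tsymm) (qfun T Tfun) (qirr T Tirr)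
  refine ⟨fun e => c (Quotient.mk s e), fun x y h => ?_, fun x y h => ?_⟩
  · show c (Quotient.mk s x) = c (Quotient.mk s y)
    rw [Quotient.sound h]
  · apply hc
    rcases h with h | h
    · exact Or.inl ⟨x, y, rfl, rfl, h⟩
    · exact Or.inr ⟨x, y, rfl, rfl, h⟩

end Pool.Agent.Lib.MP_f406e2_lc
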