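import Pool.Agent.Lib.MP_f406e2_lc.State
import Pool.Agent.Lib.MP_f406e2_lc.TwoCol

/-! The solution on the vertices of height one. -/

open Complex ComplexConjugate

namespace Pool.Agent.Lib.MP_f406e2_lc

lemma hab_ne {a : ℕ} (b : ℕ) (ha : 0 < a) : (a : ℝ) ^ 2 + (b : ℝ) ^ 2 ≠ 0 := by
  have : (0 : ℝ) < a := by exact_mod_cast ha
  positivity

lemma rr_inj {a b : ℕ} (ha : 0 < a) {x y : P} (h : rr a b x = rr a b y) : x = y := by
  rw [← rr_rr a b (hab_ne b ha) x, h, rr_rr a b (hab_ne b ha)]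

lemma act_true_eq {k : ℕ} (hk : 0 < k) (i : ℤ) (q : P) :
    act k i true q = rot k (i - (k - 1)) (Yf q) := by
  rw [act_true, flp_eq_rot_Yf hk, rot_rot]
  congr 1; ring

namespace Height

variable {k a b : ℕ} (H : Height k a b)

lemma N_act (i : ℤ) (e : Bool) (q : P) : H.N (act k i e q) = H.N q := by
  unfold act
  cases e
  · simp [H.N_rot]
  · simp [H.N_rot, H.N_flp]

lemma N_Orb {q y : P} (h : y ∈ Orb k q) : H.N y = H.N q := by
  obtain ⟨i, e, rfl⟩ := h; exact H.N_act i e q

lemma N_ne_zero {q : P} (hq : q ∈ Sph) : H.N q ≠ 0 := by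
  have := H.one_le q hq
  exact ne_of_gt (lt_of_lt_of_le zero_lt_one this)

lemma lt_up {q : P} (hq : q ∈ Sph) (h : ¬ H.lev q) : H.N q < H.N (rr a b q) := by
  rw [H.up q hq h]
  have h1 := H.one_lt_c
  have h2 : 0 < H.N q := zero_lt_iff.2 (H.N_ne_zero hq)
  calc H.N q = 1 * H.N q := (one_mul _).symm
    _ < H.c * H.N q := by
      exact (mul_lt_mul_iff_left₀ h2).2 h1

/-- level points in one orbit when the height is not one -/
lemma uniq_lev (hk : 0 < k) {q : P} (hq : q ∈ Sph) (h : H.lev q) (hN : H.N q ≠ 1) {y : P}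
    (hy : y ∈ Orb k q) (hl : H.lev y) : y = q ∨ y = Yf q := by
  obtain ⟨i, e, rfl⟩ := hy
  cases e
  · left
    by_contra hne
    apply hN
    refine H.two_lev q hq i h hl ?_
    intro hd
    exact hne (rot_of_dvd hk hd q)
  · right
    rw [act_true_eq hk] at hl ⊢
    by_contra hne
    apply hN
    have hYN : H.N (Yf q) = H.N q := by
      rw [Yf_eq hk, ← act_true, H.N_act]
    rw [← hYN]
    refine H.two_lev (Yf q) (Yf_mem_Sph hq) _ ((H.lev_Y q).2 h) hl ?_
    intro hd
    exact hne (rot_of_dvd hk hd _)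

end Height

section
variable {k a b : ℕ} (H : Height k a b)

/-- a colouring of the level points of height one -/
lemma exists_colour (hk : 3 ≤ k) (ha : 0 < a) : ∃ C : P → Bool,
    (∀ y ∈ Sph, H.N y = 1 → H.lev y → C (Yf y) = C y) ∧
    (∀ y ∈ Sph, H.N y = 1 → H.lev y → Free k y → ∀ i : ℤ, ¬ (2 * k : ℤ) ∣ i →
      H.lev (rot k i y) → C (rot k i y) ≠ C y) ∧
    (∀ y ∈ Sph, H.N y = 1 → H.lev y → H.N (rr a b y) = 1 → C (rr a b y) ≠ C y) ∧
    C ey = true ∧ C (-ey) = false := by
  classical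
  have hk0 : 0 < k := by omega
  have hab := hab_ne b ha
  -- the type of free level points of height one
  let E := {q : P // q ∈ Sph ∧ H.N q = 1 ∧ H.lev q ∧ Free k q}
  let s : Setoid E :=
    { r := fun x y => y.1 = x.1 ∨ y.1 = Yf x.1
      iseqv := by
        refine ⟨fun x => Or.inl rfl, ?_, ?_⟩
        · rintro x y (h | h)
          · exact Or.inl h.symm
          · right; rw [h, Yf_Yf]
        · rintro x y z (h | h) (h' | h')
          · left; rw [h', h]
          · right; rw [h', h]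
          · right; rw [h', h]
          · left; rw [h', h, Yf_Yf] }
  let S : E → E → Prop := fun x y => y.1 = rr a b x.1
  let T : E → E → Prop := fun x y => ∃ i : ℤ, ¬ (2 * k : ℤ) ∣ i ∧ y.1 = rot k i x.1
  obtain ⟨c, hc1, hc2⟩ := two_color_setoid s S T
    (by
      intro x y h
      change x.1 = rr a b y.1
      rw [show y.1 = rr a b x.1 from h, rr_rr a b hab])
    (by
      intro x x' y y' h h1 h2
      change y'.1 = y.1 ∨ y'.1 = Yf y.1
      have h1' : y.1 = rr a b x.1 := h1
      have h2' : y'.1 = rr a b x'.1 := h2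
      rcases h with h | h
      · left; rw [h2', h1', h]
      · right; rw [h2', h1', h, Yf_rr])
    (by
      intro x y h1 h2
      have h1' : y.1 = rr a b x.1 := h1
      rcases h2 with h | h
      · exact H.fix_r x.1 x.2.1 (by rw [← h1', h]) x.2.2.1
      · exact H.fix_rY x.1 x.2.1 (by rw [← h1', h]) x.2.2.1)
    (by
      rintro x y ⟨i, hi, h⟩
      refine ⟨-i, ?_, ?_⟩
      · rwa [dvd_neg]
      · rw [h, rot_neg_rot])
    (by
      rintro x x' y y' h ⟨i, hi, h1⟩ ⟨j, hj, h2⟩
      change y'.1 = y.1 ∨ y'.1 = Yf y.1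
      rcases h with h | h
      · left
        rw [h] at h2
        have := H.three_lev x.1 x.2.1 i j x.2.2.2.1 (h1 ▸ y.2.2.2.1) (h2 ▸ y'.2.2.2.1) hi hj
        rw [h1, h2]
        exact (rot_congr hk0 this _).symm
      · right
        rw [h] at h2
        have e1 : rot k j (Yf x.1) = Yf (rot k (-j) x.1) := by
          rw [Yf_rot]; simp
        rw [e1] at h2
        have h3 : H.lev (rot k (-j) x.1) := by
          rw [← H.lev_Y, ← h2]; exact y'.2.2.2.1
        have := H.three_lev x.1 x.2.1 i (-j) x.2.2.2.1 (h1 ▸ y.2.2.2.1) h3 hi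
          (by rwa [dvd_neg])
        rw [h1, h2, rot_congr hk0 this])
    (by
      rintro x y ⟨i, hi, h⟩ h2
      rcases h2 with h' | h'
      · have : act k i false x.1 = x.1 := by rw [act_false, ← h, h']
        exact hi ((x.2.2.2.2 i false this).2)
      · have : act k i false x.1 = act k (k - 1) true x.1 := by
          rw [act_false, ← h, h', Yf_eq hk0, act_true]
        have := (free_inj x.2.2.2.2 this).1
        simp at this)
  have hney : (-ey : P) ≠ ey := by
    intro h
    have := congrArg (fun q : P => q.1.im) h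
    simp [ey] at this
    norm_num at this
  have hYney : Yf (-ey) = -ey := by rw [Yf_neg', Yf_ey]
  have hnf : ¬ Free k ey := by
    intro h
    have h1 : act k (k - 1) true ey = ey := by rw [act_true, ← Yf_eq hk0, Yf_ey]
    have := (h _ _ h1).1
    simp at this
  have hnf' : ¬ Free k (-ey) := by
    intro h
    have h1 : act k (k - 1) true (-ey) = -ey := by rw [act_true, ← Yf_eq hk0, hYney]
    have := (h _ _ h1).1
    simp at this
  -- level, height one and not free: `± ey`
  have nonfree_lev : ∀ y ∈ Sph, H.lev y → ¬ Free k y → y = ey ∨ y = -ey := by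
    intro y hy hl hf
    rcases (H.nonfree y hy hf).2 with h | ⟨i, h⟩
    · exact absurd hl (by simpa using h 0 false)
    · rw [h, H.lev_ey] at hl
      obtain ⟨m, rfl⟩ := hl
      rcases Int.even_or_odd' m with ⟨n, rfl | rfl⟩
      · left
        rw [h]
        exact rot_of_dvd hk0 ⟨n, by ring⟩ _
      · right
        rw [h, ← rot_k_ey hk0]
        exact rot_congr hk0 ⟨n, by ring⟩ _
  obtain ⟨C, hCp, hCn⟩ : ∃ C : P → Bool,
      (∀ (y : P) (h : y ∈ Sph ∧ H.N y = 1 ∧ H.lev y ∧ Free k y), C y = c ⟨y, h⟩) ∧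
      (∀ y : P, ¬ (y ∈ Sph ∧ H.N y = 1 ∧ H.lev y ∧ Free k y) → C y = decide (y = ey)) :=
    ⟨fun y => if h : y ∈ Sph ∧ H.N y = 1 ∧ H.lev y ∧ Free k y then c ⟨y, h⟩ else
      decide (y = ey), fun y h => dif_pos h, fun y h => dif_neg h⟩
  refine ⟨C, ?_, ?_, ?_, ?_, ?_⟩
  · intro y hy hN hl
    by_cases hf : Free k y
    · have h1 : y ∈ Sph ∧ H.N y = 1 ∧ H.lev y ∧ Free k y := ⟨hy, hN, hl, hf⟩
      have h2 : Yf y ∈ Sph ∧ H.N (Yf y) = 1 ∧ H.lev (Yf y) ∧ Free k (Yf y) := by
        refine ⟨Yf_mem_Sph hy, ?_, (H.lev_Y y).2 hl, ?_⟩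
        · rw [Yf_eq hk0, ← act_true, H.N_act, hN]
        · rw [Yf_eq hk0, ← act_true]; exact hf.act _ _
      rw [hCp _ h1, hCp _ h2]
      exact (hc1 ⟨y, h1⟩ ⟨Yf y, h2⟩ (Or.inr rfl)).symm
    · rcases nonfree_lev y hy hl hf with rfl | rfl
      · rw [Yf_ey]
      · rw [hYney]
  · intro y hy hN hl hf i hi hl'
    have h1 : y ∈ Sph ∧ H.N y = 1 ∧ H.lev y ∧ Free k y := ⟨hy, hN, hl, hf⟩
    have h2 : rot k i y ∈ Sph ∧ H.N (rot k i y) = 1 ∧ H.lev (rot k i y) ∧ Free k (rot k i y) :=
      ⟨rot_mem_Sph hy, by rw [H.N_rot, hN], hl', hf.act i false⟩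
    rw [hCp _ h1, hCp _ h2]
    exact (hc2 ⟨y, h1⟩ ⟨rot k i y, h2⟩ (Or.inr ⟨i, hi, rfl⟩)).symm
  · intro y hy hN hl hN'
    have hl' : H.lev (rr a b y) := (H.lev_r y hy (by rw [hN', hN])).2 hl
    by_cases hf : Free k y
    · have h1 : y ∈ Sph ∧ H.N y = 1 ∧ H.lev y ∧ Free k y := ⟨hy, hN, hl, hf⟩
      have hf' : Free k (rr a b y) := by
        by_contra hnf2
        rcases nonfree_lev _ (rr_mem_Sph hab hy) hl' hnf2 with h | h
        · have : y = -ey := by
            rw [← rr_rr a b hab y, h, rr_ey]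
          rw [this] at hf; exact hnf' hf
        · have : y = ey := by
            rw [← rr_rr a b hab y, h, rr_neg, rr_ey, neg_neg]
          rw [this] at hf; exact hnf hf
      have h2 : rr a b y ∈ Sph ∧ H.N (rr a b y) = 1 ∧ H.lev (rr a b y) ∧ Free k (rr a b y) :=
        ⟨rr_mem_Sph hab hy, hN', hl', hf'⟩
      rw [hCp _ h1, hCp _ h2]
      exact (hc2 ⟨y, h1⟩ ⟨rr a b y, h2⟩ (Or.inl rfl)).symm
    · have h1 : ¬ (ey ∈ Sph ∧ H.N ey = 1 ∧ H.lev ey ∧ Free k ey) := fun h => hnf h.2.2.2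
      have h2 : ¬ (-ey ∈ Sph ∧ H.N (-ey) = 1 ∧ H.lev (-ey) ∧ Free k (-ey)) :=
        fun h => hnf' h.2.2.2
      rcases nonfree_lev y hy hl hf with rfl | rfl
      · rw [rr_ey, hCn _ h1, hCn _ h2]
        simp [hney]
      · rw [rr_neg, rr_ey, neg_neg, hCn _ h1, hCn _ h2]
        simp [hney]
  · rw [hCn _ (fun h => hnf h.2.2.2)]; simp
  · rw [hCn _ (fun h => hnf' h.2.2.2)]; simp [hney]

/-- the pattern of a colour -/
def cpat (c : Bool) : ℕ × ℕ × ℕ × ℕ := if c then (1,1,1,1) else (0,0,0,0)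

lemma valid_cpat (c : Bool) : Valid (cpat c) := by
  cases c <;> simp [cpat, Valid]

lemma swp_cpat (c : Bool) : swp (cpat c) = cpat c := by
  cases c <;> simp [cpat, swp]

lemma level_one_orbit (hk : 3 ≤ k) (C : P → Bool)
    (hC1 : ∀ y ∈ Sph, H.N y = 1 → H.lev y → C (Yf y) = C y)
    (hC2 : ∀ y ∈ Sph, H.N y = 1 → H.lev y → Free k y → ∀ i : ℤ, ¬ (2 * k : ℤ) ∣ i →
      H.lev (rot k i y) → C (rot k i y) ≠ C y)
    (hC4 : C ey = true) (hC5 : C (-ey) = false) (q : P) (hq : q ∈ Sph) (hN : H.N q = 1) :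
    ∃ S : Set P, S ⊆ Orb k q ∧ (∀ y ∈ Orb k q, Valid (pat k S y)) ∧
      ∀ y ∈ Orb k q, H.lev y → pat k S y = cpat (C y) := by
  classical
  have hk0 : 0 < k := by omega
  have hsph : ∀ y ∈ Orb k q, y ∈ Sph := by
    rintro y ⟨i, e, rfl⟩; exact act_mem_Sph hq
  have hNy : ∀ y ∈ Orb k q, H.N y = 1 := by
    intro y hy; rw [H.N_Orb hy, hN]
  by_cases hlev : ∃ q0 ∈ Orb k q, H.lev q0
  swap
  · -- no level points
    refine ⟨∅, Set.empty_subset _, ?_, fun y hy hl => absurd ⟨y, hy, hl⟩ hlev⟩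
    intro y hy
    have : pat k ∅ y = (0,0,0,0) := by
      unfold pat FA FB; simp
    rw [this]; simp [Valid]
  obtain ⟨q0, hq0, hl0⟩ := hlev
  have hO : Orb k q0 = Orb k q := Orb_eq hq0
  by_cases hfree : Free k q0
  · -- free vertex
    -- description of the level points
    have hYN : ∀ y ∈ Orb k q, Yf y ∈ Orb k q := fun y hy => Yf_mem_Orb hk0 hy
    by_cases h2 : ∃ i : ℤ, ¬ (2 * k : ℤ) ∣ i ∧ H.lev (rot k i q0)
    · obtain ⟨i1, hi1, hl1⟩ := h2
      have hlevs : ∀ y ∈ Orb k q, H.lev y → y = q0 ∨ y = Yf q0 ∨ y = rot k i1 q0 ∨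
          y = Yf (rot k i1 q0) := by
        have aux : ∀ i : ℤ, H.lev (rot k i q0) → rot k i q0 = q0 ∨ rot k i q0 = rot k i1 q0 := by
          intro i hl
          by_cases hd : (2 * k : ℤ) ∣ i
          · left; exact rot_of_dvd hk0 hd _
          · right
            exact rot_congr hk0 (H.three_lev q0 (hsph q0 hq0) i i1 hl0 hl hl1 hd hi1) _
        intro y hy hl
        rw [← hO] at hy
        obtain ⟨i, e, rfl⟩ := hy
        cases e
        · rw [act_false] at hl ⊢
          rcases aux i hl with h | h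
          · exact Or.inl h
          · exact Or.inr (Or.inr (Or.inl h))
        · rw [act_true_eq hk0] at hl ⊢
          have e1 : rot k (i - (k - 1)) (Yf q0) = Yf (rot k (-(i - (k - 1))) q0) := by
            rw [Yf_rot]; simp
          rw [e1] at hl ⊢
          rw [H.lev_Y] at hl
          rcases aux _ hl with h | h
          · rw [h]; exact Or.inr (Or.inl rfl)
          · rw [h]; exact Or.inr (Or.inr (Or.inr rfl))
      have hC : C (rot k i1 q0) ≠ C q0 := hC2 q0 (hsph q0 hq0) (hNy q0 hq0) hl0 hfree i1 hi1 hl1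
      have hq1 : rot k i1 q0 ∈ Orb k q := Orb_rot hq0 i1
      -- get the state
      have : ∃ S : Set P, S ⊆ Orb k q ∧ pat k S q0 = cpat (C q0) ∧
          pat k S (rot k i1 q0) = cpat (C (rot k i1 q0)) ∧ ∀ y ∈ Orb k q, Valid (pat k S y) := by
        cases hc : C q0
        · have hc1 : C (rot k i1 q0) = true := by
            cases h : C (rot k i1 q0)
            · exact absurd (by rw [h, hc]) hC
            · rfl
          obtain ⟨S, s1, s2, s3, s4⟩ := state_B hk (hfree.act i1 false)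
            (i := -i1) (by rwa [dvd_neg])
          rw [act_false] at s1 s2 s3 s4
          rw [rot_neg_rot] at s3
          rw [Orb_eq hq1] at s1 s4
          refine ⟨S, s1, ?_, ?_, s4⟩
          · rw [s3]; simp [cpat]
          · rw [s2, hc1]; simp [cpat]
        · have hc1 : C (rot k i1 q0) = false := by
            cases h : C (rot k i1 q0)
            · rfl
            · exact absurd (by rw [h, hc]) hC
          obtain ⟨S, s1, s2, s3, s4⟩ := state_B hk hfree hi1
          rw [hO] at s1 s4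
          refine ⟨S, s1, ?_, ?_, s4⟩
          · rw [s2]; simp [cpat]
          · rw [s3, hc1]; simp [cpat]
      obtain ⟨S, s1, s2, s3, s4⟩ := this
      refine ⟨S, s1, s4, ?_⟩
      intro y hy hl
      rcases hlevs y hy hl with rfl | rfl | rfl | rfl
      · exact s2
      · rw [pat_Yf, s2, swp_cpat, hC1 _ (hsph _ hq0) (hNy _ hq0) hl0]
      · exact s3
      · rw [pat_Yf, s3, swp_cpat, hC1 _ (hsph _ hq1) (hNy _ hq1) hl1]
    · push Not at h2
      have hlevs : ∀ y ∈ Orb k q, H.lev y → y = q0 ∨ y = Yf q0 := by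
        have aux : ∀ i : ℤ, H.lev (rot k i q0) → rot k i q0 = q0 := by
          intro i hl
          by_cases hd : (2 * k : ℤ) ∣ i
          · exact rot_of_dvd hk0 hd _
          · exact absurd hl (h2 i hd)
        intro y hy hl
        rw [← hO] at hy
        obtain ⟨i, e, rfl⟩ := hy
        cases e
        · left; exact aux i hl
        · right
          rw [act_true_eq hk0] at hl ⊢
          have e1 : rot k (i - (k - 1)) (Yf q0) = Yf (rot k (-(i - (k - 1))) q0) := by
            rw [Yf_rot]; simp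
          rw [e1] at hl ⊢
          rw [H.lev_Y] at hl
          rw [aux _ hl]
      obtain ⟨S, s1, s2, s3⟩ := state_A hk hfree (valid_cpat (C q0))
      rw [hO] at s1 s3
      refine ⟨S, s1, s3, ?_⟩
      intro y hy hl
      rcases hlevs y hy hl with rfl | rfl
      · exact s2
      · rw [pat_Yf, s2, swp_cpat, hC1 _ (hsph _ hq0) (hNy _ hq0) hl0]
  · -- the orbit of `ey`
    have hey : ey ∈ Orb k q := by
      rcases (H.nonfree q0 (hsph q0 hq0) hfree).2 with h | ⟨i, h⟩
      · exact absurd hl0 (by simpa using h 0 false)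
      · rw [← hO, h]
        exact Orb_symm (rot_mem_Orb k i ey)
    have hOe : Orb k ey = Orb k q := Orb_eq hey
    -- membership of `{ey}`
    have hmem : ∀ i e, act k i e ey ∈ ({ey} : Set P) ↔ fY k i e = true := by
      have h1 : ∀ i : ℤ, rot k i ey = ey ↔ (2 * k : ℤ) ∣ i := by
        intro i
        constructor
        · intro h
          rw [← om_zpow_eq_one_iff hk0]
          have := congrArg (fun q : P => q.1) h
          simp only [rot_fst, ey] at this
          exact mul_right_cancel₀ Complex.I_ne_zero (by rw [this, one_mul])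
        · intro h; exact rot_of_dvd hk0 h _
      intro i e
      rw [Set.mem_singleton_iff]
      unfold fY
      cases e
      · rw [act_false, h1]; simp
      · rw [act_true_eq hk0, Yf_ey, h1]; simp
    refine ⟨{ey}, by rw [Set.singleton_subset_iff]; exact hey, ?_, ?_⟩
    · intro y hy
      rw [← hOe] at hy
      obtain ⟨i, e, rfl⟩ := hy
      rw [pat_act hk0 hmem]
      exact valid_fY hk i e
    · intro y hy hl
      rw [← hOe] at hy
      have hy' : ∃ i : ℤ, y = rot k i ey := by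
        obtain ⟨i, e, rfl⟩ := hy
        cases e
        · exact ⟨i, rfl⟩
        · exact ⟨i - (k - 1), by rw [act_true_eq hk0, Yf_ey]⟩
      obtain ⟨i, rfl⟩ := hy'
      rw [H.lev_ey] at hl
      obtain ⟨m, rfl⟩ := hl
      rw [← act_false, pat_act hk0 hmem, act_false]
      rcases Int.even_or_odd' m with ⟨n, rfl | rfl⟩
      · rw [patg_fY_false (n := 0) hk (by omega) ⟨n, by push_cast; ring⟩,
          rot_of_dvd hk0 ⟨n, by ring⟩, hC4]
        simp [cpat]
      · have e1 : rot k (k * (2 * n + 1)) ey = -ey := by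
          rw [← rot_k_ey hk0]
          exact rot_congr hk0 ⟨n, by ring⟩ _
        rw [patg_fY_false (n := k) hk (by omega) ⟨n, by ring⟩, e1, hC5]
        have : k ≠ 0 := by omega
        simp [cpat, this]

/-- the solution on the part of height one -/
theorem level_one (hk : 3 ≤ k) (ha : 0 < a) : ∃ A : Set P,
    (∀ y ∈ Sph, H.N y = 1 → Valid (pat k A y)) ∧
    (∀ y ∈ Sph, H.N y = 1 → H.N (rr a b y) = 1 → FA k A y + FB k A (rr a b y) = 1) := by
  classical
  have hk0 : 0 < k := by omega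
  have hab := hab_ne b ha
  obtain ⟨C, hC1, hC2, hC3, hC4, hC5⟩ := exists_colour H hk ha
  have h0 : ∀ O : Set P, ∃ S : Set P, (∃ q ∈ Sph, H.N q = 1 ∧ O = Orb k q) →
      S ⊆ O ∧ (∀ y ∈ O, Valid (pat k S y)) ∧ ∀ y ∈ O, H.lev y → pat k S y = cpat (C y) := by
    intro O
    by_cases h : ∃ q ∈ Sph, H.N q = 1 ∧ O = Orb k q
    · obtain ⟨q, hq, hN, rfl⟩ := h
      obtain ⟨S, s1, s2, s3⟩ := level_one_orbit H hk C hC1 hC2 hC4 hC5 q hq hN
      exact ⟨S, fun _ => ⟨s1, s2, s3⟩⟩
    · exact ⟨∅, fun h' => absurd h' h⟩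
  choose σ hσ using h0
  have hpat : ∀ y ∈ Sph, H.N y = 1 → pat k {x | x ∈ σ (Orb k x)} y = pat k (σ (Orb k y)) y := by
    intro y _ _
    refine pat_congr hk0 fun i e => ?_
    rw [Set.mem_ofPred_eq, Orb_eq (act_mem_Orb k i e y)]
  refine ⟨{x | x ∈ σ (Orb k x)}, ?_, ?_⟩
  · intro y hy hN
    rw [hpat y hy hN]
    exact (hσ (Orb k y) ⟨y, hy, hN, rfl⟩).2.1 y (self_mem_Orb k y)
  · intro y hy hN hN'
    have hy' := rr_mem_Sph hab hy
    have hl : H.lev y := by
      by_contra hl
      have := H.lt_up hy hl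
      rw [hN, hN'] at this
      exact lt_irrefl _ this
    have hl' : H.lev (rr a b y) := (H.lev_r y hy (by rw [hN', hN])).2 hl
    have p1 := hpat y hy hN
    rw [(hσ (Orb k y) ⟨y, hy, hN, rfl⟩).2.2 y (self_mem_Orb k y) hl] at p1
    have p2 := hpat _ hy' hN'
    rw [(hσ (Orb k (rr a b y)) ⟨_, hy', hN', rfl⟩).2.2 _ (self_mem_Orb k _) hl'] at p2
    have hc := hC3 y hy hN hl hN'
    have e1 : FA k {x | x ∈ σ (Orb k x)} y = (cpat (C y)).1 := by rw [← p1]; rfl
    have e2 : FB k {x | x ∈ σ (Orb k x)} (rr a b y) = (cpat (C (rr a b y))).2.2.1 := by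
      rw [← p2]; rfl
    rw [e1, e2]
    revert hc
    cases C y <;> cases C (rr a b y) <;> simp [cpat]

end

end Pool.Agent.Lib.MP_f406e2_lc
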