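import Pool.Agent.Lib.MP_f406e2_lc.Comb

/-! Realisation of states on dihedral orbits of points. -/

open Complex ComplexConjugate

namespace Pool.Agent.Lib.MP_f406e2_lc

/-- dihedral orbit -/
def Orb (k : ℕ) (q : P) : Set P := {y | ∃ (i : ℤ) (e : Bool), y = act k i e q}

lemma self_mem_Orb (k : ℕ) (q : P) : q ∈ Orb k q := ⟨0, false, by simp⟩

lemma act_mem_Orb (k : ℕ) (i : ℤ) (e : Bool) (q : P) : act k i e q ∈ Orb k q := ⟨i, e, rfl⟩

lemma rot_mem_Orb (k : ℕ) (i : ℤ) (q : P) : rot k i q ∈ Orb k q := ⟨i, false, rfl⟩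

lemma Orb_act {k : ℕ} {q y : P} (h : y ∈ Orb k q) (i : ℤ) (e : Bool) : act k i e y ∈ Orb k q := by
  obtain ⟨j, f, rfl⟩ := h
  rw [act_act]; exact ⟨_, _, rfl⟩

lemma Orb_rot {k : ℕ} {q y : P} (h : y ∈ Orb k q) (i : ℤ) : rot k i y ∈ Orb k q :=
  Orb_act h i false

lemma Yf_mem_Orb {k : ℕ} (hk : 0 < k) {q y : P} (h : y ∈ Orb k q) : Yf y ∈ Orb k q := by
  rw [Yf_eq hk]; exact Orb_act h (k - 1) true

lemma Orb_symm {k : ℕ} {q y : P} (h : y ∈ Orb k q) : q ∈ Orb k y := by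
  obtain ⟨j, f, rfl⟩ := h
  exact ⟨_, f, (act_inv k j f q).symm⟩

lemma Orb_trans {k : ℕ} {q y x : P} (h : y ∈ Orb k q) (h' : x ∈ Orb k y) : x ∈ Orb k q := by
  obtain ⟨j, f, rfl⟩ := h'
  exact Orb_act h j f

lemma Orb_eq {k : ℕ} {q y : P} (h : y ∈ Orb k q) : Orb k y = Orb k q :=
  Set.Subset.antisymm (fun _ hx => Orb_trans h hx) (fun _ hx => Orb_trans (Orb_symm h) hx)

lemma psi_rot (k j : ℕ) (i : ℤ) (y : P) : ∃ (i' : ℤ) (e : Bool), psi k j (rot k i y) = act k i' e y := by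
  unfold psi
  split_ifs
  · exact ⟨-i, true, by rw [flp_rot, act_true]⟩
  · exact ⟨i, false, by rw [act_false]⟩

lemma FA_congr {k : ℕ} {A B : Set P} {y : P} (h : ∀ i e, act k i e y ∈ A ↔ act k i e y ∈ B) :
    FA k A y = FA k B y := by
  unfold FA
  refine Finset.sum_congr rfl fun j _ => ?_
  have := h (-(j : ℤ)) false
  simp only [act_false] at this
  by_cases h1 : rot k (-(j : ℤ)) y ∈ A
  · rw [if_pos h1, if_pos (this.1 h1)]
  · rw [if_neg h1, if_neg (fun h2 => h1 (this.2 h2))]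

lemma FB_congr {k : ℕ} {A B : Set P} {y : P} (h : ∀ i e, act k i e y ∈ A ↔ act k i e y ∈ B) :
    FB k A y = FB k B y := by
  unfold FB
  refine Finset.sum_congr rfl fun j _ => ?_
  obtain ⟨i', e, he⟩ := psi_rot k j (-(j : ℤ)) y
  have := h i' e
  rw [← he] at this
  by_cases h1 : psi k j (rot k (-(j : ℤ)) y) ∈ A
  · rw [if_pos h1, if_pos (this.1 h1)]
  · rw [if_neg h1, if_neg (fun h2 => h1 (this.2 h2))]

lemma pat_congr {k : ℕ} (hk : 0 < k) {A B : Set P} {y : P}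
    (h : ∀ i e, act k i e y ∈ A ↔ act k i e y ∈ B) : pat k A y = pat k B y := by
  have h' : ∀ i e, act k i e (Yf y) ∈ A ↔ act k i e (Yf y) ∈ B := by
    intro i e
    rw [Yf_eq hk, ← act_true, act_act]
    exact h _ _
  unfold pat
  rw [FA_congr h, FA_congr h', FB_congr h, FB_congr h']

lemma free_inj {k : ℕ} {q : P} (hq : Free k q) {i j : ℤ} {e f : Bool}
    (h : act k i e q = act k j f q) : e = f ∧ (2 * k : ℤ) ∣ i - j := by
  have h1 : act k (if e then i else -i) e (act k j f q) = q := by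
    rw [← h, act_inv]
  rw [act_act] at h1
  obtain ⟨h2, h3⟩ := hq _ _ h1
  have hef : e = f := by
    cases e <;> cases f <;> simp_all
  subst hef
  refine ⟨rfl, ?_⟩
  cases e
  · simp only [Bool.false_eq_true, if_false] at h3
    rw [← dvd_neg]; ring_nf at h3 ⊢; exact h3
  · simp only [if_true] at h3
    ring_nf at h3 ⊢; exact h3

lemma Free.act {k : ℕ} {q : P} (hq : Free k q) (i : ℤ) (e : Bool) :
    Free k (MP_f406e2_lc.act k i e q) := by
  intro j f h
  rw [act_act] at h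
  obtain ⟨h1, h2⟩ := free_inj hq h
  have hf : f = false := by cases e <;> cases f <;> simp_all
  subst hf
  refine ⟨rfl, ?_⟩
  simp only [Bool.false_eq_true, if_false] at h2
  have : j + i - i = j := by ring
  rwa [this] at h2

lemma realise {k : ℕ} {x : P} (hx : Free k x) (f : ℤ → Bool → Bool)
    (hf : ∀ i j e, (2 * k : ℤ) ∣ i - j → f i e = f j e) :
    ∃ S : Set P, S ⊆ Orb k x ∧ ∀ i e, act k i e x ∈ S ↔ f i e = true := by
  refine ⟨{y | ∃ i e, f i e = true ∧ y = act k i e x}, ?_, ?_⟩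
  · rintro y ⟨i, e, -, rfl⟩; exact ⟨i, e, rfl⟩
  · intro i e
    constructor
    · rintro ⟨j, f', h1, h2⟩
      obtain ⟨h3, h4⟩ := free_inj hx h2
      subst h3
      rw [hf i j e h4]; exact h1
    · intro h; exact ⟨i, e, h, rfl⟩

lemma f1_per (k : ℕ) : ∀ i j e, (2 * k : ℤ) ∣ i - j → f1 k i e = f1 k j e := by
  intro i j e h
  unfold f1
  have : (2 * k : ℤ) ∣ i ↔ (2 * k : ℤ) ∣ j := (dvd_iff_dvd_of_dvd_sub h)
  simp [this]

lemma f2_per (k : ℕ) : ∀ i j e, (2 * k : ℤ) ∣ i - j → f2 k i e = f2 k j e := by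
  intro i j e h
  unfold f2
  have : (2 * k : ℤ) ∣ i ↔ (2 * k : ℤ) ∣ j := (dvd_iff_dvd_of_dvd_sub h)
  simp [this]

lemma f4_per (k : ℕ) : ∀ i j e, (2 * k : ℤ) ∣ i - j → f4 k i e = f4 k j e := by
  intro i j e h
  unfold f4
  have h' : (k : ℤ) ∣ i - j := dvd_trans ⟨2, by ring⟩ h
  have : (k : ℤ) ∣ i ↔ (k : ℤ) ∣ j := (dvd_iff_dvd_of_dvd_sub h')
  simp [this]

/-- a state with base point in the orbit -/
lemma state_of {k : ℕ} (hk : 0 < k) {q x : P} (hx : Free k x) (hqx : x ∈ Orb k q)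
    (f : ℤ → Bool → Bool)
    (hf : ∀ i j e, (2 * k : ℤ) ∣ i - j → f i e = f j e) (hv : ∀ i e, Valid (patg k f i e)) :
    ∃ S : Set P, S ⊆ Orb k q ∧ (∀ i e, pat k S (act k i e x) = patg k f i e) ∧
      ∀ y ∈ Orb k q, Valid (pat k S y) := by
  obtain ⟨S, h1, h2⟩ := realise hx f hf
  have h3 : ∀ i e, pat k S (act k i e x) = patg k f i e := fun i e => pat_act hk h2 i e
  refine ⟨S, ?_, h3, ?_⟩
  · rw [← Orb_eq hqx]; exact h1
  · intro y hy
    rw [← Orb_eq hqx] at hy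
    obtain ⟨i, e, rfl⟩ := hy
    rw [h3]; exact hv i e

lemma state_A {k : ℕ} (hk : 3 ≤ k) {q : P} (hq : Free k q) {x : ℕ × ℕ × ℕ × ℕ} (hx : Valid x) :
    ∃ S : Set P, S ⊆ Orb k q ∧ pat k S q = x ∧ ∀ y ∈ Orb k q, Valid (pat k S y) := by
  have hk0 : 0 < k := by omega
  -- single point states with base point `x0`, `q = act k i0 e0 x0`
  have single : ∀ (i0 : ℤ) (e0 : Bool), ∃ S : Set P, S ⊆ Orb k q ∧
      pat k S q = patg k (f1 k) i0 e0 ∧ ∀ y ∈ Orb k q, Valid (pat k S y) := by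
    intro i0 e0
    obtain ⟨S, h1, h2, h3⟩ := state_of hk0 (hq.act (if e0 then i0 else -i0) e0)
      (act_mem_Orb k _ e0 q) (f1 k) (f1_per k) (valid_f1 hk0)
    refine ⟨S, h1, ?_, h3⟩
    rw [← h2, act_inv']
  have h00 : patg k (f1 k) 0 false = (1,0,1,0) := by
    rw [patg_f1_false (n := 0) (by omega) (by simp), if_pos hk0, if_neg (not_mid_zero hk)]
  have hk2 : patg k (f1 k) ((k / 2 : ℕ) : ℤ) false = (1,0,0,1) := by
    rw [patg_f1_false (n := k / 2) (by omega) (by simp), if_pos (by omega), if_pos]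
    unfold Mid; omega
  rcases hx with rfl | rfl | rfl | rfl | rfl | rfl
  · obtain ⟨S, h1, h2, h3⟩ := state_of hk0 hq (self_mem_Orb k q) (fun _ _ => false)
      (fun _ _ _ _ => rfl) (fun i e => by rw [patg_zero]; simp [Valid])
    refine ⟨S, h1, ?_, h3⟩
    have := h2 0 false
    rwa [act_zero_false, patg_zero] at this
  · obtain ⟨S, h1, h2, h3⟩ := state_of hk0 hq (self_mem_Orb k q) (f4 k)
      (f4_per k) (fun i e => by rw [patg_f4 hk0]; simp [Valid])
    refine ⟨S, h1, ?_, h3⟩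
    have := h2 0 false
    rwa [act_zero_false, patg_f4 hk0] at this
  · rw [← h00]; exact single 0 false
  · have : ((0,1,0,1) : ℕ × ℕ × ℕ × ℕ) = patg k (f1 k) (k - 1) true := by
      rw [patg_f1_true]; simp only [sub_self]; rw [h00]; rfl
    rw [this]; exact single _ true
  · rw [← hk2]; exact single _ false
  · have : ((0,1,1,0) : ℕ × ℕ × ℕ × ℕ) = patg k (f1 k) (k - 1 - ((k / 2 : ℕ) : ℤ)) true := by
      rw [patg_f1_true, sub_sub_cancel, hk2]; rfl
    rw [this]; exact single _ true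

lemma state_B {k : ℕ} (hk : 3 ≤ k) {q : P} (hq : Free k q) {i : ℤ} (hi : ¬ (2 * k : ℤ) ∣ i) :
    ∃ S : Set P, S ⊆ Orb k q ∧ pat k S q = (1,1,1,1) ∧ pat k S (rot k i q) = (0,0,0,0) ∧
      ∀ y ∈ Orb k q, Valid (pat k S y) := by
  have hk0 : 0 < k := by omega
  obtain ⟨n, hn, hin⟩ := exists_res k hk0 i
  have hn0 : n ≠ 0 := by
    rintro rfl; apply hi; simpa using hin
  -- base point `rot (-j) q`
  have base : ∀ j : ℕ, j < k → ∀ m : ℕ, m < 2 * k → (2 * k : ℤ) ∣ (i + j) - m → k ≤ m →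
      ∃ S : Set P, S ⊆ Orb k q ∧ pat k S q = (1,1,1,1) ∧ pat k S (rot k i q) = (0,0,0,0) ∧
      ∀ y ∈ Orb k q, Valid (pat k S y) := by
    intro j hj m hm hjm hkm
    obtain ⟨S, h1, h2, h3⟩ := state_of hk0 (hq.act (-(j : ℤ)) false)
      (act_mem_Orb k _ false q) (f2 k) (f2_per k) (valid_f2 hk0)
    refine ⟨S, h1, ?_, ?_, h3⟩
    · have := h2 j false
      rw [act_false, act_false, rot_rot_neg, patg_f2 (n := j) (by omega) (by simp),
        if_pos hj] at this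
      exact this
    · have := h2 (i + j) false
      rw [act_false, act_false, rot_rot, patg_f2 hm hjm, if_neg (by omega)] at this
      have e : i + (j : ℤ) + -(j : ℤ) = i := by ring
      rwa [e] at this
  by_cases hnk : n ≤ k
  · refine base (k - 1) (by omega) (n + k - 1) (by omega) ?_ (by omega)
    have e : (i + ((k - 1 : ℕ) : ℤ)) - ((n + k - 1 : ℕ) : ℤ) = i - n := by
      have e1 : ((k - 1 : ℕ) : ℤ) = k - 1 := by omega
      have e2 : ((n + k - 1 : ℕ) : ℤ) = n + k - 1 := by omega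
      rw [e1, e2]; ring
    rw [e]; exact hin
  · refine base 0 (by omega) n hn ?_ (by omega)
    simpa using hin

end Pool.Agent.Lib.MP_f406e2_lc
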