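import Mathlib
import Pool.Agent.Lib.MP_f406e2_lc.Defs

/-!
# A valuation of `ℂ` over a prime and the height function
-/

open Complex ComplexConjugate

namespace Pool.Agent.Lib.MP_f406e2_lc

namespace ValAux

/-! ### the root of unity -/

lemma om_prim (k : ℕ) (hk : 1 ≤ k) : IsPrimitiveRoot (om k) (2 * k) := by
  have h := Complex.isPrimitiveRoot_exp (2 * k) (by omega)
  have e : om k = Complex.exp (2 * Real.pi * Complex.I / (2 * k : ℕ)) := by
    unfold om
    congr 1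
    have : (k : ℂ) ≠ 0 := by exact_mod_cast (by omega : k ≠ 0)
    push_cast
    field_simp
  rw [e]; exact h

lemma om_ne (k : ℕ) : om k ≠ 0 := Complex.exp_ne_zero _

lemma om_zpow_eq_one (k : ℕ) (hk : 1 ≤ k) (i : ℤ) : om k ^ i = 1 ↔ (2 * k : ℤ) ∣ i := by
  have := (om_prim k hk).zpow_eq_one_iff_dvd i
  push_cast at this
  exact this

lemma conj_om (k : ℕ) : conj (om k) = (om k)⁻¹ := by
  unfold om
  rw [← Complex.exp_conj, ← Complex.exp_neg]
  congr 1
  simp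

lemma om_pow_k (k : ℕ) (hk : 1 ≤ k) : om k ^ (k : ℤ) = -1 := by
  have h1 : (om k ^ (k : ℤ)) ^ 2 = 1 := by
    rw [zpow_natCast, ← pow_mul, mul_comm, (om_prim k hk).pow_eq_one]
  have h2 : om k ^ (k : ℤ) ≠ 1 := by
    intro h
    rw [om_zpow_eq_one k hk] at h
    obtain ⟨c, hc⟩ := h
    have hk' : (0 : ℤ) < k := by exact_mod_cast hk
    have : (1 : ℤ) = 2 * c := by
      have h3 : (k : ℤ) * 1 = k * (2 * c) := by linarith
      exact mul_left_cancel₀ hk'.ne' h3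
    omega
  have h3 : (om k ^ (k : ℤ) - 1) * (om k ^ (k : ℤ) + 1) = 0 := by linear_combination h1
  rcases mul_eq_zero.mp h3 with h | h
  · exact absurd (sub_eq_zero.mp h) h2
  · exact eq_neg_of_add_eq_zero_left h

/-! ### valuations -/

section val
variable {Γ : Type} [LinearOrderedCommGroupWithZero Γ] (ν : Valuation ℂ Γ)

lemma val_int_le (n : ℤ) : ν (n : ℂ) ≤ 1 := by
  have hnat : ∀ n : ℕ, ν (n : ℂ) ≤ 1 := by
    intro n
    induction n with
    | zero => simp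
    | succ n ih =>
      push_cast
      exact ν.map_add_le ih (by simp)
  rcases Int.eq_nat_or_neg n with ⟨m, rfl | rfl⟩
  · exact_mod_cast hnat m
  · push_cast
    rw [Valuation.map_neg]; exact hnat m

lemma val_nat_eq {p : ℕ} (hp : ν (p : ℂ) < 1) (n : ℕ) (hn : Nat.Coprime n p) : ν (n : ℂ) = 1 := by
  have h1 : IsCoprime (n : ℤ) (p : ℤ) := Nat.isCoprime_iff_coprime.mpr hn
  obtain ⟨u, v, huv⟩ := h1
  have h2 : ((u : ℂ)) * n + (v : ℂ) * p = 1 := by exact_mod_cast huv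
  have h3 : ν ((v : ℂ) * p) < 1 := by
    rw [map_mul]
    exact mul_lt_one_of_nonneg_of_lt_one_right (val_int_le ν v) zero_le hp
  refine le_antisymm ?_ ?_
  · have := val_int_le ν n
    exact_mod_cast this
  · by_contra hcon
    push Not at hcon
    have h4 : ν ((u : ℂ) * n) < 1 := by
      rw [map_mul]
      exact mul_lt_one_of_nonneg_of_lt_one_right (val_int_le ν u) zero_le hcon
    have h5 := ν.map_add_lt h4 h3
    rw [h2, map_one] at h5
    exact lt_irrefl _ h5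

/-- existence -/
lemma exists_val (p : ℕ) (hp : p.Prime) : ∃ (Γ : Type) (_ : LinearOrderedCommGroupWithZero Γ)
    (ν : Valuation ℂ Γ), ν (p : ℂ) < 1 := by
  let A : Subring ℂ := (Int.castRingHom ℂ).range
  let x : A := ⟨((p : ℤ) : ℂ), ⟨(p : ℤ), rfl⟩⟩
  have hI : Ideal.span {x} ≠ ⊤ := by
    rw [Ne, Ideal.eq_top_iff_one, Ideal.mem_span_singleton]
    rintro ⟨⟨_, ⟨n, rfl⟩⟩, h⟩
    have h1 : (1 : ℂ) = ((p : ℤ) : ℂ) * ((n : ℤ) : ℂ) := congrArg Subtype.val h
    have h2 : (1 : ℤ) = (p : ℤ) * n := by exact_mod_cast h1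
    have h3 : (p : ℤ) ∣ 1 := ⟨n, h2⟩
    have h4 : p ∣ 1 := by exact_mod_cast h3
    exact hp.one_lt.ne' (Nat.dvd_one.mp h4)
  obtain ⟨B, _, hB⟩ := Ideal.image_subset_nonunits_valuationSubring (Ideal.span {x}) hI
  refine ⟨B.ValueGroup, inferInstance, B.valuation, ?_⟩
  have h1 : ((p : ℤ) : ℂ) ∈ B.nonunits := hB ⟨x, Ideal.mem_span_singleton_self x, rfl⟩
  have h2 := B.mem_nonunits_iff.mp h1
  exact_mod_cast h2

/-- roots of unity -/
lemma val_root {w : ℂ} {m : ℕ} (hm : m ≠ 0) (hw : w ^ m = 1) : ν w = 1 := by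
  have h := congrArg ν hw
  rw [map_pow, map_one] at h
  exact (pow_eq_one_iff_of_nonneg zero_le hm).mp h

lemma val_root_sub {w : ℂ} {m : ℕ} (hm : m ≠ 0) (hw : w ^ m = 1) (hw1 : w ≠ 1)
    (hνm : ν (m : ℂ) = 1) : ν (w - 1) = 1 := by
  have h1 := val_root ν hm hw
  have hle : ν (w - 1) ≤ 1 := ν.map_sub_le h1.le (by simp)
  refine le_antisymm hle ?_
  by_contra hcon
  push Not at hcon
  have h2 : ∀ i : ℕ, ν (w ^ i - 1) < 1 := by
    intro i
    have : w ^ i - 1 = (∑ j ∈ Finset.range i, w ^ j) * (w - 1) := (geom_sum_mul w i).symm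
    rw [this, map_mul]
    refine mul_lt_one_of_nonneg_of_lt_one_right ?_ zero_le hcon
    exact ν.map_sum_le fun j _ => by rw [map_pow, h1, one_pow]
  have h3 : ∑ i ∈ Finset.range m, w ^ i = 0 := by
    have h4 := geom_sum_mul w m
    rw [hw, sub_self] at h4
    exact (mul_eq_zero.mp h4).resolve_right (sub_ne_zero.mpr hw1)
  have h4 : ∑ i ∈ Finset.range m, (w ^ i - 1) = -(m : ℂ) := by
    rw [Finset.sum_sub_distrib, h3]; simp
  have h5 : ν (∑ i ∈ Finset.range m, (w ^ i - 1)) < 1 :=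
    ν.map_sum_lt one_ne_zero fun i _ => h2 i
  rw [h4, Valuation.map_neg, hνm] at h5
  exact lt_irrefl _ h5

/-- the facts which are used below -/
structure Ctx (k a b : ℕ) : Prop where
  hk : 1 ≤ k
  hb0 : 0 < b
  p1 : ν (((a ^ 2 + b ^ 2 : ℕ)) : ℂ) < 1
  v2 : ν 2 = 1
  va : ν (a : ℂ) = 1
  vb : ν (b : ℂ) = 1
  vm : ν (((2 * k : ℕ)) : ℂ) = 1

variable {ν} {k a b : ℕ}

lemma Ctx.om (h : Ctx ν k a b) (i : ℤ) : ν (om k ^ i) = 1 := by
  have h1 := val_root ν (by have := h.hk; omega) (om_prim k h.hk).pow_eq_one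
  rw [map_zpow₀, h1, one_zpow]

lemma Ctx.sub (h : Ctx ν k a b) (i : ℤ) (hi : ¬ (2 * k : ℤ) ∣ i) : ν (MP_f406e2_lc.om k ^ i - 1) = 1 := by
  refine val_root_sub ν (m := 2 * k) (by have := h.hk; omega) ?_ ?_ h.vm
  · rw [← zpow_natCast, ← zpow_mul, mul_comm, zpow_mul, zpow_natCast,
      (om_prim k h.hk).pow_eq_one, one_zpow]
  · rwa [Ne, om_zpow_eq_one k h.hk]

lemma Ctx.I (_ : Ctx ν k a b) : ν Complex.I = 1 :=
  val_root ν (m := 4) (by norm_num) Complex.I_pow_four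

variable (ν) in
/-- the height -/
def NN (q : P) : Γ := max (ν q.1) (max (ν (conj q.1)) (ν (q.2 : ℂ)))

lemma NN_1 (q : P) : ν q.1 ≤ NN ν q := le_max_left _ _

lemma NN_2 (q : P) : ν (conj q.1) ≤ NN ν q := (le_max_left _ _).trans (le_max_right _ _)

lemma NN_3 (q : P) : ν (q.2 : ℂ) ≤ NN ν q := (le_max_right _ _).trans (le_max_right _ _)

lemma Ctx.N_rot (h : Ctx ν k a b) (i : ℤ) (q : P) : NN ν (rot k i q) = NN ν q := by
  unfold NN rot
  simp only [map_mul, map_zpow₀, conj_om]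
  have h1 := h.om 1
  rw [zpow_one] at h1
  rw [h1, map_inv₀, h1]
  simp

lemma Ctx.N_flp (h : Ctx ν k a b) (q : P) : NN ν (flp k q) = NN ν q := by
  unfold NN flp
  have h1 := h.om 1
  rw [zpow_one] at h1
  simp only [map_mul, conj_om, Complex.conj_conj, map_inv₀, h1, inv_one, one_mul,
    Complex.ofReal_neg, Valuation.map_neg]
  rw [max_left_comm]

lemma NN_neg (q : P) : NN ν (-q) = NN ν q := by
  unfold NN
  simp

lemma NN_Y (q : P) : NN ν (Yf q) = NN ν q := by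
  unfold NN Yf
  simp only [Valuation.map_neg, map_neg, Complex.conj_conj, Complex.ofReal_neg]
  rw [max_left_comm]

lemma vdot_neg (q : P) : vdot a b (-q) = -vdot a b q := by
  unfold vdot; simp; ring

lemma vdot_Y (q : P) : vdot a b (Yf q) = -vdot a b q := by
  unfold vdot Yf; simp; ring

lemma sph_eq {q : P} (hq : q ∈ Sph) : q.1 * conj q.1 + (q.2 : ℂ) ^ 2 = 1 := by
  have h : Complex.normSq q.1 + q.2 ^ 2 = 1 := hq
  rw [Complex.mul_conj]
  exact_mod_cast h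

lemma NN_one_le {q : P} (hq : q ∈ Sph) : 1 ≤ NN ν q := by
  by_contra hcon
  push Not at hcon
  have h1 := (NN_1 (ν := ν) q).trans_lt hcon
  have h2 := (NN_2 (ν := ν) q).trans_lt hcon
  have h3 := (NN_3 (ν := ν) q).trans_lt hcon
  have h4 : ν (q.1 * conj q.1) < 1 := by
    rw [map_mul]; exact mul_lt_one_of_nonneg_of_lt_one_right h1.le zero_le h2
  have h5 : ν ((q.2 : ℂ) ^ 2) < 1 := by
    rw [sq, map_mul]; exact mul_lt_one_of_nonneg_of_lt_one_right h3.le zero_le h3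
  have h6 := ν.map_add_lt h4 h5
  rw [sph_eq hq, map_one] at h6
  exact lt_irrefl _ h6

lemma vdot_C (q : P) : ((vdot a b q : ℝ) : ℂ) = a / 2 * (q.1 + conj q.1) + b * (q.2 : ℂ) := by
  unfold vdot
  rw [Complex.add_conj]
  push_cast; ring

lemma Ctx.half (h : Ctx ν k a b) : ν ((a : ℂ) / 2) = 1 := by
  rw [map_div₀, h.va, h.v2, div_one]

lemma Ctx.vdot_le (h : Ctx ν k a b) (q : P) : ν ((vdot a b q : ℝ) : ℂ) ≤ NN ν q := by
  rw [vdot_C]
  refine ν.map_add_le ?_ ?_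
  · rw [map_mul, h.half, one_mul]
    exact ν.map_add_le (NN_1 q) (NN_2 q)
  · rw [map_mul, h.vb, one_mul]; exact NN_3 q

lemma Ctx.p0 (h : Ctx ν k a b) : ((a : ℝ) ^ 2 + (b : ℝ) ^ 2) ≠ 0 := by
  have := h.hb0
  positivity

lemma Ctx.p0C (h : Ctx ν k a b) : ((a : ℂ) ^ 2 + (b : ℂ) ^ 2) ≠ 0 := by
  exact_mod_cast h.p0

lemma Ctx.p1' (h : Ctx ν k a b) : ν ((a : ℂ) ^ 2 + (b : ℂ) ^ 2) < 1 := by
  have := h.p1
  push_cast at this
  exact this

lemma Ctx.vp0 (h : Ctx ν k a b) : ν ((a : ℂ) ^ 2 + (b : ℂ) ^ 2) ≠ 0 := ν.ne_zero_iff.mpr h.p0C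

variable (ν a b) in
/-- the factor -/
def cc : Γ := (ν ((a : ℂ) ^ 2 + (b : ℂ) ^ 2))⁻¹

lemma Ctx.one_lt_c (h : Ctx ν k a b) : 1 < cc ν a b := by
  unfold cc
  exact (one_lt_inv₀ (zero_lt_iff.mpr h.vp0)).mpr h.p1'

lemma Ctx.vdot_rr (h : Ctx ν k a b) (q : P) : vdot a b (rr a b q) = vdot a b q := by
  have h0 := h.p0
  unfold rr
  set t := vdot a b q with ht
  have e : vdot a b (((2 / ((a : ℝ) ^ 2 + (b : ℝ) ^ 2) * t * a : ℝ) : ℂ) - q.1,
      2 / ((a : ℝ) ^ 2 + (b : ℝ) ^ 2) * t * b - q.2) =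
      2 / ((a : ℝ) ^ 2 + (b : ℝ) ^ 2) * t * (a ^ 2 + b ^ 2) - t := by
    have ht' : t = a * q.1.re + b * q.2 := rfl
    unfold vdot
    simp only [Complex.sub_re, Complex.ofReal_re]
    linear_combination ht'
  rw [e]; field_simp; ring

variable (ν a b) in
/-- level points -/
def LL (q : P) : Prop := ν ((vdot a b q : ℝ) : ℂ) < NN ν q

lemma LL_neg (q : P) : LL ν a b (-q) ↔ LL ν a b q := by
  unfold LL
  rw [NN_neg, vdot_neg, Complex.ofReal_neg, Valuation.map_neg]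

lemma LL_Y (q : P) : LL ν a b (Yf q) ↔ LL ν a b q := by
  unfold LL
  rw [NN_Y, vdot_Y, Complex.ofReal_neg, Valuation.map_neg]

/-- the coefficient in `rr` -/
lemma Ctx.up (h : Ctx ν k a b) (q : P) (hq : q ∈ Sph) (hl : ¬ LL ν a b q) :
    NN ν (rr a b q) = cc ν a b * NN ν q := by
  have hN : 0 < NN ν q := zero_lt_one.trans_le (NN_one_le hq)
  have hv : ν ((vdot a b q : ℝ) : ℂ) = NN ν q := le_antisymm (h.vdot_le q) (not_lt.mp hl)
  have hlt : NN ν q < cc ν a b * NN ν q := by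
    conv_lhs => rw [← one_mul (NN ν q)]
    exact mul_lt_mul_of_pos_right h.one_lt_c hN
  set t : ℝ := 2 / ((a : ℝ) ^ 2 + (b : ℝ) ^ 2) * vdot a b q with ht
  have hvt : ν ((t : ℝ) : ℂ) = cc ν a b * NN ν q := by
    rw [ht]
    push_cast
    rw [map_mul, map_div₀, h.v2, hv, one_div]
    rfl
  have h1 : (rr a b q).1 = ((t * a : ℝ) : ℂ) - q.1 := rfl
  have h2 : (rr a b q).2 = t * b - q.2 := rfl
  have e1 : ν ((t * a : ℝ) : ℂ) = cc ν a b * NN ν q := by
    push_cast; rw [map_mul, hvt, h.va, mul_one]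
  have e2 : ν ((t * b : ℝ) : ℂ) = cc ν a b * NN ν q := by
    push_cast; rw [map_mul, hvt, h.vb, mul_one]
  unfold NN
  rw [h1, h2]
  have f1 : ν (((t * a : ℝ) : ℂ) - q.1) = cc ν a b * NN ν q := by
    rw [Valuation.map_sub_eq_of_lt_left, e1]
    rw [e1]; exact (NN_1 q).trans_lt hlt
  have f2 : ν (conj (((t * a : ℝ) : ℂ) - q.1)) = cc ν a b * NN ν q := by
    rw [map_sub, Complex.conj_ofReal, Valuation.map_sub_eq_of_lt_left, e1]
    rw [e1]; exact (NN_2 q).trans_lt hlt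
  have f3 : ν ((t * b - q.2 : ℝ) : ℂ) = cc ν a b * NN ν q := by
    rw [Complex.ofReal_sub, Valuation.map_sub_eq_of_lt_left, e2]
    rw [e2]; exact (NN_3 q).trans_lt hlt
  rw [f1, f2, f3]
  simp [NN]

lemma Ctx.lev_of_up (h : Ctx ν k a b) (q : P) (hq : q ∈ Sph) (hl : ¬ LL ν a b q) :
    LL ν a b (rr a b q) := by
  have hN : 0 < NN ν q := zero_lt_one.trans_le (NN_one_le hq)
  unfold LL
  rw [h.up q hq hl, h.vdot_rr]
  refine (h.vdot_le q).trans_lt ?_
  conv_lhs => rw [← one_mul (NN ν q)]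
  exact mul_lt_mul_of_pos_right h.one_lt_c hN

lemma Ctx.lev_r (h : Ctx ν k a b) (q : P) (hn : NN ν (rr a b q) = NN ν q) :
    LL ν a b (rr a b q) ↔ LL ν a b q := by
  unfold LL
  rw [hn, h.vdot_rr]

/-- the difference of two level equations -/
lemma Ctx.diff (h : Ctx ν k a b) (q : P) (i : ℤ) (h1 : LL ν a b q) (h2 : LL ν a b (rot k i q))
    (hi : ¬ (2 * k : ℤ) ∣ i) : ν (q.1 - (MP_f406e2_lc.om k ^ i)⁻¹ * conj q.1) < NN ν q := by
  unfold LL at h1 h2
  rw [h.N_rot] at h2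
  have h3 := ν.map_sub_lt h2 h1
  set w := MP_f406e2_lc.om k ^ i with hw
  have hw0 : w ≠ 0 := zpow_ne_zero _ (om_ne k)
  have e : ((vdot a b (rot k i q) : ℝ) : ℂ) - ((vdot a b q : ℝ) : ℂ) =
      (a / 2) * ((w - 1) * (q.1 - w⁻¹ * conj q.1)) := by
    rw [vdot_C, vdot_C]
    have e1 : (rot k i q).1 = w * q.1 := rfl
    have e2 : (rot k i q).2 = q.2 := rfl
    rw [e1, e2, map_mul]
    have e3 : conj w = w⁻¹ := by rw [hw, map_zpow₀, conj_om, inv_zpow]
    rw [e3]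
    field_simp
    ring
  rw [e, map_mul, h.half, one_mul, map_mul, h.sub i hi, one_mul] at h3
  exact h3

lemma Ctx.vu (h : Ctx ν k a b) (q : P) (i : ℤ) (h1 : LL ν a b q) (h2 : LL ν a b (rot k i q))
    (hi : ¬ (2 * k : ℤ) ∣ i) : ν (conj q.1) = NN ν q := by
  have h3 := h.diff q i h1 h2 hi
  set w := MP_f406e2_lc.om k ^ i with hw
  have hνw : ν w⁻¹ = 1 := by rw [map_inv₀, h.om, inv_one]
  refine le_antisymm (NN_2 q) ?_
  by_contra hcon
  push Not at hcon
  have h4 : ν (w⁻¹ * conj q.1) < NN ν q := by rw [map_mul, hνw, one_mul]; exact hcon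
  have h5 : ν q.1 < NN ν q := by
    have := ν.map_add_lt h3 h4
    rwa [sub_add_cancel] at this
  have h6 : ν (q.2 : ℂ) < NN ν q := by
    have e : (b : ℂ) * (q.2 : ℂ) = ((vdot a b q : ℝ) : ℂ) - a / 2 * (q.1 + conj q.1) := by
      rw [vdot_C]; ring
    have h7 : ν ((b : ℂ) * (q.2 : ℂ)) < NN ν q := by
      rw [e]
      refine ν.map_sub_lt h1 ?_
      rw [map_mul, h.half, one_mul]
      exact ν.map_add_lt h5 hcon
    rwa [map_mul, h.vb, one_mul] at h7
  have h7 : NN ν q < NN ν q := by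
    conv_lhs => unfold NN
    exact max_lt h5 (max_lt hcon h6)
  exact lt_irrefl _ h7

lemma Ctx.three_lev (h : Ctx ν k a b) (q : P) (hq : q ∈ Sph) (i j : ℤ) (h1 : LL ν a b q)
    (h2 : LL ν a b (rot k i q)) (h3 : LL ν a b (rot k j q)) (hi : ¬ (2 * k : ℤ) ∣ i)
    (hj : ¬ (2 * k : ℤ) ∣ j) : (2 * k : ℤ) ∣ i - j := by
  have hN : 0 < NN ν q := zero_lt_one.trans_le (NN_one_le hq)
  have hu := h.vu q i h1 h2 hi
  have d1 := h.diff q i h1 h2 hi
  have d2 := h.diff q j h1 h3 hj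
  by_contra hcon
  have hs := h.sub (i - j) hcon
  have h4 := ν.map_sub_lt d2 d1
  have e : (q.1 - (MP_f406e2_lc.om k ^ j)⁻¹ * conj q.1) - (q.1 - (MP_f406e2_lc.om k ^ i)⁻¹ * conj q.1) =
      -((MP_f406e2_lc.om k ^ i)⁻¹ * (MP_f406e2_lc.om k ^ (i - j) - 1) * conj q.1) := by
    rw [zpow_sub₀ (om_ne k)]
    have hi0 : MP_f406e2_lc.om k ^ i ≠ 0 := zpow_ne_zero _ (om_ne k)
    have hj0 : MP_f406e2_lc.om k ^ j ≠ 0 := zpow_ne_zero _ (om_ne k)
    field_simp
    ring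
  rw [e, Valuation.map_neg, map_mul, map_mul, map_inv₀, h.om, hs, inv_one, one_mul, one_mul, hu] at h4
  exact lt_irrefl _ h4

lemma Ctx.two_lev (h : Ctx ν k a b) (q : P) (hq : q ∈ Sph) (i : ℤ) (h1 : LL ν a b q)
    (h2 : LL ν a b (rot k i q)) (hi : ¬ (2 * k : ℤ) ∣ i) : NN ν q = 1 := by
  have hN : 0 < NN ν q := zero_lt_one.trans_le (NN_one_le hq)
  have hu := h.vu q i h1 h2 hi
  have d1 := h.diff q i h1 h2 hi
  have hs := h.sub i hi
  have hom := h.om i
  set w := MP_f406e2_lc.om k ^ i with hw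
  have hw0 : w ≠ 0 := zpow_ne_zero _ (om_ne k)
  have hνw : ν w⁻¹ = 1 := by rw [map_inv₀, hom, inv_one]
  set N := NN ν q with hNd
  set u := conj q.1 with hud
  set e1 := q.1 - w⁻¹ * u with he1
  set e2 : ℂ := ((vdot a b q : ℝ) : ℂ) with he2
  have hve2 : ν e2 < N := h1
  have hve3 : ν (e2 - a / 2 * e1) < N := by
    refine ν.map_sub_lt hve2 ?_
    rw [map_mul, h.half, one_mul]; exact d1
  set e3 := e2 - a / 2 * e1 with he3
  have hbz : (b : ℂ) * (q.2 : ℂ) = -(a / 2) * (1 + w⁻¹) * u + e3 := by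
    have e4 : e2 = a / 2 * (q.1 + u) + b * (q.2 : ℂ) := vdot_C q
    rw [he3, e4, he1]; ring
  have hq1 : q.1 = w⁻¹ * u + e1 := by rw [he1]; ring
  set β : ℂ := 4 * b ^ 2 * w⁻¹ + a ^ 2 * (1 + w⁻¹) ^ 2 with hβ
  have hβ1 : ν β = 1 := by
    have e5 : β = 4 * ((a : ℂ) ^ 2 + b ^ 2) * w⁻¹ + a ^ 2 * (1 - w⁻¹) ^ 2 := by
      rw [hβ]; ring
    have e6 : ν ((1 : ℂ) - w⁻¹) = 1 := by
      have : (1 : ℂ) - w⁻¹ = w⁻¹ * (w - 1) := by field_simp
      rw [this, map_mul, hνw, hs, one_mul]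
    have e7 : ν ((a : ℂ) ^ 2 * (1 - w⁻¹) ^ 2) = 1 := by
      rw [map_mul, map_pow, map_pow, h.va, e6]; simp
    have e8 : ν (4 * ((a : ℂ) ^ 2 + b ^ 2) * w⁻¹) < 1 := by
      have e9 : ν (4 : ℂ) = 1 := by
        have : (4 : ℂ) = 2 * 2 := by norm_num
        rw [this, map_mul, h.v2, one_mul]
      rw [map_mul, map_mul, e9, one_mul, hνw, mul_one]; exact h.p1'
    rw [e5, Valuation.map_add_eq_of_lt_right _ (by rw [e7]; exact e8), e7]
  set E : ℂ := 4 * b ^ 2 * e1 * u - 4 * a * (1 + w⁻¹) * u * e3 + 4 * e3 ^ 2 with hE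
  have hle : ∀ n : ℤ, ν (n : ℂ) ≤ 1 := val_int_le ν
  have h4le : ν (4 : ℂ) ≤ 1 := by exact_mod_cast hle 4
  have hN2 : 0 < N * N := mul_pos hN hN
  have m1 : ν (e1 * u) < N * N := by
    rw [map_mul, hu]; exact mul_lt_mul_of_pos_right d1 hN
  have m2 : ν (u * e3) < N * N := by
    rw [map_mul, hu]; exact mul_lt_mul_of_pos_left hve3 hN
  have m3 : ν (e3 * e3) < N * N := by
    rw [map_mul]
    exact (mul_le_mul' le_rfl hve3.le).trans_lt (mul_lt_mul_of_pos_right hve3 hN)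
  have hE1 : ν E < N * N := by
    have e10 : E = (4 * b ^ 2) * (e1 * u) - (4 * a * (1 + w⁻¹)) * (u * e3) + 4 * (e3 * e3) := by
      rw [hE]; ring
    have small : ∀ c y : ℂ, ν c ≤ 1 → ν y < N * N → ν (c * y) < N * N := by
      intro c y hc hy
      rw [map_mul]
      calc ν c * ν y ≤ 1 * ν y := mul_le_mul_left hc _
        _ = ν y := one_mul _
        _ < N * N := hy
    have c1 : ν (4 * (b : ℂ) ^ 2) ≤ 1 := by rw [map_mul, map_pow, h.vb]; simpa using h4le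
    have c2 : ν (4 * (a : ℂ) * (1 + w⁻¹)) ≤ 1 := by
      rw [map_mul, map_mul, h.va, mul_one]
      exact mul_le_one' h4le (ν.map_add_le (by simp) hνw.le)
    rw [e10]
    exact ν.map_add_lt (ν.map_sub_lt (small _ _ c1 m1) (small _ _ c2 m2)) (small _ _ h4le m3)
  have key : 4 * (b : ℂ) ^ 2 = u ^ 2 * β + E := by
    have e11 := sph_eq hq
    have e12 : 4 * (b : ℂ) ^ 2 = 4 * b ^ 2 * (q.1 * u) + 4 * (b * (q.2 : ℂ)) ^ 2 := by
      linear_combination (-(4 * (b : ℂ) ^ 2)) * e11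
    rw [e12, hbz, hq1, hβ, hE]; ring
  have v1 : ν (u ^ 2 * β) = N * N := by rw [map_mul, map_pow, hu, hβ1, mul_one, sq]
  have v2 : ν (4 * (b : ℂ) ^ 2) = N * N := by
    rw [key, Valuation.map_add_eq_of_lt_left _ (by rw [v1]; exact hE1), v1]
  have v3 : ν (4 * (b : ℂ) ^ 2) = 1 := by
    have e9 : ν (4 : ℂ) = 1 := by
      have : (4 : ℂ) = 2 * 2 := by norm_num
      rw [this, map_mul, h.v2, one_mul]
    rw [map_mul, map_pow, h.vb, e9]; simp
  rw [v3] at v2
  have : N ^ 2 = 1 := by rw [sq]; exact v2.symm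
  exact (pow_eq_one_iff_of_nonneg zero_le two_ne_zero).mp this

lemma Ctx.N_act (h : Ctx ν k a b) (i : ℤ) (e : Bool) (q : P) : NN ν (act k i e q) = NN ν q := by
  unfold act
  rw [h.N_rot]
  cases e
  · rfl
  · exact h.N_flp q

lemma Ctx.pole (h : Ctx ν k a b) (q : P) (hq : q ∈ Sph) (h0 : q.1 = 0) : NN ν q = 1 ∧
    ∀ i e, ¬ LL ν a b (act k i e q) := by
  have h1 := sph_eq hq
  rw [h0, zero_mul, zero_add] at h1
  have h2 : ν (q.2 : ℂ) = 1 := by
    have h3 := congrArg ν h1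
    rw [map_pow, map_one] at h3
    exact (pow_eq_one_iff_of_nonneg zero_le two_ne_zero).mp h3
  have hN : NN ν q = 1 := by
    unfold NN
    rw [h0, h2]; simp
  refine ⟨hN, fun i e => ?_⟩
  unfold LL
  rw [h.N_act, hN, not_lt, vdot_C]
  have e1 : (act k i e q).1 = 0 := by
    unfold act rot flp
    cases e <;> simp [h0]
  have e2 : ν ((act k i e q).2 : ℂ) = 1 := by
    unfold act rot flp
    cases e
    · exact h2
    · simp [h2]
  rw [e1, map_zero, add_zero, mul_zero, zero_add, map_mul, h.vb, one_mul, e2]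

lemma Ctx.nonfree (h : Ctx ν k a b) (q : P) (hq : q ∈ Sph) (hf : ¬ Free k q) : NN ν q = 1 ∧
    ((∀ i e, ¬ LL ν a b (act k i e q)) ∨ ∃ i : ℤ, q = rot k i ey) := by
  unfold Free at hf
  push Not at hf
  obtain ⟨i, e, hact, hne⟩ := hf
  have hk := h.hk
  cases e with
  | false =>
    have hi : ¬ (2 * k : ℤ) ∣ i := hne rfl
    have h1 : MP_f406e2_lc.om k ^ i * q.1 = q.1 := congrArg Prod.fst hact
    have h2 : MP_f406e2_lc.om k ^ i ≠ 1 := by rwa [Ne, om_zpow_eq_one k hk]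
    have h3 : (MP_f406e2_lc.om k ^ i - 1) * q.1 = 0 := by linear_combination h1
    have h4 : q.1 = 0 := (mul_eq_zero.mp h3).resolve_left (sub_ne_zero.mpr h2)
    obtain ⟨hN, hL⟩ := h.pole q hq h4
    exact ⟨hN, Or.inl hL⟩
  | true =>
    have h1 : MP_f406e2_lc.om k ^ i * (MP_f406e2_lc.om k * conj q.1) = q.1 := congrArg Prod.fst hact
    have h2 : -q.2 = q.2 := congrArg Prod.snd hact
    have hz : q.2 = 0 := by linarith
    have hS := sph_eq hq
    rw [hz] at hS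
    have hS1 : q.1 * conj q.1 = 1 := by simpa using hS
    set u := conj q.1 with hu
    have hu0 : u ≠ 0 := by
      intro h0
      rw [h0, mul_zero] at hS1
      exact zero_ne_one hS1
    have hom0 := om_ne k
    set l := i + 1 with hl
    have h3 : q.1 = MP_f406e2_lc.om k ^ l * u := by
      rw [hl, zpow_add_one₀ hom0]
      linear_combination -h1
    have h4 : q.1 ^ 2 = MP_f406e2_lc.om k ^ l := by
      have : q.1 ^ 2 = MP_f406e2_lc.om k ^ l * (q.1 * u) := by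
        rw [sq]; nth_rewrite 1 [h3]; ring
      rw [this, hS1, mul_one]
    have hv1 : ν q.1 = 1 := by
      have h5 := congrArg ν h4
      rw [map_pow, h.om] at h5
      exact (pow_eq_one_iff_of_nonneg zero_le two_ne_zero).mp h5
    have hv2 : ν u = 1 := by
      have h5 := congrArg ν hS1
      rw [map_mul, hv1, one_mul, map_one] at h5
      exact h5
    have hN : NN ν q = 1 := by
      unfold NN
      rw [← hu, hv1, hv2, hz]; simp
    refine ⟨hN, ?_⟩
    by_cases hpar : (2 : ℤ) ∣ l + k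
    · right
      obtain ⟨s, hs⟩ := hpar
      have h5 : MP_f406e2_lc.om k ^ l = (MP_f406e2_lc.om k ^ s * Complex.I) ^ 2 := by
        have h6 : s * ((2 : ℕ) : ℤ) = l + k := by push_cast; linarith
        have h6' : (MP_f406e2_lc.om k ^ s) ^ 2 = -MP_f406e2_lc.om k ^ l := by
          rw [← zpow_natCast, ← zpow_mul, h6, zpow_add₀ hom0, om_pow_k k hk]
          ring
        rw [mul_pow, Complex.I_sq, h6']
        ring
      have h7 : (q.1 - MP_f406e2_lc.om k ^ s * Complex.I) * (q.1 + MP_f406e2_lc.om k ^ s * Complex.I) = 0 := by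
        linear_combination h4 + h5
      rcases mul_eq_zero.mp h7 with h8 | h8
      · refine ⟨s, Prod.ext ?_ ?_⟩
        · exact sub_eq_zero.mp h8
        · exact hz
      · refine ⟨s + k, Prod.ext ?_ ?_⟩
        · change q.1 = MP_f406e2_lc.om k ^ (s + (k : ℤ)) * Complex.I
          rw [zpow_add₀ hom0, om_pow_k k hk]
          linear_combination h8
        · exact hz
    · left
      have hrot : ∀ j : ℤ, ¬ LL ν a b (rot k j q) := by
        intro j
        unfold LL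
        rw [h.N_rot, hN, not_lt, vdot_C]
        have e1 : (rot k j q).1 = MP_f406e2_lc.om k ^ j * q.1 := rfl
        have e2 : (rot k j q).2 = 0 := hz
        rw [e1, e2, map_mul]
        have e3 : conj (MP_f406e2_lc.om k ^ j) = (MP_f406e2_lc.om k ^ j)⁻¹ := by
          rw [map_zpow₀, conj_om, inv_zpow]
        rw [e3]
        have hj0 : MP_f406e2_lc.om k ^ j ≠ 0 := zpow_ne_zero _ hom0
        have e4 : (a : ℂ) / 2 * (MP_f406e2_lc.om k ^ j * q.1 + (MP_f406e2_lc.om k ^ j)⁻¹ * u) + b * ((0 : ℝ) : ℂ) =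
            -(a / 2 * ((MP_f406e2_lc.om k ^ j)⁻¹ * u * (MP_f406e2_lc.om k ^ (2 * j + l + k) - 1))) := by
          have e5 : MP_f406e2_lc.om k ^ (2 * j + l + k) = -((MP_f406e2_lc.om k ^ j) ^ 2 * q.1 ^ 2) := by
            rw [zpow_add₀ hom0, zpow_add₀ hom0, om_pow_k k hk, h4, ← zpow_natCast (_ ^ j), ← zpow_mul]
            have : j * ((2 : ℕ) : ℤ) = 2 * j := by push_cast; ring
            rw [this]; ring
          rw [e5, Complex.ofReal_zero]
          have e6 : q.1 * u = 1 := hS1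
          field_simp
          linear_combination (-(a : ℂ) * (MP_f406e2_lc.om k ^ j) ^ 2 * q.1) * e6
        have hnd : ¬ (2 * k : ℤ) ∣ 2 * j + l + k := by
          rintro ⟨c, hc⟩
          apply hpar
          exact ⟨k * c - j, by linear_combination hc⟩
        rw [e4, Valuation.map_neg, map_mul, h.half, one_mul, map_mul, map_mul, h.sub _ hnd, mul_one,
          hv2, mul_one, map_inv₀, h.om, inv_one]
      intro j e
      cases e with
      | false => exact hrot j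
      | true =>
        have h9 : flp k q = rot k (-i) q := by
          have h10 : rot k i (flp k q) = q := hact
          conv_rhs => rw [← h10]
          unfold rot
          refine Prod.ext ?_ rfl
          simp only
          rw [← mul_assoc, ← zpow_add₀ hom0]; simp
        have h11 : act k j true q = rot k (j - i) q := by
          unfold act
          simp only [if_true]
          rw [h9]
          unfold rot
          refine Prod.ext ?_ rfl
          simp only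
          rw [← mul_assoc, ← zpow_add₀ hom0]; rfl
        rw [h11]; exact hrot _

lemma Ctx.fix_r (h : Ctx ν k a b) (q : P) (hq : q ∈ Sph) (hr : rr a b q = q) : NN ν q ≠ 1 := by
  set t : ℝ := 2 / ((a : ℝ) ^ 2 + (b : ℝ) ^ 2) * vdot a b q with ht
  have h1 : ((t * a : ℝ) : ℂ) - q.1 = q.1 := congrArg Prod.fst hr
  have h2 : t * b - q.2 = q.2 := congrArg Prod.snd hr
  have h3 : q.1 = (t : ℂ) * a / 2 := by
    push_cast at h1
    linear_combination (-(1 : ℂ) / 2) * h1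
  have h4 : (q.2 : ℂ) = (t : ℂ) * b / 2 := by
    have h5 : ((t * b - q.2 : ℝ) : ℂ) = (q.2 : ℂ) := by rw [h2]
    push_cast at h5
    linear_combination (-(1 : ℂ) / 2) * h5
  have h5 : conj q.1 = (t : ℂ) * a / 2 := by
    have h2' : conj (2 : ℂ) = 2 := map_ofNat _ 2
    rw [h3, map_div₀, map_mul, Complex.conj_ofReal, Complex.conj_natCast, h2']
  have h6 := sph_eq hq
  have h7 : ((t : ℂ) / 2) ^ 2 * ((a : ℂ) ^ 2 + (b : ℂ) ^ 2) = 1 := by
    rw [h5, h3, h4] at h6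
    linear_combination h6
  have h8 : 1 < ν ((t : ℂ) / 2) := by
    by_contra hcon
    push Not at hcon
    have h9 := congrArg ν h7
    rw [map_mul, map_one, map_pow] at h9
    have h10 : ν ((t : ℂ) / 2) ^ 2 * ν ((a : ℂ) ^ 2 + (b : ℂ) ^ 2) < 1 :=
      mul_lt_one_of_nonneg_of_lt_one_right (pow_le_one' hcon 2) zero_le h.p1'
    exact absurd h9 h10.ne
  have h9 : ν (q.2 : ℂ) = ν ((t : ℂ) / 2) := by
    rw [h4, show (t : ℂ) * b / 2 = (t : ℂ) / 2 * b by ring, map_mul, h.vb, mul_one]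
  have h10 : 1 < NN ν q := (h9 ▸ h8).trans_le (NN_3 q)
  exact h10.ne'

lemma Ctx.fix_rY (h : Ctx ν k a b) (q : P) (hq : q ∈ Sph) (hr : rr a b q = Yf q) : NN ν q ≠ 1 := by
  set t : ℝ := 2 / ((a : ℝ) ^ 2 + (b : ℝ) ^ 2) * vdot a b q with ht
  have h1 : ((t * a : ℝ) : ℂ) - q.1 = -conj q.1 := congrArg Prod.fst hr
  have h2 : t * b - q.2 = -q.2 := congrArg Prod.snd hr
  have hb : (b : ℝ) ≠ 0 := by exact_mod_cast h.hb0.ne'
  have ht0 : t = 0 := by
    have : t * b = 0 := by linarith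
    exact (mul_eq_zero.mp this).resolve_right hb
  have hv : vdot a b q = 0 := by
    rw [ht0] at ht
    have h3 := h.p0
    rcases mul_eq_zero.mp ht.symm with h4 | h4
    · exact absurd h4 (by positivity)
    · exact h4
  have hc : conj q.1 = q.1 := by
    rw [ht0] at h1
    simp only [zero_mul, Complex.ofReal_zero, zero_sub, neg_inj] at h1
    exact h1.symm
  have hvC : (a : ℂ) * q.1 + b * (q.2 : ℂ) = 0 := by
    have h3 := vdot_C (a := a) (b := b) q
    rw [hv, hc] at h3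
    push_cast at h3
    linear_combination -h3
  have h6 := sph_eq hq
  rw [hc] at h6
  have h7 : q.1 ^ 2 * ((a : ℂ) ^ 2 + (b : ℂ) ^ 2) = (b : ℂ) ^ 2 := by
    linear_combination ((b : ℂ) ^ 2) * h6 + (a * q.1 - b * (q.2 : ℂ)) * hvC
  have h8 : 1 < ν q.1 := by
    by_contra hcon
    push Not at hcon
    have h9 := congrArg ν h7
    rw [map_mul, map_pow, map_pow, h.vb, one_pow] at h9
    have h10 : ν q.1 ^ 2 * ν ((a : ℂ) ^ 2 + (b : ℂ) ^ 2) < 1 :=
      mul_lt_one_of_nonneg_of_lt_one_right (pow_le_one' hcon 2) zero_le h.p1'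
    exact absurd h9 h10.ne
  exact (h8.trans_le (NN_1 q)).ne'

lemma Ctx.N_ey (h : Ctx ν k a b) : NN ν ey = 1 := by
  unfold NN ey
  simp [h.I]

lemma Ctx.lev_ey (h : Ctx ν k a b) (i : ℤ) : LL ν a b (rot k i ey) ↔ (k : ℤ) ∣ i := by
  have hk := h.hk
  unfold LL
  rw [h.N_rot, h.N_ey, vdot_C]
  set w := MP_f406e2_lc.om k ^ i with hw
  have hw0 : w ≠ 0 := zpow_ne_zero _ (om_ne k)
  have e1 : (rot k i ey).1 = w * Complex.I := rfl
  have e2 : (rot k i ey).2 = 0 := rfl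
  have e3 : conj w = w⁻¹ := by rw [hw, map_zpow₀, conj_om, inv_zpow]
  have e4 : (a : ℂ) / 2 * (w * Complex.I + conj (w * Complex.I)) + b * ((0 : ℝ) : ℂ) =
      a / 2 * (Complex.I * w⁻¹ * (MP_f406e2_lc.om k ^ (2 * i) - 1)) := by
    rw [map_mul, e3, Complex.conj_I, mul_comm 2 i, zpow_mul, ← hw, Complex.ofReal_zero]
    have : w ^ (2 : ℤ) = w ^ 2 := by norm_cast
    rw [this]
    field_simp
    ring
  have hνw : ν w⁻¹ = 1 := by rw [map_inv₀, h.om, inv_one]
  rw [e1, e2, e4, map_mul, h.half, one_mul, map_mul, map_mul, h.I, hνw, one_mul, one_mul]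
  have hdiv : (2 * k : ℤ) ∣ 2 * i ↔ (k : ℤ) ∣ i := by
    constructor
    · rintro ⟨c, hc⟩
      exact ⟨c, by linarith⟩
    · rintro ⟨c, hc⟩
      exact ⟨c, by rw [hc]; ring⟩
  rw [← hdiv]
  constructor
  · intro hlt
    by_contra hcon
    rw [h.sub _ hcon] at hlt
    exact lt_irrefl _ hlt
  · intro hd
    rw [(om_zpow_eq_one k hk _).mpr hd, sub_self, map_zero]
    exact zero_lt_one

end val

end ValAux

open ValAux in
theorem exists_height (k a b : ℕ) (hk : 3 ≤ k) (ha : 0 < a) (hb : 0 < b)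
    (hp : (a ^ 2 + b ^ 2).Prime) (hd : ¬ (a ^ 2 + b ^ 2) ∣ 2 * k) : Nonempty (Height k a b) := by
  obtain ⟨Γ, _, ν, hν⟩ := exists_val (a ^ 2 + b ^ 2) hp
  have cop : ∀ n : ℕ, ¬ (a ^ 2 + b ^ 2) ∣ n → ν (n : ℂ) = 1 := fun n hn =>
    val_nat_eq ν hν n ((Nat.Prime.coprime_iff_not_dvd hp).mpr hn).symm
  have h2k : ν (((2 * k : ℕ)) : ℂ) = 1 := cop _ hd
  have h2 : ν ((2 : ℕ) : ℂ) = 1 := cop 2 fun h => hd (h.mul_right k)
  have hna : ¬ (a ^ 2 + b ^ 2) ∣ a := by
    intro h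
    have := Nat.le_of_dvd ha h
    nlinarith
  have hnb : ¬ (a ^ 2 + b ^ 2) ∣ b := by
    intro h
    have := Nat.le_of_dvd hb h
    nlinarith
  have h : Ctx ν k a b := ⟨by omega, hb, hν, by exact_mod_cast h2, cop a hna, cop b hnb, h2k⟩
  exact ⟨{
    Γ := Γ
    N := NN ν
    c := cc ν a b
    lev := LL ν a b
    one_lt_c := h.one_lt_c
    N_rot := h.N_rot
    N_flp := h.N_flp
    N_neg := NN_neg
    lev_neg := LL_neg
    lev_Y := LL_Y
    one_le := fun q hq => NN_one_le hq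
    up := h.up
    lev_of_up := h.lev_of_up
    lev_r := fun q _ => h.lev_r q
    two_lev := fun q hq i => h.two_lev q hq i
    three_lev := fun q hq i j => h.three_lev q hq i j
    nonfree := h.nonfree
    fix_r := h.fix_r
    fix_rY := h.fix_rY
    N_ey := h.N_ey
    lev_ey := h.lev_ey }⟩

end Pool.Agent.Lib.MP_f406e2_lc
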